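import Pool.Agent.Lib_MP_d22ea4_an.Stmt

/-!
# The frame of the second example for problem MP_d22ea4_an
-/

noncomputable section

namespace SRTorus

/-- the function `g(x)`, a polynomial of `1 - cos 2πx`; its derivative is
`26880 π sin^5(πx) cos^9(πx)`, and `g(0) = 0`, `g(1/2) = 128` -/
def g1 (x : ℝ) : ℝ :=
  560 * (1 - Real.cos (2 * Real.pi * x)) ^ 3 - 840 * (1 - Real.cos (2 * Real.pi * x)) ^ 4 +
    504 * (1 - Real.cos (2 * Real.pi * x)) ^ 5 - 140 * (1 - Real.cos (2 * Real.pi * x)) ^ 6 +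
    15 * (1 - Real.cos (2 * Real.pi * x)) ^ 7

/-- the vector fields `∂_0, ∂_1 + (1 - cos 2πx_0)^4 ∂_2, ∂_3, ∂_4 + g(x_0) ∂_5` -/
def X1 (i : Fin 4) (x : EuclideanSpace ℝ (Fin 6)) : EuclideanSpace ℝ (Fin 6) :=
  WithLp.toLp 2 (![![1, 0, 0, 0, 0, 0],
    ![0, 1, (1 - Real.cos (2 * Real.pi * x 0)) ^ 4, 0, 0, 0],
    ![0, 0, 0, 1, 0, 0],
    ![0, 0, 0, 0, 1, g1 (x 0)]] i)

end SRTorus
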