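import Pool.Agent.Lib_MP_d22ea4_an.Spec1
import Pool.Agent.Lib_MP_d22ea4_an.EBfacts

/-!
# MP_d22ea4_an, second example: definitions

`T^6`, frame `∂_0, ∂_1 + f(x_0) ∂_2, ∂_3, ∂_4 + g(x_0) ∂_5` with `f = (1 - cos 2πx_0)^4` and a
polynomial `g` of `1 - cos 2πx_0` with `g' = 26880 π sin^5(πx_0) cos^9(πx_0)`.
-/

open MeasureTheory Filter Topology Complex
open scoped ContDiff ComplexConjugate InnerProductSpace

noncomputable section

namespace MP_d22ea4_an.WD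

attribute [local instance] instMeasureSpaceUnitAddCircle

/-- the function `g` -/
def gk (x : ℝ) : ℝ :=
  560 * (1 - Real.cos (2 * Real.pi * x)) ^ 3 - 840 * (1 - Real.cos (2 * Real.pi * x)) ^ 4 +
    504 * (1 - Real.cos (2 * Real.pi * x)) ^ 5 - 140 * (1 - Real.cos (2 * Real.pi * x)) ^ 6 +
    15 * (1 - Real.cos (2 * Real.pi * x)) ^ 7

/-- `a(x) = 2π (m + n φ(x))` -/
def af (φ : ℝ → ℝ) (m n : ℤ) (x : ℝ) : ℝ := 2 * Real.pi * ((m : ℝ) + (n : ℝ) * φ x)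

/-- the vector fields `∂_0, ∂_1 + f(x_0) ∂_2, ∂_3, ∂_4 + g(x_0) ∂_5` on `T^6` -/
def X1 : Fin 4 → VF 6 := fun i x =>
  match i with
  | 0 => ![1, 0, 0, 0, 0, 0]
  | 1 => ![0, 1, fk 4 (x 0), 0, 0, 0]
  | 2 => ![0, 0, 0, 1, 0, 0]
  | 3 => ![0, 0, 0, 0, 1, gk (x 0)]

/-- frequencies `((m₁, n₁), (m₂, n₂))` -/
abbrev PF : Type := (ℤ × ℤ) × (ℤ × ℤ)

/-- the potential -/
def V2 (p : PF) (x : ℝ) : ℝ := (af (fk 4) p.1.1 p.1.2 x) ^ 2 + (af gk p.2.1 p.2.2 x) ^ 2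

theorem ak_eq (m n : ℤ) : ak 4 m n = af (fk 4) m n := rfl

theorem contDiff_gk : ContDiff ℝ ∞ gk := by
  unfold gk
  fun_prop

theorem contDiff_af {φ : ℝ → ℝ} (hφ : ContDiff ℝ ∞ φ) (m n : ℤ) : ContDiff ℝ ∞ (af φ m n) :=
  contDiff_const.mul (contDiff_const.add (contDiff_const.mul hφ))

theorem gk_periodic : Function.Periodic gk 1 := by
  intro x
  unfold gk
  rw [show 2 * Real.pi * (x + 1) = 2 * Real.pi * x + 2 * Real.pi by ring, Real.cos_add_two_pi]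

theorem af_periodic {φ : ℝ → ℝ} (hφ : Function.Periodic φ 1) (m n : ℤ) :
    Function.Periodic (af φ m n) 1 := by
  intro x
  unfold af
  rw [hφ x]

theorem good_V2 (p : PF) : Good (V2 p) where
  smooth := ((contDiff_af (contDiff_fk 4) _ _).pow 2).add ((contDiff_af contDiff_gk _ _).pow 2)
  per := fun x => by
    unfold V2
    rw [af_periodic (fk_periodic 4) p.1.1 p.1.2 x, af_periodic gk_periodic p.2.1 p.2.2 x]
  nonneg := fun x => add_nonneg (sq_nonneg _) (sq_nonneg _)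

theorem V2_neg (p : PF) : V2 (-p.1, p.2) = V2 p := by
  funext x
  unfold V2 af
  simp only [Prod.fst_neg, Prod.snd_neg]
  push_cast
  ring

/-- a choice of an eigenbasis for every potential -/
def ebW (V : {V : ℝ → ℝ // Good V}) : EB V.1 := Classical.choice (exists_EB V.2)

/-- the eigenbases of the fibre operators -/
def E2 (p : PF) : EB (V2 p) := ebW ⟨V2 p, good_V2 p⟩

/-- states of the fibre operators -/
abbrev S2 : Type := Σ p : PF, (E2 p).ι

/-- the index set of the eigenbasis of `L²(T^6)`: a state and the frequency of `x_3` -/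
abbrev P1 : Type := S2 × ℤ

/-- the eigenvalue of a state -/
def sev (α : S2) : ℝ := (E2 α.1).ev α.2

/-- the function of a state -/
def sfn (α : S2) : C(UnitAddCircle, ℂ) := (E2 α.1).fn α.2

/-- the eigenvalue -/
def nu (q : P1) : ℝ := sev q.1 + 4 * Real.pi ^ 2 * (q.2 : ℝ) ^ 2

/-- the eigenfunction on `T^6` -/
def prodS (q : P1) : C(Torus 6, ℂ) :=
  prodFn q.1.1.1.1 q.1.1.1.2 q.1.1.2.1 q.1.1.2.2 (sfn q.1) (fourier q.2)

theorem sev_nonneg (α : S2) : 0 ≤ sev α := EB.ev_nonneg (good_V2 _) _ _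

theorem nu_nonneg (q : P1) : 0 ≤ nu q := add_nonneg (sev_nonneg _) (by positivity)

theorem state_energy (α : S2) :
    ∫ x in (0:ℝ)..1, (‖deriv (lift (sfn α)) x‖ ^ 2 + V2 α.1 x * ‖lift (sfn α) x‖ ^ 2) = sev α :=
  EB.energy (good_V2 _) _ _

theorem state_norm (α : S2) : ∫ x in (0:ℝ)..1, ‖lift (sfn α) x‖ ^ 2 = 1 :=
  EB.norm_one _ _

theorem state_smooth (α : S2) : ContDiff ℝ ∞ (lift (sfn α)) := (E2 α.1).smooth α.2

end MP_d22ea4_an.WD
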