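import Pool.Agent.Lib_MP_d22ea4_wd.W01
import Pool.Agent.Lib_MP_d22ea4_an.Fk

open MeasureTheory Filter Topology Complex
open scoped ContDiff ComplexConjugate InnerProductSpace

noncomputable section

namespace MP_d22ea4_an.WD

attribute [local instance] instMeasureSpaceUnitAddCircle

private theorem w02_cos (x : ℝ) :
    1 - Real.cos (2 * Real.pi * x) = 2 * Real.sin (Real.pi * x) ^ 2 := by
  have := Real.cos_two_mul (Real.pi * x)
  have e1 : 2 * (Real.pi * x) = 2 * Real.pi * x := by ring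
  rw [e1] at this
  rw [this]
  have := Real.sin_sq_add_cos_sq (Real.pi * x)
  linarith

private theorem w02_cos' (x : ℝ) :
    1 - Real.cos (2 * Real.pi * x) = 2 - 2 * Real.cos (Real.pi * x) ^ 2 := by
  rw [w02_cos]
  have := Real.sin_sq_add_cos_sq (Real.pi * x)
  linarith

private theorem w02_sin (x : ℝ) :
    Real.sin (2 * Real.pi * x) = 2 * Real.sin (Real.pi * x) * Real.cos (Real.pi * x) := by
  rw [← Real.sin_two_mul]
  congr 1
  ring

private theorem w02_S {x : ℝ} (hx : x ∈ Set.Icc (0 : ℝ) 1) :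
    2 * min x (1 - x) ≤ |Real.sin (Real.pi * x)| := by
  refine le_trans ?_ (le_abs_self _)
  rcases le_total x (1 / 2) with h | h
  · rw [min_eq_left (by linarith)]
    exact sin_pi_ge hx.1 h
  · rw [min_eq_right (by linarith)]
    have := sin_pi_ge (e := 1 - x) (by linarith [hx.2]) (by linarith)
    have e1 : Real.pi * (1 - x) = Real.pi - Real.pi * x := by ring
    rwa [e1, Real.sin_pi_sub] at this

private theorem w02_C {x : ℝ} (hx : x ∈ Set.Icc (0 : ℝ) 1) :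
    2 * |x - 1 / 2| ≤ |Real.cos (Real.pi * x)| := by
  have e1 : |Real.cos (Real.pi * x)| = |Real.sin (Real.pi * (x - 1 / 2))| := by
    have : Real.pi * (x - 1 / 2) = Real.pi * x - Real.pi / 2 := by ring
    rw [this, Real.sin_sub_pi_div_two, abs_neg]
  rw [e1]
  rcases le_total 0 (x - 1 / 2) with h | h
  · rw [abs_of_nonneg h]
    exact (sin_pi_ge h (by linarith [hx.2])).trans (le_abs_self _)
  · rw [abs_of_nonpos h]
    refine (sin_pi_ge (e := -(x - 1 / 2)) (by linarith) (by linarith [hx.1])).trans ?_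
    rw [mul_neg, Real.sin_neg]
    exact neg_le_abs _

theorem hasDerivAt_fk4 (x : ℝ) : HasDerivAt (fk 4)
    (128 * Real.pi * Real.sin (Real.pi * x) ^ 7 * Real.cos (Real.pi * x)) x := by
  refine (hasDerivAt_fk 4 x).congr_deriv ?_
  rw [w02_cos, w02_sin]
  push_cast
  ring

theorem hasDerivAt_gk (x : ℝ) : HasDerivAt gk
    (26880 * Real.pi * Real.sin (Real.pi * x) ^ 5 * Real.cos (Real.pi * x) ^ 9) x := by
  have h1 : HasDerivAt (fun x : ℝ => 2 * Real.pi * x) (2 * Real.pi) x := by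
    simpa using (hasDerivAt_id x).const_mul (2 * Real.pi)
  have h2 := (h1.cos).const_sub 1
  have h3 := (((((h2.pow 3).const_mul 560).sub ((h2.pow 4).const_mul 840)).add
    ((h2.pow 5).const_mul 504)).sub ((h2.pow 6).const_mul 140)).add ((h2.pow 7).const_mul 15)
  have h4 : HasDerivAt gk (105 * (1 - Real.cos (2 * Real.pi * x)) ^ 2 *
      (2 - (1 - Real.cos (2 * Real.pi * x))) ^ 4 * (2 * Real.pi * Real.sin (2 * Real.pi * x))) x := by
    refine h3.congr_deriv ?_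
    push_cast
    ring
  refine h4.congr_deriv ?_
  have e2 : 2 - (1 - Real.cos (2 * Real.pi * x)) = 2 * Real.cos (Real.pi * x) ^ 2 := by
    rw [w02_cos']
    ring
  rw [e2, w02_cos, w02_sin]
  ring

private theorem w02_absf (x : ℝ) : |deriv (fk 4) x| =
    128 * Real.pi * |Real.sin (Real.pi * x)| ^ 7 * |Real.cos (Real.pi * x)| := by
  have hpi := Real.pi_pos
  rw [(hasDerivAt_fk4 x).deriv, abs_mul, abs_mul, abs_pow,
    abs_of_pos (by positivity : (0 : ℝ) < 128 * Real.pi)]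

private theorem w02_absg (x : ℝ) : |deriv gk x| =
    26880 * Real.pi * |Real.sin (Real.pi * x)| ^ 5 * |Real.cos (Real.pi * x)| ^ 9 := by
  have hpi := Real.pi_pos
  rw [(hasDerivAt_gk x).deriv, abs_mul, abs_mul, abs_pow, abs_pow,
    abs_of_pos (by positivity : (0 : ℝ) < 26880 * Real.pi)]

private theorem w02_dd0 {x : ℝ} (hx : x ∈ Set.Icc (0 : ℝ) 1) : 0 ≤ dd x :=
  le_min (le_min hx.1 (by linarith [hx.2])) (abs_nonneg _)

private theorem w02_key {x : ℝ} (m n : ℕ) {a b K : ℝ}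
    (ha : 0 ≤ a) (hb : 0 ≤ b) (hK : 0 ≤ K)
    (h1 : a ≤ |Real.sin (Real.pi * x)|) (h2 : b ≤ |Real.cos (Real.pi * x)|) :
    K * 3 * a ^ m * b ^ n ≤
      K * Real.pi * |Real.sin (Real.pi * x)| ^ m * |Real.cos (Real.pi * x)| ^ n := by
  have hpi := Real.pi_gt_three
  have h3 : a ^ m ≤ |Real.sin (Real.pi * x)| ^ m := pow_le_pow_left₀ ha h1 m
  have h4 : b ^ n ≤ |Real.cos (Real.pi * x)| ^ n := pow_le_pow_left₀ hb h2 n
  have h5 : K * 3 ≤ K * Real.pi := mul_le_mul_of_nonneg_left hpi.le hK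
  have h6 : K * 3 * a ^ m ≤ K * Real.pi * |Real.sin (Real.pi * x)| ^ m :=
    mul_le_mul h5 h3 (pow_nonneg ha m) (by positivity)
  exact mul_le_mul h6 h4 (pow_nonneg hb n) (by positivity)

/-- `dd x` is the distance of `x ∈ [0,1]` to `{0, 1/2, 1}` -/
theorem f_near0 {x : ℝ} (hx : x ∈ Set.Icc (0 : ℝ) 1) (h : 1 / 8 ≤ |x - 1 / 2|) :
    dd x ^ 7 ≤ |deriv (fk 4) x| := by
  have h0 := w02_dd0 hx
  have hS : 2 * dd x ≤ |Real.sin (Real.pi * x)| :=
    (mul_le_mul_of_nonneg_left (min_le_left _ _) (by norm_num)).trans (w02_S hx)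
  have hC : (1 / 4 : ℝ) ≤ |Real.cos (Real.pi * x)| := by
    have := w02_C hx
    linarith
  have hk := w02_key 7 1 (K := 128) (by positivity) (by norm_num) (by norm_num) hS hC
  rw [w02_absf]
  rw [pow_one, pow_one] at hk
  refine le_trans ?_ hk
  have h7 : 0 ≤ dd x ^ 7 := pow_nonneg h0 7
  rw [mul_pow]
  nlinarith

theorem f_near1 {x : ℝ} (hx : x ∈ Set.Icc (0 : ℝ) 1) (h : |x - 1 / 2| ≤ 1 / 4) :
    dd x ^ 1 ≤ |deriv (fk 4) x| := by
  have h0 := w02_dd0 hx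
  have hm : 1 / 4 ≤ min x (1 - x) := by
    have := abs_half_eq x
    linarith
  have hS : (1 / 2 : ℝ) ≤ |Real.sin (Real.pi * x)| := by
    have := w02_S hx
    linarith
  have hC : 2 * dd x ≤ |Real.cos (Real.pi * x)| :=
    (mul_le_mul_of_nonneg_left (min_le_right _ _) (by norm_num)).trans (w02_C hx)
  have hk := w02_key 7 1 (K := 128) (by norm_num) (by positivity) (by norm_num) hS hC
  rw [w02_absf]
  rw [pow_one, pow_one] at hk
  rw [pow_one]
  refine le_trans ?_ hk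
  nlinarith

theorem g_near0 {x : ℝ} (hx : x ∈ Set.Icc (0 : ℝ) 1) (h : 1 / 8 ≤ |x - 1 / 2|) :
    dd x ^ 5 ≤ |deriv gk x| := by
  have h0 := w02_dd0 hx
  have hS : 2 * dd x ≤ |Real.sin (Real.pi * x)| :=
    (mul_le_mul_of_nonneg_left (min_le_left _ _) (by norm_num)).trans (w02_S hx)
  have hC : (1 / 4 : ℝ) ≤ |Real.cos (Real.pi * x)| := by
    have := w02_C hx
    linarith
  have hk := w02_key 5 9 (K := 26880) (by positivity) (by norm_num) (by norm_num) hS hC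
  rw [w02_absg]
  refine le_trans ?_ hk
  have h7 : 0 ≤ dd x ^ 5 := pow_nonneg h0 5
  rw [mul_pow]
  norm_num
  nlinarith

theorem g_near1 {x : ℝ} (hx : x ∈ Set.Icc (0 : ℝ) 1) (h : |x - 1 / 2| ≤ 1 / 4) :
    dd x ^ 9 ≤ |deriv gk x| := by
  have h0 := w02_dd0 hx
  have hm : 1 / 4 ≤ min x (1 - x) := by
    have := abs_half_eq x
    linarith
  have hS : (1 / 2 : ℝ) ≤ |Real.sin (Real.pi * x)| := by
    have := w02_S hx
    linarith
  have hC : 2 * dd x ≤ |Real.cos (Real.pi * x)| :=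
    (mul_le_mul_of_nonneg_left (min_le_right _ _) (by norm_num)).trans (w02_C hx)
  have hk := w02_key 5 9 (K := 26880) (by norm_num) (by positivity) (by norm_num) hS hC
  rw [w02_absg]
  refine le_trans ?_ hk
  have h7 : 0 ≤ dd x ^ 9 := pow_nonneg h0 9
  rw [mul_pow]
  norm_num
  nlinarith

private theorem w02_t (x : ℝ) :
    0 ≤ 1 - Real.cos (2 * Real.pi * x) ∧ 1 - Real.cos (2 * Real.pi * x) ≤ 2 :=
  ⟨by linarith [Real.cos_le_one (2 * Real.pi * x)],
   by linarith [Real.neg_one_le_cos (2 * Real.pi * x)]⟩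

theorem gk_nonneg (x : ℝ) : 0 ≤ gk x := by
  obtain ⟨h0, h2⟩ := w02_t x
  unfold gk
  set t := 1 - Real.cos (2 * Real.pi * x) with ht
  have hs : 0 ≤ 2 - t := by linarith
  have e : 560 * t ^ 3 - 840 * t ^ 4 + 504 * t ^ 5 - 140 * t ^ 6 + 15 * t ^ 7 =
      t ^ 3 * (16 + 24 * (2 - t) + 24 * (2 - t) ^ 2 + 20 * (2 - t) ^ 3 + 15 * (2 - t) ^ 4) := by
    ring
  rw [e]
  positivity

theorem gk_le (x : ℝ) : gk x ≤ 560 * (1 - Real.cos (2 * Real.pi * x)) ^ 3 := by
  obtain ⟨h0, h2⟩ := w02_t x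
  unfold gk
  set t := 1 - Real.cos (2 * Real.pi * x) with ht
  have hs : 0 ≤ 2 - t := by linarith
  have hs2 : 2 - t ≤ 2 := by linarith
  have e : 560 * t ^ 3 - 840 * t ^ 4 + 504 * t ^ 5 - 140 * t ^ 6 + 15 * t ^ 7 =
      t ^ 3 * (16 + 24 * (2 - t) + 24 * (2 - t) ^ 2 + 20 * (2 - t) ^ 3 + 15 * (2 - t) ^ 4) := by
    ring
  rw [e, mul_comm (560 : ℝ)]
  refine mul_le_mul_of_nonneg_left ?_ (pow_nonneg h0 3)
  have p2 := pow_le_pow_left₀ hs hs2 2
  have p3 := pow_le_pow_left₀ hs hs2 3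
  have p4 := pow_le_pow_left₀ hs hs2 4
  linarith

theorem gk_le' (x : ℝ) : gk x ≤ 128 := by
  obtain ⟨h0, h2⟩ := w02_t x
  unfold gk
  set t := 1 - Real.cos (2 * Real.pi * x) with ht
  have hs : 0 ≤ 2 - t := by linarith
  have e : 560 * t ^ 3 - 840 * t ^ 4 + 504 * t ^ 5 - 140 * t ^ 6 + 15 * t ^ 7 =
      128 - (2 - t) ^ 5 * (15 * ((2 - t) - 7 / 3) ^ 2 + 7 / 3) := by
    ring
  rw [e]
  have : 0 ≤ (2 - t) ^ 5 * (15 * ((2 - t) - 7 / 3) ^ 2 + 7 / 3) := by positivity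
  linarith

end MP_d22ea4_an.WD
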