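import Pool.Agent.Lib_MP_d22ea4_wd.W01
import Pool.Agent.Lib_MP_d22ea4_an.Box

open MeasureTheory Filter Topology Complex
open scoped ContDiff ComplexConjugate InnerProductSpace

noncomputable section

namespace MP_d22ea4_an.WD

attribute [local instance] instMeasureSpaceUnitAddCircle

/-- the inequality on one box for the potential `a² + b²` -/
private theorem box_energy2 {a b : ℝ → ℝ} (ha : Continuous a) (hb : Continuous b) {s : ℝ}
    (hs : 0 < s) {P j : ℕ} (hP : 4 * s ≤ P) {u : ℝ → ℂ} (hu : ContDiff ℝ 1 u)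
    (h : (Forb a s P j ∨ Forb b s P j) ∨
      ∫ x in ((j : ℝ) / P)..((j : ℝ) / P + 1 / P), u x = 0) :
    ∫ x in ((j : ℝ) / P)..((j : ℝ) / P + 1 / P), ‖u x‖ ^ 2 ≤
      1 / (4 * s ^ 2) *
        ∫ x in ((j : ℝ) / P)..((j : ℝ) / P + 1 / P),
          (‖deriv u x‖ ^ 2 + (a x ^ 2 + b x ^ 2) * ‖u x‖ ^ 2) := by
  have hPpos : (0:ℝ) < P := by linarith
  have hℓ : (0:ℝ) < 1 / P := by positivity
  have hc : Continuous (deriv u) := hu.continuous_deriv (le_refl _)
  have hspos : 0 < 1 / (4 * s ^ 2) := by positivity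
  have key : ∀ c : ℝ → ℝ, Continuous c → (∀ x, c x ^ 2 ≤ a x ^ 2 + b x ^ 2) →
      (Forb c s P j ∨ ∫ x in ((j : ℝ) / P)..((j : ℝ) / P + 1 / P), u x = 0) →
      ∫ x in ((j : ℝ) / P)..((j : ℝ) / P + 1 / P), ‖u x‖ ^ 2 ≤
      1 / (4 * s ^ 2) *
        ∫ x in ((j : ℝ) / P)..((j : ℝ) / P + 1 / P),
          (‖deriv u x‖ ^ 2 + (a x ^ 2 + b x ^ 2) * ‖u x‖ ^ 2) := by
    intro c hcc hle h'
    refine (box_energy hcc hs hP hu h').trans ?_
    refine mul_le_mul_of_nonneg_left ?_ hspos.le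
    refine intervalIntegral.integral_mono_on (by linarith) ?_ ?_ ?_
    · exact ((hc.norm.pow 2).add
        ((hcc.pow 2).mul (hu.continuous.norm.pow 2))).intervalIntegrable _ _
    · exact ((hc.norm.pow 2).add
        (((ha.pow 2).add (hb.pow 2)).mul (hu.continuous.norm.pow 2))).intervalIntegrable _ _
    · intro x _
      have h1 := mul_le_mul_of_nonneg_right (hle x) (sq_nonneg ‖u x‖)
      linarith
  rcases h with (h | h) | h
  · exact key a ha (fun x => by nlinarith [sq_nonneg (b x)]) (Or.inl h)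
  · exact key b hb (fun x => by nlinarith [sq_nonneg (a x)]) (Or.inl h)
  · exact key a ha (fun x => by nlinarith [sq_nonneg (b x)]) (Or.inr h)

/-- copy of `finrank_le_boxes` for the potential `a² + b²` (a box is forbidden if it is forbidden
for `a` or for `b`; on a forbidden box use `box_energy` for that function and drop the other) -/
theorem finrank_le_boxes2 {a b : ℝ → ℝ} (ha : Continuous a) (hb : Continuous b) {s : ℝ}
    (hs : 0 < s) {P : ℕ} (hP : 4 * s ≤ P) (V : Submodule ℂ (ℝ → ℂ)) [FiniteDimensional ℂ V]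
    (hV : ∀ u ∈ V, ContDiff ℝ 1 u ∧ Function.Periodic u 1)
    (hq : ∀ u ∈ V, ∫ x in (0:ℝ)..1, (‖deriv u x‖ ^ 2 + (a x ^ 2 + b x ^ 2) * ‖u x‖ ^ 2) ≤
      s ^ 2 * ∫ x in (0:ℝ)..1, ‖u x‖ ^ 2)
    [DecidablePred fun j => ¬ Forb a s P j ∧ ¬ Forb b s P j] :
    Module.finrank ℂ V ≤
      ((Finset.range P).filter fun j => ¬ Forb a s P j ∧ ¬ Forb b s P j).card := by
  have hPpos : (0:ℝ) < P := by linarith
  have hPnat : 0 < P := by exact_mod_cast hPpos
  by_contra hcon
  push Not at hcon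
  set F := (Finset.range P).filter fun j => ¬ Forb a s P j ∧ ¬ Forb b s P j with hF
  have hcon' : F.card < Module.finrank ℂ V := by
    rw [hF]
    exact hcon
  -- the map of box averages
  let L : V →ₗ[ℂ] (F → ℂ) :=
    { toFun := fun u j => ∫ x in (((j : ℕ) : ℝ) / P)..(((j : ℕ) : ℝ) / P + 1 / P), (u : ℝ → ℂ) x
      map_add' := by
        intro u v
        funext j
        simp only [Submodule.coe_add, Pi.add_apply]
        exact intervalIntegral.integral_add ((hV u u.2).1.continuous.intervalIntegrable _ _)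
          ((hV v v.2).1.continuous.intervalIntegrable _ _)
      map_smul' := by
        intro c u
        funext j
        simp only [Submodule.coe_smul, Pi.smul_apply, RingHom.id_apply]
        exact intervalIntegral.integral_smul c _ }
  have hker : LinearMap.ker L ≠ ⊥ := by
    apply LinearMap.ker_ne_bot_of_finrank_lt
    rw [Module.finrank_fintype_fun_eq_card, Fintype.card_coe]
    exact hcon'
  obtain ⟨u, huL, hu0⟩ := Submodule.exists_mem_ne_zero_of_ne_bot hker
  apply hu0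
  have huc := (hV u u.2).1
  have hup := (hV u u.2).2
  have hc : Continuous (deriv (u : ℝ → ℂ)) := huc.continuous_deriv (le_refl _)
  have hbox : ∀ j ∈ Finset.range P,
      ∫ x in ((j : ℝ) / P)..((j : ℝ) / P + 1 / P), ‖(u : ℝ → ℂ) x‖ ^ 2 ≤
      1 / (4 * s ^ 2) * ∫ x in ((j : ℝ) / P)..((j : ℝ) / P + 1 / P),
        (‖deriv (u : ℝ → ℂ) x‖ ^ 2 + (a x ^ 2 + b x ^ 2) * ‖(u : ℝ → ℂ) x‖ ^ 2) := by
    intro j hj
    apply box_energy2 ha hb hs hP huc
    by_cases hfo : Forb a s P j ∨ Forb b s P j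
    · exact Or.inl hfo
    · right
      have hjF : j ∈ F := by
        rw [hF, Finset.mem_filter]
        exact ⟨hj, not_or.1 hfo⟩
      have := congrFun (LinearMap.mem_ker.mp huL) ⟨j, hjF⟩
      simpa [L] using this
  have hsum := Finset.sum_le_sum hbox
  have hc1 : Continuous fun x => ‖(u : ℝ → ℂ) x‖ ^ 2 := huc.continuous.norm.pow 2
  have hc2 : Continuous fun x =>
      ‖deriv (u : ℝ → ℂ) x‖ ^ 2 + (a x ^ 2 + b x ^ 2) * ‖(u : ℝ → ℂ) x‖ ^ 2 :=
    (hc.norm.pow 2).add (((ha.pow 2).add (hb.pow 2)).mul (huc.continuous.norm.pow 2))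
  rw [← Finset.mul_sum, sum_boxes hc1 hPnat, sum_boxes hc2 hPnat] at hsum
  have hq' := hq u u.2
  have hI0 : 0 ≤ ∫ x in (0:ℝ)..1, ‖(u : ℝ → ℂ) x‖ ^ 2 :=
    intervalIntegral.integral_nonneg (by norm_num) fun _ _ => by positivity
  have hI : ∫ x in (0:ℝ)..1, ‖(u : ℝ → ℂ) x‖ ^ 2 = 0 := by
    have h1 : 1 / (4 * s ^ 2) * (s ^ 2 * ∫ x in (0:ℝ)..1, ‖(u : ℝ → ℂ) x‖ ^ 2) =
        1 / 4 * ∫ x in (0:ℝ)..1, ‖(u : ℝ → ℂ) x‖ ^ 2 := by
      field_simp
    have h2 := mul_le_mul_of_nonneg_left hq' (by positivity : (0:ℝ) ≤ 1 / (4 * s ^ 2))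
    rw [h1] at h2
    linarith
  have hzero : ∀ x ∈ Set.Icc (0:ℝ) 1, (u : ℝ → ℂ) x = 0 := by
    by_contra hne
    push Not at hne
    obtain ⟨x, hx, hux⟩ := hne
    have : 0 < ∫ x in (0:ℝ)..1, ‖(u : ℝ → ℂ) x‖ ^ 2 := by
      refine intervalIntegral.integral_pos (by norm_num)
        ((huc.continuous.norm.pow 2).continuousOn) (fun x _ => by positivity) ⟨x, hx, ?_⟩
      have := norm_pos_iff.mpr hux
      positivity
    linarith
  apply Subtype.ext
  funext x
  obtain ⟨y, hy, hxy⟩ := hup.exists_mem_Ico₀ one_pos x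
  rw [hxy]
  exact hzero y ⟨hy.1, hy.2.le⟩

/-- copy of `EB.ncard_le` -/
theorem ncard_le2 {a b : ℝ → ℝ} (hV : Good fun x => a x ^ 2 + b x ^ 2) (ha : Continuous a)
    (hb : Continuous b) (e : EB fun x => a x ^ 2 + b x ^ 2) {s : ℝ} (hs : 0 < s) {P : ℕ}
    (hP : 4 * s ≤ P) [DecidablePred fun j => ¬ Forb a s P j ∧ ¬ Forb b s P j] :
    {i | e.ev i ≤ s ^ 2}.Finite ∧
      {i | e.ev i ≤ s ^ 2}.ncard ≤
        ((Finset.range P).filter fun j => ¬ Forb a s P j ∧ ¬ Forb b s P j).card := by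
  have key : ∀ F : Finset e.ι, (F : Set e.ι) ⊆ {i | e.ev i ≤ s ^ 2} →
      F.card ≤ ((Finset.range P).filter fun j => ¬ Forb a s P j ∧ ¬ Forb b s P j).card := by
    intro F hF
    obtain ⟨W, hW⟩ : ∃ W, W = Submodule.span ℂ (Set.range fun i : F => e.fn i) := ⟨_, rfl⟩
    have hWdim : Module.finrank ℂ W = F.card := by
      have h := finrank_span_eq_card (e.linearIndependent.comp (fun i : F => (i : e.ι))
        Subtype.val_injective)
      rw [Fintype.card_coe] at h
      rw [hW]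
      exact h
    have hfd : FiniteDimensional ℂ W := by
      rw [hW]
      exact FiniteDimensional.span_of_finite ℂ (Set.finite_range _)
    have hmap : Module.finrank ℂ (W.map liftL) = F.card := by
      rw [← hWdim]; exact (LinearEquiv.finrank_eq (Submodule.equivMapOfInjective liftL liftL_injective W)).symm
    have hsm : ∀ w ∈ W, ContDiff ℝ ∞ (lift w) := by
      intro w hw
      rw [hW] at hw
      induction hw using Submodule.span_induction with
      | mem x hx =>
        obtain ⟨i, rfl⟩ := hx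
        exact e.smooth i
      | zero => exact contDiff_const
      | add x y _ _ hx hy => exact hx.add hy
      | smul c x _ hx => exact contDiff_const.smul hx
    have hort : ∀ w ∈ W, ∀ j, j ∉ F → ⟪clc (e.fn j), clc w⟫_ℂ = 0 := by
      intro w hw j hj
      rw [hW] at hw
      induction hw using Submodule.span_induction with
      | mem x hx =>
        obtain ⟨i, rfl⟩ := hx
        exact e.orth.2 fun h => hj (h ▸ i.2)
      | zero => rw [clc_zero, inner_zero_right]
      | add x y _ _ hx hy => rw [clc_add, inner_add_right, hx, hy, add_zero]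
      | smul c x _ hx => rw [clc_smul, inner_smul_right, hx, mul_zero]
    rw [← hmap]
    refine finrank_le_boxes2 ha hb hs hP (W.map liftL) ?_ ?_
    · rintro u ⟨w, hw, rfl⟩
      exact ⟨(hsm w hw).of_le (by exact_mod_cast le_top), lift_periodic w⟩
    · rintro u ⟨w, hw, rfl⟩
      have h1 := EB.hasSum_energy hV e (hsm w hw)
      have h2 := (e.hasSum_norm w).mul_left (s ^ 2)
      refine hasSum_le (fun i => ?_) h1 h2
      by_cases hi : i ∈ F
      · exact mul_le_mul_of_nonneg_right (hF hi) (sq_nonneg _)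
      · rw [hort w hw i hi]
        simp
  have hfin : {i | e.ev i ≤ s ^ 2}.Finite := by
    by_contra hinf
    obtain ⟨F, hF, hc⟩ := Set.Infinite.exists_subset_card_eq hinf
      (((Finset.range P).filter fun j => ¬ Forb a s P j ∧ ¬ Forb b s P j).card + 1)
    have := key F hF
    omega
  refine ⟨hfin, ?_⟩
  rw [Set.ncard_eq_toFinset_card _ hfin]
  exact key _ (by simp)

end MP_d22ea4_an.WD
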