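import Pool.Agent.Lib_MP_d22ea4_wd.W02
import Pool.Agent.Lib_MP_d22ea4_an.Upper

open MeasureTheory Filter Topology Complex
open scoped ContDiff ComplexConjugate InnerProductSpace

noncomputable section

namespace MP_d22ea4_an.WD

attribute [local instance] instMeasureSpaceUnitAddCircle

open Upper

/-- box number `j` of `2h` is near `0` (or `1`), i.e. nearer to `{0, 1}` than to `1/2` -/
def Near0 (h j : ℕ) : Prop := (j < h ∧ 2 * j + 1 ≤ h) ∨ (h ≤ j ∧ 3 * h ≤ 2 * j + 1)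

theorem deriv_af {φ : ℝ → ℝ} (hφ : ContDiff ℝ ∞ φ) (m n : ℤ) (x : ℝ) :
    deriv (af φ m n) x = 2 * Real.pi * (n : ℝ) * deriv φ x := by
  have h1 : HasDerivAt φ (deriv φ x) x :=
    ((hφ.differentiable (by simp)) x).hasDerivAt
  have h2 : HasDerivAt (af φ m n) (2 * Real.pi * ((n : ℝ) * deriv φ x)) x := by
    have h3 := ((h1.const_mul (n : ℝ)).const_add (m : ℝ)).const_mul (2 * Real.pi)
    exact h3
  rw [h2.deriv]
  ring

/-- copy of `nonforb_n`, `nonforb_n'` for a general function `φ` -/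
theorem nonforb_gen {φ : ℝ → ℝ} (hφ : ContDiff ℝ ∞ φ) {q : ℕ} {s : ℝ} (hs : 1 ≤ s) {j : ℕ}
    (hj : j < 2 * hh s)
    (hd : ∀ x ∈ Set.Icc (((4 * j + 1 : ℕ) : ℝ) / (8 * hh s)) (((4 * j + 3 : ℕ) : ℝ) / (8 * hh s)),
      dd x ^ q ≤ |deriv φ x|) {m n : ℤ} (hnf : ¬ Forb (af φ m n) s (2 * hh s) j) :
    |(n : ℝ)| * (gg (hh s) j : ℝ) ^ q ≤ 384 * 24 ^ q * s ^ (q + 2) := by
  by_contra hcon
  rw [not_le] at hcon
  apply hnf
  have hh0 := hh_pos hs
  have h2 := hh_le hs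
  generalize hh s = h at *
  have hh' : (0 : ℝ) < h := Nat.cast_pos.2 hh0
  have hbig : 64 * s * (2 * h) * (8 * h) ^ q < |(n : ℝ)| * (gg h j : ℝ) ^ q := by
    refine lt_of_le_of_lt ?_ hcon
    calc 64 * s * (2 * h) * (8 * h) ^ q ≤ 64 * s * (2 * (3 * s)) * (8 * (3 * s)) ^ q := by gcongr
      _ = 384 * 24 ^ q * s ^ (q + 2) := by
        rw [show 8 * (3 * s) = 24 * s by ring, mul_pow, pow_add]
        ring
  refine forb_of_deriv (κ := 64 * s * (2 * h : ℕ)) (β := ((4 * j + 1 : ℕ) : ℝ) / (8 * h))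
    (γ := ((4 * j + 3 : ℕ) : ℝ) / (8 * h)) ((contDiff_af hφ m n).of_le (by simp)) (by linarith)
    (by omega) ?_ ?_ ?_ ?_ le_rfl
  · push_cast
    rw [div_le_div_iff₀ (by positivity) (by positivity)]
    nlinarith
  · push_cast
    rw [← add_div, div_le_div_iff₀ (by positivity) (by positivity)]
    nlinarith
  · push_cast
    rw [← sub_div, div_le_div_iff₀ (by positivity) (by positivity)]
    nlinarith
  · intro x hx
    have h1 := dd_ge hh0 hj hx.1 hx.2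
    have h3 : ((gg h j : ℝ) / (8 * h)) ^ q ≤ |deriv φ x| :=
      le_trans (pow_le_pow_left₀ (by positivity) h1 _) (hd x hx)
    rw [deriv_af hφ, abs_mul, abs_mul, abs_of_pos (by positivity : (0 : ℝ) < 2 * Real.pi)]
    have h4 : 64 * s * (2 * h : ℕ) ≤ |(n : ℝ)| * ((gg h j : ℝ) / (8 * h)) ^ q := by
      rw [div_pow, ← mul_div_assoc, le_div_iff₀ (by positivity)]
      push_cast
      exact hbig.le
    have h5 : (1 : ℝ) ≤ 2 * Real.pi := by linarith [Real.pi_gt_three]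
    calc 64 * s * (2 * h : ℕ) ≤ |(n : ℝ)| * ((gg h j : ℝ) / (8 * h)) ^ q := h4
      _ ≤ |(n : ℝ)| * |deriv φ x| := by gcongr
      _ ≤ 2 * Real.pi * |(n : ℝ)| * |deriv φ x| := by
        have : 0 ≤ |(n : ℝ)| * |deriv φ x| := by positivity
        nlinarith

/-- the constant -/
def CC : ℝ := 384 * 24 ^ 9

theorem box_mem {h j : ℕ} (hh : 0 < h) (hj : j < 2 * h) {x : ℝ}
    (hx : x ∈ Set.Icc (((4 * j + 1 : ℕ) : ℝ) / (8 * h)) (((4 * j + 3 : ℕ) : ℝ) / (8 * h))) :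
    x ∈ Set.Icc (0 : ℝ) 1 := by
  have hh' : (0 : ℝ) < h := Nat.cast_pos.2 hh
  have hj' : ((4 * j + 3 : ℕ) : ℝ) ≤ 8 * h := by exact_mod_cast (by omega : 4 * j + 3 ≤ 8 * h)
  constructor
  · refine le_trans ?_ hx.1
    positivity
  · refine hx.2.trans ?_
    rw [div_le_one (by positivity)]
    exact hj'

theorem box_far {h j : ℕ} (hh : 0 < h) (h0 : Near0 h j) {x : ℝ}
    (hx : x ∈ Set.Icc (((4 * j + 1 : ℕ) : ℝ) / (8 * h)) (((4 * j + 3 : ℕ) : ℝ) / (8 * h))) :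
    1 / 8 ≤ |x - 1 / 2| := by
  have hh' : (0 : ℝ) < h := Nat.cast_pos.2 hh
  have hh1 : (1 : ℝ) ≤ h := by exact_mod_cast hh
  rcases h0 with ⟨_, h1⟩ | ⟨_, h1⟩
  · have h2 : ((4 * j + 3 : ℕ) : ℝ) / (8 * h) ≤ 3 / 8 := by
      rw [div_le_div_iff₀ (by positivity) (by norm_num)]
      have : (2 * (j : ℝ) + 1) ≤ h := by exact_mod_cast h1
      push_cast
      nlinarith
    refine le_trans ?_ (neg_le_abs _)
    linarith [hx.2]
  · have h2 : 5 / 8 ≤ ((4 * j + 1 : ℕ) : ℝ) / (8 * h) := by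
      rw [div_le_div_iff₀ (by norm_num) (by positivity)]
      have : 3 * (h : ℝ) ≤ 2 * (j : ℝ) + 1 := by exact_mod_cast h1
      push_cast
      nlinarith
    refine le_trans ?_ (le_abs_self _)
    linarith [hx.1]

theorem box_close {h j : ℕ} (hh : 0 < h) (h0 : ¬ Near0 h j) {x : ℝ}
    (hx : x ∈ Set.Icc (((4 * j + 1 : ℕ) : ℝ) / (8 * h)) (((4 * j + 3 : ℕ) : ℝ) / (8 * h))) :
    |x - 1 / 2| ≤ 1 / 4 := by
  have hh' : (0 : ℝ) < h := Nat.cast_pos.2 hh
  unfold Near0 at h0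
  rw [not_or, not_and, not_and] at h0
  obtain ⟨h1, h2⟩ := h0
  rw [abs_le]
  rcases lt_or_ge j h with hlt | hge
  · have h3 : h ≤ 2 * j := by have := h1 hlt; omega
    have c1 : (h : ℝ) ≤ 2 * j := by exact_mod_cast h3
    have c2 : (j : ℝ) + 1 ≤ h := by exact_mod_cast hlt
    have d1 : 1 / 4 ≤ ((4 * j + 1 : ℕ) : ℝ) / (8 * h) := by
      rw [div_le_div_iff₀ (by norm_num) (by positivity)]
      push_cast
      nlinarith
    have d2 : ((4 * j + 3 : ℕ) : ℝ) / (8 * h) ≤ 3 / 4 := by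
      rw [div_le_div_iff₀ (by positivity) (by norm_num)]
      push_cast
      nlinarith
    constructor <;> linarith [hx.1, hx.2]
  · have h3 : 2 * j + 2 ≤ 3 * h := by have := h2 hge; omega
    have c1 : 2 * (j : ℝ) + 2 ≤ 3 * h := by exact_mod_cast h3
    have c2 : (h : ℝ) ≤ j := by exact_mod_cast hge
    have d1 : 1 / 4 ≤ ((4 * j + 1 : ℕ) : ℝ) / (8 * h) := by
      rw [div_le_div_iff₀ (by norm_num) (by positivity)]
      push_cast
      nlinarith
    have d2 : ((4 * j + 3 : ℕ) : ℝ) / (8 * h) ≤ 3 / 4 := by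
      rw [div_le_div_iff₀ (by positivity) (by norm_num)]
      push_cast
      nlinarith
    constructor <;> linarith [hx.1, hx.2]

theorem CC_le {q : ℕ} (hq : q ≤ 9) {s : ℝ} (hs : 1 ≤ s) :
    384 * 24 ^ q * s ^ (q + 2) ≤ CC * s ^ (q + 2) := by
  unfold CC
  have h1 : (24 : ℝ) ^ q ≤ 24 ^ 9 := pow_le_pow_right₀ (by norm_num) hq
  have h2 : (0 : ℝ) ≤ s ^ (q + 2) := by positivity
  nlinarith

theorem box_near0 {s : ℝ} (hs : 1 ≤ s) {j : ℕ} (hj : j < 2 * hh s) (h0 : Near0 (hh s) j)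
    {m n : ℤ} :
    (¬ Forb (af (fk 4) m n) s (2 * hh s) j → |(n : ℝ)| * (gg (hh s) j : ℝ) ^ 7 ≤ CC * s ^ 9) ∧
      (¬ Forb (af gk m n) s (2 * hh s) j → |(n : ℝ)| * (gg (hh s) j : ℝ) ^ 5 ≤ CC * s ^ 7) := by
  have hp := hh_pos hs
  constructor
  · intro hnf
    exact (nonforb_gen (contDiff_fk 4) (q := 7) hs hj
      (fun x hx => f_near0 (box_mem hp hj hx) (box_far hp h0 hx)) hnf).trans
      (CC_le (by norm_num) hs)
  · intro hnf
    exact (nonforb_gen contDiff_gk (q := 5) hs hj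
      (fun x hx => g_near0 (box_mem hp hj hx) (box_far hp h0 hx)) hnf).trans
      (CC_le (by norm_num) hs)

theorem box_near1 {s : ℝ} (hs : 1 ≤ s) {j : ℕ} (hj : j < 2 * hh s) (h0 : ¬ Near0 (hh s) j)
    {m n : ℤ} :
    (¬ Forb (af (fk 4) m n) s (2 * hh s) j → |(n : ℝ)| * (gg (hh s) j : ℝ) ^ 1 ≤ CC * s ^ 3) ∧
      (¬ Forb (af gk m n) s (2 * hh s) j → |(n : ℝ)| * (gg (hh s) j : ℝ) ^ 9 ≤ CC * s ^ 11) := by
  have hp := hh_pos hs
  constructor
  · intro hnf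
    exact (nonforb_gen (contDiff_fk 4) (q := 1) hs hj
      (fun x hx => f_near1 (box_mem hp hj hx) (box_close hp h0 hx)) hnf).trans
      (CC_le (by norm_num) hs)
  · intro hnf
    exact (nonforb_gen contDiff_gk (q := 9) hs hj
      (fun x hx => g_near1 (box_mem hp hj hx) (box_close hp h0 hx)) hnf).trans
      (CC_le (by norm_num) hs)

/-- copy of `card_m` -/
theorem card_m_gen {φ : ℝ → ℝ} (hφ : ContDiff ℝ ∞ φ) {s : ℝ} (hs : 1 ≤ s) (n : ℤ) (j : ℕ)
    (M : Finset ℤ) [DecidablePred fun m => ¬ Forb (af φ m n) s (2 * hh s) j] :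
    ((M.filter fun m => ¬ Forb (af φ m n) s (2 * hh s) j).card : ℝ) ≤ 7 * s := by
  rcases (M.filter fun m => ¬ Forb (af φ m n) s (2 * hh s) j).eq_empty_or_nonempty with h | ⟨m0, h0⟩
  · rw [h]; simp; linarith
  · have h0' := (Finset.mem_filter.1 h0).2
    have := card_int_le (M.filter fun m => ¬ Forb (af φ m n) s (2 * hh s) j) m0 (X := 3 * s)
      (by linarith) (fun m hm => by
        have hm' := (Finset.mem_filter.1 hm).2
        obtain ⟨x, hx1, hx2⟩ := nonforb_close (contDiff_af hφ m n).continuous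
          (contDiff_af hφ m0 n).continuous (P := 2 * hh s) (by have := hh_pos hs; omega) hm' h0'
        unfold af at hx1 hx2
        have h1 := abs_sub (2 * Real.pi * ((m : ℝ) + n * φ x))
          (2 * Real.pi * ((m0 : ℝ) + n * φ x))
        rw [show 2 * Real.pi * ((m : ℝ) + n * φ x) - 2 * Real.pi * ((m0 : ℝ) + n * φ x) =
          2 * Real.pi * (m - m0) by ring, abs_mul,
          abs_of_pos (by positivity : (0 : ℝ) < 2 * Real.pi)] at h1
        have h3 : (6 : ℝ) ≤ 2 * Real.pi := by linarith [Real.pi_gt_three]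
        have := abs_nonneg ((m : ℝ) - m0)
        nlinarith)
    linarith

/-- copy of `nonforb_m` -/
theorem nonforb_m_gen {φ : ℝ → ℝ} (hφ : ContDiff ℝ ∞ φ) {B : ℝ} (h0 : ∀ x, 0 ≤ φ x)
    (hB : ∀ x, φ x ≤ B) {s : ℝ} (hs : 1 ≤ s) {j : ℕ} {m n : ℤ}
    (hnf : ¬ Forb (af φ m n) s (2 * hh s) j) : |(m : ℝ)| ≤ 8 * s + B * |(n : ℝ)| := by
  have hc := (contDiff_af hφ m n).continuous
  obtain ⟨x, hx, -⟩ := nonforb_close hc hc (P := 2 * hh s) (by have := hh_pos hs; omega) hnf hnf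
  unfold af at hx
  rw [abs_mul, abs_of_pos (by positivity : (0 : ℝ) < 2 * Real.pi)] at hx
  have h2 : |(m : ℝ) + n * φ x| ≤ 8 * s := by
    have h5 : (1 : ℝ) ≤ 2 * Real.pi := by linarith [Real.pi_gt_three]
    have := abs_nonneg ((m : ℝ) + n * φ x)
    nlinarith
  have h3 : |(n : ℝ) * φ x| ≤ B * |(n : ℝ)| := by
    rw [abs_mul, abs_of_nonneg (h0 x), mul_comm]
    exact mul_le_mul_of_nonneg_right (hB x) (abs_nonneg _)
  have h4 : |(m : ℝ)| ≤ |(m : ℝ) + n * φ x| + |(n : ℝ) * φ x| := by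
    have := abs_sub ((m : ℝ) + n * φ x) (n * φ x)
    rwa [add_sub_cancel_right] at this
  linarith

end MP_d22ea4_an.WD
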