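import Pool.Agent.Lib_MP_d22ea4_wd.W03
import Pool.Agent.Lib_MP_d22ea4_wd.W04

open MeasureTheory Filter Topology Complex
open scoped ContDiff ComplexConjugate InnerProductSpace

noncomputable section

namespace MP_d22ea4_an.WD

attribute [local instance] instMeasureSpaceUnitAddCircle

open Upper

/-- from `ncard_le2` -/
theorem box_count2 {s : ℝ} (hs : 1 ≤ s) (p : PF)
    [DecidablePred fun j => ¬ Forb (af (fk 4) p.1.1 p.1.2) s (2 * hh s) j ∧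
      ¬ Forb (af gk p.2.1 p.2.2) s (2 * hh s) j] :
    {i | (E2 p).ev i ≤ s ^ 2}.Finite ∧ {i | (E2 p).ev i ≤ s ^ 2}.ncard ≤
      ((Finset.range (2 * hh s)).filter fun j => ¬ Forb (af (fk 4) p.1.1 p.1.2) s (2 * hh s) j ∧
        ¬ Forb (af gk p.2.1 p.2.2) s (2 * hh s) j).card := by
  refine ncard_le2 (a := af (fk 4) p.1.1 p.1.2) (b := af gk p.2.1 p.2.2) (good_V2 p)
    (contDiff_af (contDiff_fk 4) _ _).continuous (contDiff_af contDiff_gk _ _).continuous (E2 p)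
    (by linarith) ?_
  have := hh_ge s
  push_cast
  linarith

theorem exists_box2 {s : ℝ} (hs : 1 ≤ s) (α : S2) (hα : sev α ≤ s ^ 2) :
    ∃ j < 2 * hh s, ¬ Forb (af (fk 4) α.1.1.1 α.1.1.2) s (2 * hh s) j ∧
      ¬ Forb (af gk α.1.2.1 α.1.2.2) s (2 * hh s) j := by
  classical
  obtain ⟨h1, h2⟩ := box_count2 hs α.1
  have h3 : 0 < {i | (E2 α.1).ev i ≤ s ^ 2}.ncard := (Set.ncard_pos h1).2 ⟨α.2, hα⟩
  obtain ⟨j, hj⟩ := Finset.card_pos.1 (h3.trans_le h2)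
  rw [Finset.mem_filter, Finset.mem_range] at hj
  exact ⟨j, hj.1, hj.2⟩

theorem CC_pos : 0 < CC := by unfold CC; positivity

theorem le_of_mul_gg {s : ℝ} {j : ℕ} (hj : j < 2 * hh s) {n : ℤ} {q : ℕ} {B : ℝ}
    (h : |(n : ℝ)| * (gg (hh s) j : ℝ) ^ q ≤ B) : |(n : ℝ)| ≤ B := by
  refine le_trans ?_ h
  have h1 : (1 : ℝ) ≤ (gg (hh s) j : ℝ) ^ q := one_le_pow₀ (by exact_mod_cast gg_pos hj)
  nlinarith [abs_nonneg (n : ℝ)]

/-- a state lives near `x = 1/2`, and then `n₁` is small, or near `x = 0`, and then `n₂, m₂` are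
`O(s^7)` -/
theorem far_or_near : ∃ C : ℝ, 0 < C ∧ ∀ s : ℝ, 1 ≤ s → ∀ α : S2, sev α ≤ s ^ 2 →
    |(α.1.1.2 : ℝ)| ≤ C * s ^ 3 ∨ (|(α.1.2.2 : ℝ)| ≤ C * s ^ 7 ∧ |(α.1.2.1 : ℝ)| ≤ C * s ^ 7) := by
  have hCC := CC_pos
  refine ⟨8 + 128 * CC, by linarith, fun s hs α hα => ?_⟩
  obtain ⟨j, hj, hf, hg⟩ := exists_box2 hs α hα
  by_cases h0 : Near0 (hh s) j
  · right
    have h1 : |(α.1.2.2 : ℝ)| ≤ CC * s ^ 7 := le_of_mul_gg hj ((box_near0 hs hj h0).2 hg)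
    have h2 := nonforb_m_gen contDiff_gk gk_nonneg gk_le' hs hg
    have h3 : s ≤ s ^ 7 := le_self_pow₀ hs (by omega)
    have h4 : 0 < s ^ 7 := by positivity
    constructor <;> nlinarith
  · left
    have h1 : |(α.1.1.2 : ℝ)| ≤ CC * s ^ 3 := le_of_mul_gg hj ((box_near1 hs hj h0).1 hf)
    have h4 : 0 < s ^ 3 := by positivity
    nlinarith

/-- all the frequencies are bounded -/
theorem all_bounded {s : ℝ} (hs : 1 ≤ s) : ∃ R : ℝ, ∀ α : S2, sev α ≤ s ^ 2 →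
    |(α.1.1.1 : ℝ)| ≤ R ∧ |(α.1.1.2 : ℝ)| ≤ R ∧ |(α.1.2.1 : ℝ)| ≤ R ∧ |(α.1.2.2 : ℝ)| ≤ R := by
  have hCC := CC_pos
  refine ⟨8 * s + 128 * (CC * s ^ 11), fun α hα => ?_⟩
  obtain ⟨j, hj, hf, hg⟩ := exists_box2 hs α hα
  have hpow : ∀ q : ℕ, q ≤ 11 → CC * s ^ q ≤ CC * s ^ 11 := fun q hq =>
    mul_le_mul_of_nonneg_left (pow_le_pow_right₀ hs hq) hCC.le
  have hn1 : |(α.1.1.2 : ℝ)| ≤ CC * s ^ 11 := by
    by_cases h0 : Near0 (hh s) j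
    · exact (le_of_mul_gg hj ((box_near0 hs hj h0).1 hf)).trans (hpow 9 (by norm_num))
    · exact (le_of_mul_gg hj ((box_near1 hs hj h0).1 hf)).trans (hpow 3 (by norm_num))
  have hn2 : |(α.1.2.2 : ℝ)| ≤ CC * s ^ 11 := by
    by_cases h0 : Near0 (hh s) j
    · exact (le_of_mul_gg hj ((box_near0 hs hj h0).2 hg)).trans (hpow 7 (by norm_num))
    · exact le_of_mul_gg hj ((box_near1 hs hj h0).2 hg)
  have hm1 := nonforb_m_gen (contDiff_fk 4) (fk_nonneg 4) (fk_le 4) hs hf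
  have hm2 := nonforb_m_gen contDiff_gk gk_nonneg gk_le' hs hg
  have hp : 0 < CC * s ^ 11 := by positivity
  have h16 : (2 : ℝ) ^ 4 = 16 := by norm_num
  rw [h16] at hm1
  refine ⟨by linarith, by linarith, by linarith, by linarith⟩

theorem mem_Icc_of_abs {R : ℝ} {n : ℤ} (hn : |(n : ℝ)| ≤ R) : n ∈ Finset.Icc (-⌊R⌋) ⌊R⌋ := by
  rw [abs_le] at hn
  rw [Finset.mem_Icc]
  constructor
  · have : -n ≤ ⌊R⌋ := Int.le_floor.2 (by push_cast; linarith [hn.1])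
    linarith
  · exact Int.le_floor.2 hn.2

theorem s2_finite (t : ℝ) : {α : S2 | sev α ≤ t}.Finite := by
  classical
  obtain ⟨s, hs, hst⟩ : ∃ s : ℝ, 1 ≤ s ∧ t ≤ s ^ 2 := by
    refine ⟨max 1 t, le_max_left _ _, ?_⟩
    have h1 : 1 ≤ max 1 t := le_max_left _ _
    have h2 : t ≤ max 1 t := le_max_right _ _
    nlinarith
  obtain ⟨R, hR⟩ := all_bounded hs
  have hfin : ∀ p : PF, {i | (E2 p).ev i ≤ s ^ 2}.Finite := fun p => (box_count2 hs p).1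
  set F : Finset ℤ := Finset.Icc (-⌊R⌋) ⌊R⌋ with hF
  refine (Finset.finite_toSet
    (((F ×ˢ F) ×ˢ (F ×ˢ F)).sigma (fun p => (hfin p).toFinset) : Finset S2)).subset ?_
  intro α hα
  have hα' : sev α ≤ s ^ 2 := le_trans hα hst
  obtain ⟨h1, h2, h3, h4⟩ := hR α hα'
  rw [Finset.mem_coe, Finset.mem_sigma, Finset.mem_product, Finset.mem_product,
    Finset.mem_product, Set.Finite.mem_toFinset]
  exact ⟨⟨⟨mem_Icc_of_abs h1, mem_Icc_of_abs h2⟩, mem_Icc_of_abs h3, mem_Icc_of_abs h4⟩, hα'⟩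

theorem nu_finite (t : ℝ) : {q : P1 | nu q ≤ t}.Finite := by
  have h1 := s2_finite t
  have h2 : (Finset.Icc (-⌊max 1 t⌋) ⌊max 1 t⌋ : Set ℤ).Finite := Finset.finite_toSet _
  refine (h1.prod h2).subset ?_
  rintro ⟨α, n⟩ hq
  have hq' : sev α + 4 * Real.pi ^ 2 * (n : ℝ) ^ 2 ≤ t := hq
  have h3 := sev_nonneg α
  have h4 : 0 ≤ 4 * Real.pi ^ 2 * (n : ℝ) ^ 2 := by positivity
  refine Set.mk_mem_prod (show sev α ≤ t by linarith) ?_
  rw [Finset.mem_coe]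
  apply mem_Icc_of_abs
  have h5 : (1 : ℝ) ≤ 4 * Real.pi ^ 2 := by nlinarith [Real.pi_gt_three]
  have h6 : (n : ℝ) ^ 2 ≤ t := by nlinarith [sq_nonneg (n : ℝ)]
  have h7 : t ≤ max 1 t := le_max_right _ _
  have h8 : 1 ≤ max 1 t := le_max_left _ _
  refine abs_le_of_sq_le_sq ?_ (by linarith)
  nlinarith

end MP_d22ea4_an.WD
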