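import Pool.Agent.Lib_MP_d22ea4_wd.W05

open MeasureTheory Filter Topology Complex
open scoped ContDiff ComplexConjugate InnerProductSpace

noncomputable section

namespace MP_d22ea4_an.WD

attribute [local instance] instMeasureSpaceUnitAddCircle

open Upper

/-- the bad indices -/
def Bad (κ s : ℝ) : Set P1 := {q | nu q ≤ s ^ 2 ∧ |(q.1.1.1.2 : ℝ)| ≤ κ ^ 3 * s ^ 8}

theorem bad_finite (κ s : ℝ) : (Bad κ s).Finite := (nu_finite (s ^ 2)).subset fun _ hp => hp.1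

theorem W06_CC_pos : 0 < CC := by
  unfold CC
  norm_num

open Classical in
/-- number of pairs of frequencies for which a box is not forbidden -/
theorem W06_pair {φ : ℝ → ℝ} (hφ : ContDiff ℝ ∞ φ) {s : ℝ} (hs : 1 ≤ s) (j : ℕ)
    (M N : Finset ℤ) {X : ℝ} (hX : 0 ≤ X)
    (h : ∀ m n : ℤ, n ∈ N → ¬ Forb (af φ m n) s (2 * hh s) j → |(n : ℝ)| ≤ X) :
    (((M ×ˢ N).filter fun p => ¬ Forb (af φ p.1 p.2) s (2 * hh s) j).card : ℝ) ≤
      7 * s * (2 * X + 1) := by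
  have h4 : ((M ×ˢ N).filter fun p => ¬ Forb (af φ p.1 p.2) s (2 * hh s) j).card =
      ∑ n ∈ N, (M.filter fun m => ¬ Forb (af φ m n) s (2 * hh s) j).card := by
    simp only [Finset.card_filter]
    rw [Finset.sum_product_right]
  rw [h4]
  push_cast
  have h3 : ∀ n ∈ N, ((M.filter fun m => ¬ Forb (af φ m n) s (2 * hh s) j).card : ℝ) ≤
      if (∃ m ∈ M, ¬ Forb (af φ m n) s (2 * hh s) j) then 7 * s else 0 := by
    intro n _
    split_ifs with h
    · exact card_m_gen hφ hs n j M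
    · rw [Finset.filter_eq_empty_iff.2 (fun m hm hf => h ⟨m, hm, hf⟩)]
      simp
  refine (Finset.sum_le_sum h3).trans ?_
  rw [← Finset.sum_filter, Finset.sum_const, nsmul_eq_mul, mul_comm]
  have h5 : ((N.filter fun n => ∃ m ∈ M, ¬ Forb (af φ m n) s (2 * hh s) j).card : ℝ) ≤
      2 * X + 1 := by
    refine card_int_le _ 0 hX fun n hn => ?_
    obtain ⟨hnN, m, -, hm⟩ := Finset.mem_filter.1 hn
    rw [Int.cast_zero, sub_zero]
    exact h m n hnN hm
  gcongr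

open Classical in
/-- the counting of all states with frequencies in finite sets -/
theorem W06_main {s : ℝ} (hs : 1 ≤ s) (M1 N1 M2 N2 : Finset ℤ) (A : Set S2)
    (hA : ∀ α ∈ A, α.1.1.1 ∈ M1 ∧ α.1.1.2 ∈ N1 ∧ α.1.2.1 ∈ M2 ∧ α.1.2.2 ∈ N2 ∧ sev α ≤ s ^ 2) :
    (A.ncard : ℝ) ≤ ∑ j ∈ Finset.range (2 * hh s),
      (((M1 ×ˢ N1).filter fun p => ¬ Forb (af (fk 4) p.1 p.2) s (2 * hh s) j).card : ℝ) *
      (((M2 ×ˢ N2).filter fun p => ¬ Forb (af gk p.1 p.2) s (2 * hh s) j).card : ℝ) := by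
  have hfin : ∀ p, {i | (E2 p).ev i ≤ s ^ 2}.Finite := fun p => (box_count2 hs p).1
  have hsub : A ⊆ (((M1 ×ˢ N1) ×ˢ (M2 ×ˢ N2)).sigma (fun p => (hfin p).toFinset) :
      Finset S2) := by
    intro α hα
    obtain ⟨h1, h2, h3, h4, h5⟩ := hA α hα
    rw [Finset.mem_coe, Finset.mem_sigma, Finset.mem_product, Finset.mem_product,
      Finset.mem_product, Set.Finite.mem_toFinset]
    exact ⟨⟨⟨h1, h2⟩, h3, h4⟩, h5⟩
  have h1 := Set.ncard_le_ncard hsub (Finset.finite_toSet _)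
  rw [Set.ncard_coe_finset, Finset.card_sigma] at h1
  have h2 : ∀ p ∈ (M1 ×ˢ N1) ×ˢ (M2 ×ˢ N2), ((hfin p).toFinset).card ≤
      ((Finset.range (2 * hh s)).filter fun j => ¬ Forb (af (fk 4) p.1.1 p.1.2) s (2 * hh s) j ∧
        ¬ Forb (af gk p.2.1 p.2.2) s (2 * hh s) j).card := by
    intro p _
    rw [← Set.ncard_eq_toFinset_card _ (hfin p)]
    exact (box_count2 hs p).2
  have h3 := h1.trans (Finset.sum_le_sum h2)
  have h4 : ∑ p ∈ (M1 ×ˢ N1) ×ˢ (M2 ×ˢ N2),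
      ((Finset.range (2 * hh s)).filter fun j => ¬ Forb (af (fk 4) p.1.1 p.1.2) s (2 * hh s) j ∧
        ¬ Forb (af gk p.2.1 p.2.2) s (2 * hh s) j).card =
      ∑ j ∈ Finset.range (2 * hh s),
      ((M1 ×ˢ N1).filter fun p => ¬ Forb (af (fk 4) p.1 p.2) s (2 * hh s) j).card *
      ((M2 ×ˢ N2).filter fun p => ¬ Forb (af gk p.1 p.2) s (2 * hh s) j).card := by
    simp only [Finset.card_filter]
    rw [Finset.sum_comm]
    refine Finset.sum_congr rfl fun j _ => ?_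
    rw [Finset.sum_product, Finset.sum_mul_sum]
    refine Finset.sum_congr rfl fun p _ => Finset.sum_congr rfl fun q _ => ?_
    by_cases a : Forb (af (fk 4) p.1 p.2) s (2 * hh s) j <;>
      by_cases b : Forb (af gk q.1 q.2) s (2 * hh s) j <;> simp [a, b]
  rw [h4] at h3
  exact_mod_cast h3

open Classical in
/-- the number of states with `|n₁| ≤ R` (compare `main_count`, `st_n`, `st_up`) -/
theorem s2_bad : ∃ C : ℝ, 0 ≤ C ∧ ∀ s : ℝ, 1 ≤ s → ∀ R : ℝ, 1 ≤ R →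
    ({α : S2 | sev α ≤ s ^ 2 ∧ |(α.1.1.2 : ℝ)| ≤ R}.ncard : ℝ) ≤
      C * (R * s ^ 7 + s ^ 14) * s ^ 2 := by
  have hC := W06_CC_pos
  refine ⟨147 * (16 * CC + 6) + 49 * (2 * CC + 1) * (16 * CC + 6), by positivity,
    fun s hs R hR => ?_⟩
  have hs0 : 0 < s := by linarith
  have hfin := s2_finite (s ^ 2)
  set T : Finset S2 := hfin.toFinset with hT
  set M1 := T.image fun α => α.1.1.1 with hM1
  set N1 := (T.image fun α => α.1.1.2).filter fun n : ℤ => |(n : ℝ)| ≤ R with hN1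
  set M2 := T.image fun α => α.1.2.1 with hM2
  set N2 := T.image fun α => α.1.2.2 with hN2
  have h1 := W06_main hs M1 N1 M2 N2 {α : S2 | sev α ≤ s ^ 2 ∧ |(α.1.1.2 : ℝ)| ≤ R} (by
    intro α hα
    have hmem : α ∈ T := by rw [hT, Set.Finite.mem_toFinset]; exact hα.1
    refine ⟨Finset.mem_image_of_mem _ hmem, ?_, Finset.mem_image_of_mem _ hmem,
      Finset.mem_image_of_mem _ hmem, hα.1⟩
    exact Finset.mem_filter.2 ⟨Finset.mem_image_of_mem (fun α : S2 => α.1.1.2) hmem, hα.2⟩)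
  refine h1.trans ?_
  have h2 : ∀ j ∈ Finset.range (2 * hh s),
      (((M1 ×ˢ N1).filter fun p => ¬ Forb (af (fk 4) p.1 p.2) s (2 * hh s) j).card : ℝ) *
      (((M2 ×ˢ N2).filter fun p => ¬ Forb (af gk p.1 p.2) s (2 * hh s) j).card : ℝ) ≤
      147 * R * s ^ 2 * (2 * (CC * s ^ 7) * (1 / (gg (hh s) j : ℝ) ^ 5) + 1) +
      49 * (2 * CC + 1) * s ^ 5 * (2 * (CC * s ^ 11) * (1 / (gg (hh s) j : ℝ) ^ 9) + 1) := by
    intro j hj
    rw [Finset.mem_range] at hj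
    have hg0 : (1 : ℝ) ≤ gg (hh s) j := by exact_mod_cast gg_pos hj
    have hg : (0 : ℝ) < gg (hh s) j := by linarith
    have hA : 0 ≤ 147 * R * s ^ 2 * (2 * (CC * s ^ 7) * (1 / (gg (hh s) j : ℝ) ^ 5) + 1) := by
      positivity
    have hB : 0 ≤ 49 * (2 * CC + 1) * s ^ 5 *
        (2 * (CC * s ^ 11) * (1 / (gg (hh s) j : ℝ) ^ 9) + 1) := by positivity
    by_cases h0 : Near0 (hh s) j
    · have a1 := W06_pair (contDiff_fk 4) hs j M1 N1 (X := R) (by linarith) (by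
        intro m n hn _
        exact (Finset.mem_filter.1 hn).2)
      have b1 := W06_pair contDiff_gk hs j M2 N2 (X := CC * s ^ 7 / (gg (hh s) j : ℝ) ^ 5)
        (by positivity) (by
        intro m n _ hf
        rw [le_div_iff₀ (by positivity)]
        exact (box_near0 hs hj h0).2 hf)
      calc _ ≤ (7 * s * (2 * R + 1)) * (7 * s * (2 * (CC * s ^ 7 / (gg (hh s) j : ℝ) ^ 5) + 1)) :=
            mul_le_mul a1 b1 (by positivity) (by positivity)
        _ ≤ (7 * s * (3 * R)) * (7 * s * (2 * (CC * s ^ 7 / (gg (hh s) j : ℝ) ^ 5) + 1)) := by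
            gcongr
            linarith
        _ = 147 * R * s ^ 2 * (2 * (CC * s ^ 7) * (1 / (gg (hh s) j : ℝ) ^ 5) + 1) := by ring
        _ ≤ _ := by linarith
    · have a1 := W06_pair (contDiff_fk 4) hs j M1 N1 (X := CC * s ^ 3) (by positivity) (by
        intro m n _ hf
        have := (box_near1 hs hj h0).1 hf
        rw [pow_one] at this
        refine le_trans ?_ this
        have := abs_nonneg (n : ℝ)
        nlinarith)
      have b1 := W06_pair contDiff_gk hs j M2 N2 (X := CC * s ^ 11 / (gg (hh s) j : ℝ) ^ 9)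
        (by positivity) (by
        intro m n _ hf
        rw [le_div_iff₀ (by positivity)]
        exact (box_near1 hs hj h0).2 hf)
      have hs3 : (1 : ℝ) ≤ s ^ 3 := one_le_pow₀ hs
      calc _ ≤ (7 * s * (2 * (CC * s ^ 3) + 1)) *
              (7 * s * (2 * (CC * s ^ 11 / (gg (hh s) j : ℝ) ^ 9) + 1)) :=
            mul_le_mul a1 b1 (by positivity) (by positivity)
        _ ≤ (7 * s * ((2 * CC + 1) * s ^ 3)) *
              (7 * s * (2 * (CC * s ^ 11 / (gg (hh s) j : ℝ) ^ 9) + 1)) := by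
            gcongr
            linarith
        _ = 49 * (2 * CC + 1) * s ^ 5 *
              (2 * (CC * s ^ 11) * (1 / (gg (hh s) j : ℝ) ^ 9) + 1) := by ring
        _ ≤ _ := by linarith
  refine (Finset.sum_le_sum h2).trans ?_
  rw [Finset.sum_add_distrib, ← Finset.mul_sum, ← Finset.mul_sum, Finset.sum_add_distrib,
    Finset.sum_add_distrib, ← Finset.mul_sum, ← Finset.mul_sum]
  have g5 := sum_gg_le (hh s) (q := 5) (by norm_num)
  have g9 := sum_gg_le (hh s) (q := 9) (by norm_num)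
  have h6 : ∑ j ∈ Finset.range (2 * hh s), (1 : ℝ) ≤ 6 * s := by
    have := hh_le hs
    simp
    linarith
  have hs7 : s ≤ s ^ 7 := le_self_pow₀ hs (by norm_num)
  have hs11 : s ≤ s ^ 11 := le_self_pow₀ hs (by norm_num)
  calc 147 * R * s ^ 2 * (2 * (CC * s ^ 7) *
        ∑ j ∈ Finset.range (2 * hh s), 1 / (gg (hh s) j : ℝ) ^ 5 +
        ∑ j ∈ Finset.range (2 * hh s), (1 : ℝ)) +
      49 * (2 * CC + 1) * s ^ 5 * (2 * (CC * s ^ 11) *
        ∑ j ∈ Finset.range (2 * hh s), 1 / (gg (hh s) j : ℝ) ^ 9 +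
        ∑ j ∈ Finset.range (2 * hh s), (1 : ℝ))
      ≤ 147 * R * s ^ 2 * (2 * (CC * s ^ 7) * 8 + 6 * s ^ 7) +
      49 * (2 * CC + 1) * s ^ 5 * (2 * (CC * s ^ 11) * 8 + 6 * s ^ 11) := by
        gcongr
        · linarith
        · linarith
    _ = 147 * (16 * CC + 6) * (R * s ^ 7) * s ^ 2 +
        49 * (2 * CC + 1) * (16 * CC + 6) * s ^ 14 * s ^ 2 := by ring
    _ ≤ (147 * (16 * CC + 6) + 49 * (2 * CC + 1) * (16 * CC + 6)) * (R * s ^ 7 + s ^ 14) *
          s ^ 2 := by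
        have e1 : 0 ≤ 147 * (16 * CC + 6) * s ^ 14 * s ^ 2 := by positivity
        have e2 : 0 ≤ 49 * (2 * CC + 1) * (16 * CC + 6) * (R * s ^ 7) * s ^ 2 := by positivity
        nlinarith

theorem bad_upper (κ : ℝ) (hκ : 1 ≤ κ) :
    ∃ C, ∀ s : ℝ, 1 ≤ s → ((Bad κ s).ncard : ℝ) ≤ C * s ^ 18 := by
  classical
  obtain ⟨C, hC, hb⟩ := s2_bad
  refine ⟨C * (2 * κ ^ 3) * 3, fun s hs => ?_⟩
  have hs0 : 0 < s := by linarith
  have hk3 : (1 : ℝ) ≤ κ ^ 3 := one_le_pow₀ hκ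
  have hs8 : (1 : ℝ) ≤ s ^ 8 := one_le_pow₀ hs
  have hR : (1 : ℝ) ≤ κ ^ 3 * s ^ 8 := by nlinarith
  have h1 := hb s hs _ hR
  set A : Set S2 := {α : S2 | sev α ≤ s ^ 2 ∧ |(α.1.1.2 : ℝ)| ≤ κ ^ 3 * s ^ 8} with hA
  have hAf : A.Finite := (s2_finite (s ^ 2)).subset fun _ h => h.1
  set L : Finset ℤ := Finset.Icc (-⌊s⌋) ⌊s⌋ with hL
  have hsub : Bad κ s ⊆ ((hAf.toFinset ×ˢ L : Finset P1) : Set P1) := by
    intro q hq
    have hq1 : nu q ≤ s ^ 2 := hq.1
    unfold nu at hq1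
    have hp : 0 ≤ 4 * Real.pi ^ 2 * (q.2 : ℝ) ^ 2 := by positivity
    have hse := sev_nonneg q.1
    rw [Finset.mem_coe, Finset.mem_product, Set.Finite.mem_toFinset]
    refine ⟨⟨by linarith, hq.2⟩, ?_⟩
    have h5 : (1 : ℝ) ≤ 4 * Real.pi ^ 2 := by nlinarith [Real.pi_gt_three]
    have h6 : (q.2 : ℝ) ^ 2 ≤ s ^ 2 := by nlinarith [sq_nonneg (q.2 : ℝ)]
    have h7 : |(q.2 : ℝ)| ≤ s := abs_le_of_sq_le_sq h6 hs0.le
    rw [abs_le] at h7
    rw [hL, Finset.mem_Icc]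
    constructor
    · have : -q.2 ≤ ⌊s⌋ := Int.le_floor.2 (by push_cast; linarith [h7.1])
      linarith
    · exact Int.le_floor.2 h7.2
  have h2 := Set.ncard_le_ncard hsub (Finset.finite_toSet _)
  rw [Set.ncard_coe_finset, Finset.card_product, ← Set.ncard_eq_toFinset_card A hAf] at h2
  have h3 : (L.card : ℝ) ≤ 3 * s := by
    have := card_int_le L 0 hs0.le (fun n hn => by
      rw [hL, Finset.mem_Icc] at hn
      rw [Int.cast_zero, sub_zero, abs_le]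
      have hf := Int.floor_le s
      have a1 : (n : ℝ) ≤ ⌊s⌋ := by exact_mod_cast hn.2
      have a2 : ((-⌊s⌋ : ℤ) : ℝ) ≤ n := by exact_mod_cast hn.1
      push_cast at a2
      constructor <;> linarith)
    linarith
  have h4 : ((Bad κ s).ncard : ℝ) ≤ (A.ncard : ℝ) * L.card := by exact_mod_cast h2
  have h14 : s ^ 14 ≤ κ ^ 3 * s ^ 15 := by
    have : s ^ 14 ≤ s ^ 15 := pow_le_pow_right₀ hs (by norm_num)
    have h15 : 0 ≤ s ^ 15 := by positivity
    nlinarith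
  calc ((Bad κ s).ncard : ℝ) ≤ (A.ncard : ℝ) * L.card := h4
    _ ≤ (C * (κ ^ 3 * s ^ 8 * s ^ 7 + s ^ 14) * s ^ 2) * (3 * s) := by
        gcongr
    _ ≤ (C * (κ ^ 3 * s ^ 15 + κ ^ 3 * s ^ 15) * s ^ 2) * (3 * s) := by
        have e : κ ^ 3 * s ^ 8 * s ^ 7 = κ ^ 3 * s ^ 15 := by ring
        rw [e]
        gcongr
    _ = C * (2 * κ ^ 3) * 3 * s ^ 18 := by ring

end MP_d22ea4_an.WD
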