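import Pool.Agent.Lib_MP_d22ea4_wd.W05
import Pool.Agent.Lib_MP_d22ea4_an.Lower

open MeasureTheory Filter Topology Complex
open scoped ContDiff ComplexConjugate InnerProductSpace

noncomputable section

namespace MP_d22ea4_an.WD

attribute [local instance] instMeasureSpaceUnitAddCircle

theorem af_sq_le {φ : ℝ → ℝ} {x s : ℝ} {m n : ℤ} (hφ : 0 ≤ φ x)
    (hm : |(m : ℝ)| ≤ s / (8 * Real.pi)) (hn : |(n : ℝ)| * φ x ≤ s / (8 * Real.pi)) :
    (af φ m n x) ^ 2 ≤ s ^ 2 / 4 := by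
  have hπ := Real.pi_pos
  have ha : |af φ m n x| ≤ s / 2 := by
    unfold af
    rw [abs_mul, abs_of_pos (by positivity : 0 < 2 * Real.pi)]
    have h3 : |(m : ℝ) + n * φ x| ≤ s / (8 * Real.pi) + s / (8 * Real.pi) := by
      refine (abs_add_le _ _).trans (add_le_add hm ?_)
      rw [abs_mul, abs_of_nonneg hφ]
      exact hn
    calc 2 * Real.pi * |(m : ℝ) + n * φ x| ≤
        2 * Real.pi * (s / (8 * Real.pi) + s / (8 * Real.pi)) := by gcongr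
      _ = s / 2 := by field_simp; ring
  calc (af φ m n x) ^ 2 = |af φ m n x| ^ 2 := (sq_abs _).symm
    _ ≤ (s / 2) ^ 2 := by gcongr
    _ = s ^ 2 / 4 := by ring

/-- copy of `exists_state` (`u = trialC Λ`, `Λ = A s²`) -/
theorem exists_state2 : ∃ c : ℝ, 0 < c ∧ ∀ s : ℝ, 1 ≤ s → ∀ m1 n1 m2 n2 : ℤ,
    |(m1 : ℝ)| ≤ c * s → |(n1 : ℝ)| ≤ c * s ^ 9 → |(m2 : ℝ)| ≤ c * s → |(n2 : ℝ)| ≤ c * s ^ 7 →
      ∃ i, (E2 ((m1, n1), (m2, n2))).ev i ≤ s ^ 2 := by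
  have hπ := Real.pi_pos
  obtain ⟨K, hK0, hK⟩ := exists_deriv_chiL
  set A : ℝ := 1 / (24 * Real.pi ^ 4 * K ^ 2) with hA
  have hA0 : 0 < A := by positivity
  set c : ℝ := min (1 / (8 * Real.pi))
    (min ((A / 2) ^ 4 / (8 * Real.pi)) ((A / 2) ^ 3 / (560 * (8 * Real.pi)))) with hc
  have hc0 : 0 < c := by positivity
  have hc1 : c ≤ 1 / (8 * Real.pi) := min_le_left _ _
  have hc2 : c ≤ (A / 2) ^ 4 / (8 * Real.pi) := (min_le_right _ _).trans (min_le_left _ _)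
  have hc3 : c ≤ (A / 2) ^ 3 / (560 * (8 * Real.pi)) := (min_le_right _ _).trans (min_le_right _ _)
  refine ⟨c, hc0, fun s hs m1 n1 m2 n2 hm1 hn1 hm2 hn2 => ?_⟩
  have hs0 : 0 < s := by linarith
  set Λ : ℝ := A * s ^ 2 with hΛ
  have hΛ0 : 0 < Λ := by positivity
  have hest := trialR_estimate hK0 hK hΛ0
  have hcoef : 12 * Real.pi ^ 4 * K ^ 2 * Λ = s ^ 2 / 2 := by
    rw [hΛ, hA]; field_simp; norm_num
  rw [hcoef] at hest
  have hcont2 : Continuous (trialR Λ) := (trialR_smooth Λ).continuous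
  have hcont : Continuous (deriv (trialR Λ)) := (trialR_smooth Λ).continuous_deriv (by simp)
  -- the potential on the support
  have hpot : ∀ x, V2 ((m1, n1), (m2, n2)) x * (trialR Λ x) ^ 2 ≤
      s ^ 2 / 2 * (trialR Λ x) ^ 2 := by
    intro x
    by_cases h2 : 2 ≤ Λ * (1 - Real.cos (2 * Real.pi * x))
    · have : trialR Λ x = 0 := chiL_zero h2
      rw [this]; simp
    · refine mul_le_mul_of_nonneg_right ?_ (sq_nonneg _)
      have hg0 : 0 ≤ 1 - Real.cos (2 * Real.pi * x) := by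
        linarith [Real.cos_le_one (2 * Real.pi * x)]
      have hg : 1 - Real.cos (2 * Real.pi * x) ≤ 2 / A / s ^ 2 := by
        rw [div_div, le_div_iff₀ (by positivity)]
        calc _ = Λ * (1 - Real.cos (2 * Real.pi * x)) := by rw [hΛ]; ring
          _ ≤ 2 := (not_le.mp h2).le
      have hfk0 : 0 ≤ fk 4 x := by unfold fk; positivity
      have hfk : fk 4 x ≤ (2 / A) ^ 4 / s ^ 8 := by
        unfold fk
        calc (1 - Real.cos (2 * Real.pi * x)) ^ 4 ≤ (2 / A / s ^ 2) ^ 4 := by gcongr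
          _ = (2 / A) ^ 4 / s ^ 8 := by rw [div_pow (2 / A), ← pow_mul]
      have hgk0 : 0 ≤ gk x := gk_nonneg x
      have hgk : gk x ≤ 560 * ((2 / A) ^ 3 / s ^ 6) := by
        calc gk x ≤ 560 * (1 - Real.cos (2 * Real.pi * x)) ^ 3 := gk_le x
          _ ≤ 560 * (2 / A / s ^ 2) ^ 3 := by gcongr
          _ = 560 * ((2 / A) ^ 3 / s ^ 6) := by rw [div_pow (2 / A), ← pow_mul]
      have hm : ∀ m : ℤ, |(m : ℝ)| ≤ c * s → |(m : ℝ)| ≤ s / (8 * Real.pi) := fun m h => by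
        calc |(m : ℝ)| ≤ c * s := h
          _ ≤ 1 / (8 * Real.pi) * s := by gcongr
          _ = s / (8 * Real.pi) := by ring
      have e1 : |(n1 : ℝ)| * fk 4 x ≤ s / (8 * Real.pi) := by
        calc |(n1 : ℝ)| * fk 4 x ≤ (c * s ^ 9) * ((2 / A) ^ 4 / s ^ 8) := by gcongr
          _ ≤ ((A / 2) ^ 4 / (8 * Real.pi) * s ^ 9) * ((2 / A) ^ 4 / s ^ 8) := by gcongr
          _ = s / (8 * Real.pi) := by field_simp
      have e2 : |(n2 : ℝ)| * gk x ≤ s / (8 * Real.pi) := by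
        calc |(n2 : ℝ)| * gk x ≤ (c * s ^ 7) * (560 * ((2 / A) ^ 3 / s ^ 6)) := by gcongr
          _ ≤ ((A / 2) ^ 3 / (560 * (8 * Real.pi)) * s ^ 7) * (560 * ((2 / A) ^ 3 / s ^ 6)) := by
              gcongr
          _ = s / (8 * Real.pi) := by field_simp
      have b1 := af_sq_le hfk0 (hm m1 hm1) e1
      have b2 := af_sq_le hgk0 (hm m2 hm2) e2
      unfold V2
      linarith
  refine (E2 ((m1, n1), (m2, n2))).exists_le (good_V2 _) (u := trialC Λ) ?_ (trialC_ne_zero Λ) ?_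
  · rw [lift_trialC]
    exact ofRealCLM.contDiff.comp (trialR_smooth Λ)
  · have hd : ∀ x, ‖deriv (lift (trialC Λ)) x‖ ^ 2 = (deriv (trialR Λ) x) ^ 2 := by
      intro x
      rw [lift_trialC]
      have h1 : HasDerivAt (trialR Λ) (deriv (trialR Λ) x) x :=
        ((trialR_smooth Λ).differentiable (by simp) x).hasDerivAt
      rw [h1.ofReal_comp.deriv, Complex.norm_real, Real.norm_eq_abs, sq_abs]
    have hl : ∀ x, ‖lift (trialC Λ) x‖ ^ 2 = (trialR Λ x) ^ 2 := by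
      intro x
      rw [lift_trialC, Complex.norm_real, Real.norm_eq_abs, sq_abs]
    simp only [hd, hl]
    have hi1 : IntervalIntegrable (fun x => (deriv (trialR Λ) x) ^ 2) volume 0 1 :=
      (hcont.pow 2).continuousOn.intervalIntegrable
    have hi3 : IntervalIntegrable (fun x => (trialR Λ x) ^ 2) volume 0 1 :=
      (hcont2.pow 2).continuousOn.intervalIntegrable
    have hi2 : IntervalIntegrable
        (fun x => V2 ((m1, n1), (m2, n2)) x * (trialR Λ x) ^ 2) volume 0 1 :=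
      ((good_V2 _).smooth.continuous.mul (hcont2.pow 2)).continuousOn.intervalIntegrable
    rw [intervalIntegral.integral_add hi1 hi2]
    have h5 : ∫ x in (0:ℝ)..1, V2 ((m1, n1), (m2, n2)) x * (trialR Λ x) ^ 2 ≤
        s ^ 2 / 2 * ∫ x in (0:ℝ)..1, (trialR Λ x) ^ 2 := by
      rw [← intervalIntegral.integral_const_mul]
      exact intervalIntegral.integral_mono_on zero_le_one hi2 (hi3.const_mul _) fun x _ => hpot x
    linarith

/-- number of indices -/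
def NN (t : ℝ) : ℕ := {q : P1 | nu q ≤ t}.ncard

/-- copy of `st_lo`, `NN_lower` -/
theorem NN_lower : ∃ c > 0, ∀ s : ℝ, 2 ≤ s → c * s ^ 19 ≤ (NN (s ^ 2) : ℝ) := by
  obtain ⟨c, hc0, hc⟩ := exists_state2
  have hπ := Real.pi_pos
  refine ⟨c ^ 4 * (1 / (2 * Real.pi)) / 2 ^ 19, by positivity, fun s' hs' => ?_⟩
  set s : ℝ := s' / 2 with hs'2
  have hss : s' = 2 * s := by rw [hs'2]; ring
  have hs : 1 ≤ s := by rw [hs'2]; linarith
  have hs0 : 0 < s := by linarith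
  set N₁ : ℕ := ⌊c * s⌋₊ with hN₁
  set N₂ : ℕ := ⌊c * s ^ 9⌋₊ with hN₂
  set N₃ : ℕ := ⌊c * s ^ 7⌋₊ with hN₃
  set N₄ : ℕ := ⌊1 / (2 * Real.pi) * s⌋₊ with hN₄
  have hl₁ : (N₁ : ℝ) ≤ c * s := Nat.floor_le (by positivity)
  have hl₂ : (N₂ : ℝ) ≤ c * s ^ 9 := Nat.floor_le (by positivity)
  have hl₃ : (N₃ : ℝ) ≤ c * s ^ 7 := Nat.floor_le (by positivity)
  have hl₄ : (N₄ : ℝ) ≤ 1 / (2 * Real.pi) * s := Nat.floor_le (by positivity)
  have hu₁ : c * s < N₁ + 1 := Nat.lt_floor_add_one _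
  have hu₂ : c * s ^ 9 < N₂ + 1 := Nat.lt_floor_add_one _
  have hu₃ : c * s ^ 7 < N₃ + 1 := Nat.lt_floor_add_one _
  have hu₄ : 1 / (2 * Real.pi) * s < N₄ + 1 := Nat.lt_floor_add_one _
  set P : Finset PF := (Finset.Icc (0 : ℤ) N₁ ×ˢ Finset.Icc (0 : ℤ) N₂) ×ˢ
    (Finset.Icc (0 : ℤ) N₁ ×ˢ Finset.Icc (0 : ℤ) N₃) with hP
  set Q : Finset ℤ := Finset.Icc (0 : ℤ) N₄ with hQ
  have hIcc : ∀ N : ℕ, (Finset.Icc (0 : ℤ) N).card = N + 1 := fun N => by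
    rw [Int.card_Icc]; congr 1
  have hPcard : P.card = ((N₁ + 1) * (N₂ + 1)) * ((N₁ + 1) * (N₃ + 1)) := by
    rw [hP, Finset.card_product, Finset.card_product, Finset.card_product, hIcc, hIcc, hIcc]
  have hQcard : Q.card = N₄ + 1 := hIcc _
  have habs : ∀ (m : ℤ) (N : ℕ) (B : ℝ), 0 ≤ m → m ≤ N → (N : ℝ) ≤ B → |(m : ℝ)| ≤ B := by
    intro m N B h1 h2 h3
    have h5 : (0 : ℝ) ≤ m := by exact_mod_cast h1
    rw [abs_of_nonneg h5]
    exact le_trans (by exact_mod_cast h2) h3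
  have hex : ∀ p : PF, p ∈ P → ∃ i, (E2 p).ev i ≤ s ^ 2 := by
    rintro ⟨⟨m1, n1⟩, ⟨m2, n2⟩⟩ hp
    rw [hP, Finset.mem_product, Finset.mem_product, Finset.mem_product, Finset.mem_Icc,
      Finset.mem_Icc, Finset.mem_Icc, Finset.mem_Icc] at hp
    obtain ⟨⟨⟨h1, h2⟩, h3, h4⟩, ⟨h5, h6⟩, h7, h8⟩ := hp
    simp only at h1 h2 h3 h4 h5 h6 h7 h8
    exact hc s hs m1 n1 m2 n2 (habs _ _ _ h1 h2 hl₁) (habs _ _ _ h3 h4 hl₂)
      (habs _ _ _ h5 h6 hl₁) (habs _ _ _ h7 h8 hl₃)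
  classical
  choose i hi using hex
  have hcard : P.card * Q.card ≤ NN (s' ^ 2) := by
    have h1 : ((fun p : {p // p ∈ P} × {z // z ∈ Q} =>
        ((⟨p.1.1, i p.1.1 p.1.2⟩ : S2), p.2.1)) '' Set.univ) ⊆ {q : P1 | nu q ≤ s' ^ 2} := by
      rintro _ ⟨⟨p, z⟩, -, rfl⟩
      have e1 : (E2 p.1).ev (i p.1 p.2) ≤ s ^ 2 := hi p.1 p.2
      have hz : 0 ≤ z.1 ∧ z.1 ≤ (N₄ : ℤ) := Finset.mem_Icc.mp z.2
      have e2 : |((z.1 : ℤ) : ℝ)| ≤ 1 / (2 * Real.pi) * s := habs _ _ _ hz.1 hz.2 hl₄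
      have e3 : 4 * Real.pi ^ 2 * ((z.1 : ℤ) : ℝ) ^ 2 ≤ s ^ 2 := by
        calc 4 * Real.pi ^ 2 * ((z.1 : ℤ) : ℝ) ^ 2
            = 4 * Real.pi ^ 2 * |((z.1 : ℤ) : ℝ)| ^ 2 := by rw [sq_abs]
          _ ≤ 4 * Real.pi ^ 2 * (1 / (2 * Real.pi) * s) ^ 2 := by gcongr
          _ = s ^ 2 := by field_simp; ring
      show (E2 p.1).ev (i p.1 p.2) + 4 * Real.pi ^ 2 * ((z.1 : ℤ) : ℝ) ^ 2 ≤ s' ^ 2
      rw [hss]
      nlinarith [sq_nonneg s]
    have h2 := Set.ncard_le_ncard h1 (nu_finite (s' ^ 2))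
    rw [Set.ncard_image_of_injective] at h2
    · rw [Set.ncard_univ, Nat.card_eq_fintype_card, Fintype.card_prod, Fintype.card_coe,
        Fintype.card_coe] at h2
      exact h2
    · rintro ⟨p, z⟩ ⟨p', z'⟩ hpq
      have e1 := congrArg (fun q : P1 => q.1.1) hpq
      have e2 := congrArg (fun q : P1 => q.2) hpq
      exact Prod.ext (Subtype.ext e1) (Subtype.ext e2)
  have h3 : ((P.card * Q.card : ℕ) : ℝ) =
      ((N₁ + 1) * (N₂ + 1)) * ((N₁ + 1) * (N₃ + 1)) * (N₄ + 1) := by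
    rw [hPcard, hQcard]; push_cast; ring
  calc c ^ 4 * (1 / (2 * Real.pi)) / 2 ^ 19 * s' ^ 19
      = ((c * s) * (c * s ^ 9)) * ((c * s) * (c * s ^ 7)) * (1 / (2 * Real.pi) * s) := by
        rw [hss]; ring
    _ ≤ (((N₁ : ℝ) + 1) * (N₂ + 1)) * ((N₁ + 1) * (N₃ + 1)) * (N₄ + 1) := by gcongr
    _ = ((P.card * Q.card : ℕ) : ℝ) := h3.symm
    _ ≤ _ := by exact_mod_cast hcard

end MP_d22ea4_an.WD
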