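import Pool.Agent.Lib_MP_d22ea4_wd.W02
import Pool.Agent.Lib_MP_d22ea4_an.Prod

open MeasureTheory Filter Topology Complex
open scoped ContDiff ComplexConjugate InnerProductSpace

noncomputable section

namespace MP_d22ea4_an.WD

attribute [local instance] instMeasureSpaceUnitAddCircle

open PieceP

namespace W08

/-- multiplication by `i a` for a smooth periodic function `φ` -/
theorem exists_mulF {φ : ℝ → ℝ} (hφ : ContDiff ℝ ∞ φ) (pφ : Function.Periodic φ 1) (m n : ℤ)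
    {u : C(UnitAddCircle, ℂ)} (hu : ContDiff ℝ ∞ (lift u)) :
    ∃ g : C(UnitAddCircle, ℂ), ContDiff ℝ ∞ (lift g) ∧
      ∀ x, lift g x = I * (af φ m n x : ℂ) * lift u x := by
  have h1 : ContDiff ℝ ∞ (fun x => I * (af φ m n x : ℂ) * lift u x) :=
    (contDiff_const.mul (Complex.ofRealCLM.contDiff.comp (contDiff_af hφ m n))).mul hu
  obtain ⟨g, hg⟩ := exists_desc1 _ h1.continuous (by
    intro x
    simp only
    rw [af_periodic pφ m n x, lift_periodic u x])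
  exact ⟨g, by rw [show lift g = _ from funext hg]; exact h1, hg⟩

theorem lift_fourier (l : ℤ) : lift (fourier l) = e l := by
  funext x
  simp only [lift]
  rw [fourier_coe_apply, e]
  simp

theorem smooth_fourier (l : ℤ) : ContDiff ℝ ∞ (lift (fourier l)) := by
  rw [lift_fourier]
  exact contDiff_e l

theorem deriv_e (l : ℤ) (x : ℝ) : deriv (e l) x = 2 * Real.pi * I * l * e l x := by
  have h1 := hasDerivAt_e l x 1
  have h4 : HasDerivAt (fun s : ℝ => s - x) 1 x := (hasDerivAt_id x).sub_const x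
  have h5 : HasDerivAt (fun t : ℝ => e l (x + t * 1)) (2 * Real.pi * I * l * (1 : ℝ) * e l x)
      (x - x) := by
    rw [sub_self]; exact h1
  have h6 : HasDerivAt ((fun t : ℝ => e l (x + t * 1)) ∘ fun s : ℝ => s - x)
      ((1 : ℝ) • (2 * Real.pi * I * l * (1 : ℝ) * e l x)) x :=
    HasDerivAt.scomp (h := fun s : ℝ => s - x) x h5 h4
  have h7 : ((fun t : ℝ => e l (x + t * 1)) ∘ fun s : ℝ => s - x) = e l := by
    funext s
    simp
  rw [h7] at h6
  rw [h6.deriv]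
  simp

theorem deriv_deriv_e (l : ℤ) (x : ℝ) :
    deriv (deriv (e l)) x = -(4 * Real.pi ^ 2 * (l : ℝ) ^ 2 : ℝ) * e l x := by
  have h1 : deriv (e l) = fun x => 2 * Real.pi * I * l * e l x := funext (deriv_e l)
  rw [h1, deriv_const_mul _ ((contDiff_e l).differentiable (by simp) x), deriv_e]
  push_cast
  linear_combination (4 * (Real.pi : ℂ) ^ 2 * (l : ℂ) ^ 2 * e l x) * I_sq

theorem isD0 (m1 n1 m2 n2 : ℤ) {u v u' : C(UnitAddCircle, ℂ)}
    (hu : ContDiff ℝ ∞ (lift u)) (hv : ContDiff ℝ ∞ (lift v))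
    (hu' : ∀ x, lift u' x = deriv (lift u) x) :
    IsDeriv (X1 0) (prodFn m1 n1 m2 n2 u v) (prodFn m1 n1 m2 n2 u' v) := by
  apply isDeriv_of_line (smooth_prodFn m1 n1 m2 n2 hu hv)
  intro x
  simp only [prodFn_pr, hu']
  have h1 : (fun t : ℝ => lift u ((x + t • X1 0 x) 0) *
      (e m1 ((x + t • X1 0 x) 1) * e n1 ((x + t • X1 0 x) 2)) *
      (lift v ((x + t • X1 0 x) 3) * (e m2 ((x + t • X1 0 x) 4) * e n2 ((x + t • X1 0 x) 5)))) =
      fun t : ℝ => lift u (x 0 + t) * (e m1 (x 1) * e n1 (x 2)) *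
        (lift v (x 3) * (e m2 (x 4) * e n2 (x 5))) := by
    funext t
    simp [X1]
  rw [h1]
  exact ((hasDerivAt_lift hu (x 0)).mul_const _).mul_const _

theorem isD2 (m1 n1 m2 n2 : ℤ) {u v v' : C(UnitAddCircle, ℂ)}
    (hu : ContDiff ℝ ∞ (lift u)) (hv : ContDiff ℝ ∞ (lift v))
    (hv' : ∀ x, lift v' x = deriv (lift v) x) :
    IsDeriv (X1 2) (prodFn m1 n1 m2 n2 u v) (prodFn m1 n1 m2 n2 u v') := by
  apply isDeriv_of_line (smooth_prodFn m1 n1 m2 n2 hu hv)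
  intro x
  simp only [prodFn_pr, hv']
  have h1 : (fun t : ℝ => lift u ((x + t • X1 2 x) 0) *
      (e m1 ((x + t • X1 2 x) 1) * e n1 ((x + t • X1 2 x) 2)) *
      (lift v ((x + t • X1 2 x) 3) * (e m2 ((x + t • X1 2 x) 4) * e n2 ((x + t • X1 2 x) 5)))) =
      fun t : ℝ => lift u (x 0) * (e m1 (x 1) * e n1 (x 2)) *
        (lift v (x 3 + t) * (e m2 (x 4) * e n2 (x 5))) := by
    funext t
    simp [X1]
  rw [h1]
  exact ((hasDerivAt_lift hv (x 3)).mul_const _).const_mul _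

theorem isD1 (m1 n1 m2 n2 : ℤ) {u v u' : C(UnitAddCircle, ℂ)}
    (hu : ContDiff ℝ ∞ (lift u)) (hv : ContDiff ℝ ∞ (lift v))
    (hu' : ∀ x, lift u' x = I * (af (fk 4) m1 n1 x : ℂ) * lift u x) :
    IsDeriv (X1 1) (prodFn m1 n1 m2 n2 u v) (prodFn m1 n1 m2 n2 u' v) := by
  apply isDeriv_of_line (smooth_prodFn m1 n1 m2 n2 hu hv)
  intro x
  simp only [prodFn_pr, hu']
  have h1 : (fun t : ℝ => lift u ((x + t • X1 1 x) 0) *
      (e m1 ((x + t • X1 1 x) 1) * e n1 ((x + t • X1 1 x) 2)) *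
      (lift v ((x + t • X1 1 x) 3) * (e m2 ((x + t • X1 1 x) 4) * e n2 ((x + t • X1 1 x) 5)))) =
      fun t : ℝ => lift u (x 0) * (e m1 (x 1 + t * 1) * e n1 (x 2 + t * fk 4 (x 0))) *
        (lift v (x 3) * (e m2 (x 4) * e n2 (x 5))) := by
    funext t
    simp [X1]
  rw [h1]
  have h2 := (((hasDerivAt_e m1 (x 1) 1).mul (hasDerivAt_e n1 (x 2) (fk 4 (x 0)))).const_mul
    (lift u (x 0))).mul_const (lift v (x 3) * (e m2 (x 4) * e n2 (x 5)))
  refine HasDerivAt.congr_deriv h2 ?_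
  simp only [zero_mul, add_zero, af]
  push_cast
  ring

theorem isD3 (m1 n1 m2 n2 : ℤ) {u v u' : C(UnitAddCircle, ℂ)}
    (hu : ContDiff ℝ ∞ (lift u)) (hv : ContDiff ℝ ∞ (lift v))
    (hu' : ∀ x, lift u' x = I * (af gk m2 n2 x : ℂ) * lift u x) :
    IsDeriv (X1 3) (prodFn m1 n1 m2 n2 u v) (prodFn m1 n1 m2 n2 u' v) := by
  apply isDeriv_of_line (smooth_prodFn m1 n1 m2 n2 hu hv)
  intro x
  simp only [prodFn_pr, hu']
  have h1 : (fun t : ℝ => lift u ((x + t • X1 3 x) 0) *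
      (e m1 ((x + t • X1 3 x) 1) * e n1 ((x + t • X1 3 x) 2)) *
      (lift v ((x + t • X1 3 x) 3) * (e m2 ((x + t • X1 3 x) 4) * e n2 ((x + t • X1 3 x) 5)))) =
      fun t : ℝ => lift u (x 0) * (e m1 (x 1) * e n1 (x 2)) *
        (lift v (x 3) * (e m2 (x 4 + t * 1) * e n2 (x 5 + t * gk (x 0)))) := by
    funext t
    simp [X1]
  rw [h1]
  have h2 := (((hasDerivAt_e m2 (x 4) 1).mul (hasDerivAt_e n2 (x 5) (gk (x 0)))).const_mul
    (lift v (x 3))).const_mul (lift u (x 0) * (e m1 (x 1) * e n1 (x 2)))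
  refine HasDerivAt.congr_deriv h2 ?_
  simp only [zero_mul, add_zero, af]
  push_cast
  ring

/-! ### divergence -/

theorem exists_coefF {φ : ℝ → ℝ} (hφ : ContDiff ℝ ∞ φ) (pφ : Function.Periodic φ 1) (j : Fin 6) :
    ∃ c : C(Torus 6, ℂ), ∀ x, c (pr x) = ((φ (x j) : ℝ) : ℂ) := by
  apply exists_desc
  · have h1 : Continuous φ := hφ.continuous
    exact Complex.continuous_ofReal.comp (h1.comp (continuous_apply j))
  · intro x l
    simp only [Pi.add_apply]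
    have h2 := (pφ.int_mul (l j)) (x j)
    rw [mul_one] at h2
    rw [h2]

theorem int_X1 (i : Fin 4) {F G : C(Torus 6, ℂ)} (hF : IsSmooth F) (hG : IsDeriv (X1 i) F G) :
    ∫ y, G y ∂(haarT 6) = 0 := by
  fin_cases i
  · refine int_coord hF ![1, 0, 0, 0, 0, 0] ?_
    intro x
    rw [hG x]
    congr 1
    funext j
    fin_cases j <;> simp [X1]
  · obtain ⟨D1, hD1⟩ := exists_partial hF fun i => ((![0, 1, 0, 0, 0, 0] i : ℤ) : ℝ)
    obtain ⟨D2, hD2⟩ := exists_partial hF fun i => ((![0, 0, 1, 0, 0, 0] i : ℤ) : ℝ)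
    obtain ⟨c, hc⟩ := exists_coefF (contDiff_fk 4) (fk_periodic 4) 0
    refine int_two (c := c) hF _ _ hD1 hD2 ?_ ?_
    · intro x t
      rw [hc, hc]
      simp
    · intro y
      obtain ⟨x, rfl⟩ := (isOpenQuotientMap_pr 6).surjective y
      rw [hG x, hD1, hD2, hc]
      have h1 : X1 1 x = (fun i => ((![0, 1, 0, 0, 0, 0] i : ℤ) : ℝ)) +
          (fk 4 (x 0)) • (fun i => ((![0, 0, 1, 0, 0, 0] i : ℤ) : ℝ)) := by
        funext j
        fin_cases j <;> simp [X1]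
      change fderiv ℝ _ x (X1 1 x) = _
      rw [h1, map_add, map_smul]
      simp
  · refine int_coord hF ![0, 0, 0, 1, 0, 0] ?_
    intro x
    rw [hG x]
    congr 1
    funext j
    fin_cases j <;> simp [X1]
  · obtain ⟨D1, hD1⟩ := exists_partial hF fun i => ((![0, 0, 0, 0, 1, 0] i : ℤ) : ℝ)
    obtain ⟨D2, hD2⟩ := exists_partial hF fun i => ((![0, 0, 0, 0, 0, 1] i : ℤ) : ℝ)
    obtain ⟨c, hc⟩ := exists_coefF contDiff_gk gk_periodic 0
    refine int_two (c := c) hF _ _ hD1 hD2 ?_ ?_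
    · intro x t
      rw [hc, hc]
      simp
    · intro y
      obtain ⟨x, rfl⟩ := (isOpenQuotientMap_pr 6).surjective y
      rw [hG x, hD1, hD2, hc]
      have h1 : X1 3 x = (fun i => ((![0, 0, 0, 0, 1, 0] i : ℤ) : ℝ)) +
          (gk (x 0)) • (fun i => ((![0, 0, 0, 0, 0, 1] i : ℤ) : ℝ)) := by
        funext j
        fin_cases j <;> simp [X1]
      change fderiv ℝ _ x (X1 3 x) = _
      rw [h1, map_add, map_smul]
      simp

/-- integration by parts -/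
theorem ibp1 (i : Fin 4) {F F' G G' : C(Torus 6, ℂ)} (hF : IsSmooth F) (hG : IsSmooth G)
    (hF' : IsDeriv (X1 i) F F') (hG' : IsDeriv (X1 i) G G') :
    ⟪cls F', cls G⟫_ℂ = - ⟪cls F, cls G'⟫_ℂ := by
  have hH : IsDeriv (X1 i) (star F * G) (star F' * G + star F * G') := by
    intro x
    have dF : HasFDerivAt (fun y : Fin 6 → ℝ => F (pr y))
        (fderiv ℝ (fun y : Fin 6 → ℝ => F (pr y)) x) x :=
      ((hF.differentiable (by simp)) x).hasFDerivAt
    have dG : HasFDerivAt (fun y : Fin 6 → ℝ => G (pr y))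
        (fderiv ℝ (fun y : Fin 6 → ℝ => G (pr y)) x) x :=
      ((hG.differentiable (by simp)) x).hasFDerivAt
    have dF' : HasFDerivAt (fun y : Fin 6 → ℝ => conj (F (pr y)))
        ((Complex.conjCLE : ℂ →L[ℝ] ℂ).comp (fderiv ℝ (fun y : Fin 6 → ℝ => F (pr y)) x)) x :=
      (Complex.conjCLE : ℂ →L[ℝ] ℂ).hasFDerivAt.comp x dF
    have d : HasFDerivAt (fun y : Fin 6 → ℝ => conj (F (pr y)) * G (pr y)) _ x := dF'.mul dG
    have h1 : (fun y : Fin 6 → ℝ => (star F * G) (pr y)) =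
        (fun y : Fin 6 → ℝ => conj (F (pr y)) * G (pr y)) := rfl
    rw [h1, HasFDerivAt.fderiv d]
    simp only [ContinuousMap.add_apply, ContinuousMap.mul_apply, ContinuousMap.star_apply]
    rw [hF' x, hG' x]
    simp
    ring
  have h2 := int_X1 i (isSmooth_star_mul hF hG) hH
  have i1 : Integrable (fun y => (star F' * G) y) (haarT 6) :=
    Integrable.of_bound (star F' * G).continuous.aestronglyMeasurable ‖star F' * G‖
      (Eventually.of_forall fun y => (star F' * G).norm_coe_le_norm y)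
  have i2 : Integrable (fun y => (star F * G') y) (haarT 6) :=
    Integrable.of_bound (star F * G').continuous.aestronglyMeasurable ‖star F * G'‖
      (Eventually.of_forall fun y => (star F * G').norm_coe_le_norm y)
  have h3 : ∫ y, (star F' * G + star F * G') y ∂(haarT 6) =
      ∫ y, (star F' * G) y ∂(haarT 6) + ∫ y, (star F * G') y ∂(haarT 6) := by
    rw [← integral_add i1 i2]
    rfl
  rw [h3] at h2
  rw [eq_neg_iff_add_eq_zero]
  rw [cls, cls, cls, cls, ContinuousMap.inner_toLp, ContinuousMap.inner_toLp, ← h2]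
  congr 1 <;>
  · apply integral_congr_ae
    apply Eventually.of_forall
    intro y
    simp only [ContinuousMap.mul_apply, ContinuousMap.star_apply]
    rw [mul_comm]
    rfl

/-- the derivatives of product functions -/
theorem exists_grads1 {m1 n1 m2 n2 l : ℤ} {u : C(UnitAddCircle, ℂ)} {t : ℝ}
    (hu : ContDiff ℝ ∞ (lift u))
    (eu : ∀ x : ℝ, - deriv (deriv (lift u)) x + (V2 ((m1, n1), (m2, n2)) x : ℂ) * lift u x =
      (t : ℂ) * lift u x) :
    ∃ h h2 : Fin 4 → C(Torus 6, ℂ),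
      (∀ i, IsDeriv (X1 i) (prodFn m1 n1 m2 n2 u (fourier l)) (h i)) ∧ (∀ i, IsSmooth (h i)) ∧
      (∀ i, IsDeriv (X1 i) (h i) (h2 i)) ∧
      ∑ i, h2 i = -((t + 4 * Real.pi ^ 2 * (l : ℝ) ^ 2 : ℝ) : ℂ) •
        prodFn m1 n1 m2 n2 u (fourier l) := by
  have hv := smooth_fourier l
  obtain ⟨u0, su0, hu0⟩ := exists_deriv hu
  obtain ⟨u00, su00, hu00⟩ := exists_deriv su0
  obtain ⟨u1, su1, hu1⟩ := exists_mulF (contDiff_fk 4) (fk_periodic 4) m1 n1 hu
  obtain ⟨u11, su11, hu11⟩ := exists_mulF (contDiff_fk 4) (fk_periodic 4) m1 n1 su1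
  obtain ⟨v0, sv0, hv0⟩ := exists_deriv hv
  obtain ⟨v00, sv00, hv00⟩ := exists_deriv sv0
  obtain ⟨u3, su3, hu3⟩ := exists_mulF contDiff_gk gk_periodic m2 n2 hu
  obtain ⟨u33, su33, hu33⟩ := exists_mulF contDiff_gk gk_periodic m2 n2 su3
  refine ⟨![prodFn m1 n1 m2 n2 u0 (fourier l), prodFn m1 n1 m2 n2 u1 (fourier l),
      prodFn m1 n1 m2 n2 u v0, prodFn m1 n1 m2 n2 u3 (fourier l)],
    ![prodFn m1 n1 m2 n2 u00 (fourier l), prodFn m1 n1 m2 n2 u11 (fourier l),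
      prodFn m1 n1 m2 n2 u v00, prodFn m1 n1 m2 n2 u33 (fourier l)], ?_, ?_, ?_, ?_⟩
  · intro i
    fin_cases i
    · exact isD0 m1 n1 m2 n2 hu hv hu0
    · exact isD1 m1 n1 m2 n2 hu hv hu1
    · exact isD2 m1 n1 m2 n2 hu hv hv0
    · exact isD3 m1 n1 m2 n2 hu hv hu3
  · intro i
    fin_cases i
    · exact smooth_prodFn m1 n1 m2 n2 su0 hv
    · exact smooth_prodFn m1 n1 m2 n2 su1 hv
    · exact smooth_prodFn m1 n1 m2 n2 hu sv0
    · exact smooth_prodFn m1 n1 m2 n2 su3 hv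
  · intro i
    fin_cases i
    · exact isD0 m1 n1 m2 n2 su0 hv hu00
    · exact isD1 m1 n1 m2 n2 su1 hv hu11
    · exact isD2 m1 n1 m2 n2 hu sv0 hv00
    · exact isD3 m1 n1 m2 n2 su3 hv hu33
  · ext y
    obtain ⟨x, rfl⟩ := (isOpenQuotientMap_pr 6).surjective y
    simp only [Fin.sum_univ_four, ContinuousMap.add_apply, ContinuousMap.smul_apply]
    simp only [Matrix.cons_val_zero, Matrix.cons_val_one, Matrix.cons_val]
    simp only [prodFn_pr, smul_eq_mul]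
    have e1 : lift u00 (x 0) = (V2 ((m1, n1), (m2, n2)) (x 0) : ℂ) * lift u (x 0) -
        (t : ℂ) * lift u (x 0) := by
      rw [hu00, show lift u0 = deriv (lift u) from funext hu0, ← eu (x 0)]
      ring
    have e2 : lift u11 (x 0) = - ((af (fk 4) m1 n1 (x 0) : ℝ) : ℂ) ^ 2 * lift u (x 0) := by
      rw [hu11, hu1]
      linear_combination ((af (fk 4) m1 n1 (x 0) : ℂ) ^ 2 * lift u (x 0)) * I_sq
    have e3 : lift v00 (x 3) = -(4 * Real.pi ^ 2 * (l : ℝ) ^ 2 : ℝ) * lift (fourier l) (x 3) := by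
      rw [hv00, show lift v0 = deriv (lift (fourier l)) from funext hv0, lift_fourier,
        deriv_deriv_e]
    have e4 : lift u33 (x 0) = - ((af gk m2 n2 (x 0) : ℝ) : ℂ) ^ 2 * lift u (x 0) := by
      rw [hu33, hu3]
      linear_combination ((af gk m2 n2 (x 0) : ℂ) ^ 2 * lift u (x 0)) * I_sq
    have e5 : (V2 ((m1, n1), (m2, n2)) (x 0) : ℂ) = ((af (fk 4) m1 n1 (x 0) : ℝ) : ℂ) ^ 2 +
        ((af gk m2 n2 (x 0) : ℝ) : ℂ) ^ 2 := by
      rw [V2]
      push_cast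
      ring
    rw [e1, e2, e3, e4, e5]
    push_cast
    ring

end W08

open W08

/-- copy of `prodFn_isEigen` for the frame `X1`; the function of `x_3` is `fourier l` -/
theorem prodFn_isEigen1 {m1 n1 m2 n2 l : ℤ} {u : C(UnitAddCircle, ℂ)} {t : ℝ}
    (hu : ContDiff ℝ ∞ (lift u))
    (eu : ∀ x : ℝ, - deriv (deriv (lift u)) x + (V2 ((m1, n1), (m2, n2)) x : ℂ) * lift u x =
      (t : ℂ) * lift u x) :
    IsEigen X1 (t + 4 * Real.pi ^ 2 * (l : ℝ) ^ 2) (cls (prodFn m1 n1 m2 n2 u (fourier l))) ∧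
      ∀ (μ : ℝ) (φ : L2T 6), IsEigen X1 μ φ → μ ≠ t + 4 * Real.pi ^ 2 * (l : ℝ) ^ 2 →
        ⟪φ, cls (prodFn m1 n1 m2 n2 u (fourier l))⟫_ℂ = 0 := by
  obtain ⟨h, h2, hh, hs, hh2, hsum⟩ := exists_grads1 (l := l) hu eu
  have hΦ := smooth_prodFn m1 n1 m2 n2 hu (smooth_fourier l)
  set s : ℝ := t + 4 * Real.pi ^ 2 * (l : ℝ) ^ 2 with hs0
  have hcls : ∑ i, cls (h2 i) = -((s : ℝ) : ℂ) • cls (prodFn m1 n1 m2 n2 u (fourier l)) := by
    simp only [cls]
    rw [← map_sum, hsum, map_smul]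
  constructor
  · refine ⟨fun i => cls (h i), ⟨fun _ => prodFn m1 n1 m2 n2 u (fourier l), fun _ i => h i,
      fun _ => hΦ, fun _ i => hh i, tendsto_const_nhds, fun i => tendsto_const_nhds⟩, ?_⟩
    intro f h' hf hfh'
    have h3 : ∀ i, ⟪cls (h i), cls (h' i)⟫_ℂ = - ⟪cls (h2 i), cls f⟫_ℂ := by
      intro i
      have := ibp1 i (hs i) hf (hh2 i) (hfh' i)
      rw [this, neg_neg]
    simp_rw [h3]
    rw [Finset.sum_neg_distrib, ← sum_inner, hcls, inner_smul_left]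
    simp
  · intro μ φ hφ hμ
    obtain ⟨g, ⟨f, hn, sf, df, tf, tg⟩, hg⟩ := hφ
    have h4 := hg _ h hΦ hh
    have h5 : Tendsto (fun n => ∑ i, ⟪cls (hn n i), cls (h i)⟫_ℂ) atTop
        (𝓝 (∑ i, ⟪g i, cls (h i)⟫_ℂ)) :=
      tendsto_finsetSum _ fun i _ => (tg i).inner tendsto_const_nhds
    have h6 : ∀ n, ∑ i, ⟪cls (hn n i), cls (h i)⟫_ℂ =
        ((s : ℝ) : ℂ) * ⟪cls (f n), cls (prodFn m1 n1 m2 n2 u (fourier l))⟫_ℂ := by
      intro n
      have h7 : ∀ i, ⟪cls (hn n i), cls (h i)⟫_ℂ = - ⟪cls (f n), cls (h2 i)⟫_ℂ := fun i =>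
        ibp1 i (sf n) (hs i) (df n i) (hh2 i)
      simp_rw [h7]
      rw [Finset.sum_neg_distrib, ← inner_sum, hcls, inner_smul_right]
      ring
    simp_rw [h6] at h5
    have h8 : Tendsto (fun n => ((s : ℝ) : ℂ) *
        ⟪cls (f n), cls (prodFn m1 n1 m2 n2 u (fourier l))⟫_ℂ) atTop
        (𝓝 (((s : ℝ) : ℂ) * ⟪φ, cls (prodFn m1 n1 m2 n2 u (fourier l))⟫_ℂ)) :=
      (tf.inner tendsto_const_nhds).const_mul _
    have h9 := tendsto_nhds_unique h5 h8
    rw [h4] at h9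
    have h10 : ((μ : ℂ) - ((s : ℝ) : ℂ)) * ⟪φ, cls (prodFn m1 n1 m2 n2 u (fourier l))⟫_ℂ = 0 := by
      rw [sub_mul, h9, sub_self]
    rcases mul_eq_zero.1 h10 with h11 | h11
    · exfalso
      apply hμ
      rw [← Complex.ofReal_sub] at h11
      have := Complex.ofReal_eq_zero.1 h11
      linarith
    · exact h11

end MP_d22ea4_an.WD
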