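import Pool.Agent.Lib_MP_d22ea4_wd.W08
import Pool.Agent.Lib_MP_d22ea4_an.ProdBasis

open MeasureTheory Filter Topology Complex
open scoped ContDiff ComplexConjugate InnerProductSpace

noncomputable section

namespace MP_d22ea4_an.WD

attribute [local instance] instMeasureSpaceUnitAddCircle

/-- compare `prod_orthonormal` -/
theorem prod_orthonormal1 : Orthonormal ℂ (fun q : P1 => cls (prodS q)) := by
  classical
  rw [orthonormal_iff_ite]
  rintro ⟨⟨⟨p, q⟩, i⟩, l⟩ ⟨⟨⟨p', q'⟩, i'⟩, l'⟩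
  have h := prod_inner p.1 p.2 q.1 q.2 p'.1 p'.2 q'.1 q'.2 ((E2 (p, q)).fn i) (fourier l)
    ((E2 (p', q')).fn i') (fourier l')
  refine Eq.trans h ?_
  by_cases hp : p = p'
  · subst hp
    by_cases hq : q = q'
    · subst hq
      rw [if_pos ⟨rfl, rfl, rfl, rfl⟩, orthonormal_iff_ite.1 (E2 (p, q)).orth i i',
        fourier_inner]
      by_cases hi : i = i'
      · subst hi
        by_cases hj : l = l'
        · subst hj
          simp
        · rw [if_neg hj, mul_zero, if_neg]
          intro h2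
          exact hj (Prod.mk.inj h2).2
      · rw [if_neg hi, zero_mul, if_neg]
        intro h2
        have h3 := (Prod.mk.inj h2).1
        simp only [Sigma.mk.injEq, heq_eq_eq, true_and] at h3
        exact hi h3
    · rw [if_neg, if_neg]
      · intro h2
        have h3 := (Prod.mk.inj h2).1
        have h4 := congrArg (fun α : S2 => α.1.2) h3
        exact hq h4
      · rintro ⟨_, _, h3, h4⟩
        exact hq (Prod.ext h3 h4)
  · rw [if_neg, if_neg]
    · intro h2
      have h3 := (Prod.mk.inj h2).1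
      have h4 := congrArg (fun α : S2 => α.1.1) h3
      exact hp h4
    · rintro ⟨h1, h2, _⟩
      exact hp (Prod.ext h1 h2)

/-- compare `prod_total` -/
theorem prod_total1 (g : L2T 6) (h : ∀ q : P1, ⟪cls (prodS q), g⟫_ℂ = 0) : g = 0 := by
  have h1 : ∀ (m1 n1 m2 n2 l : ℤ) (u : C(UnitAddCircle, ℂ)),
      ⟪g, cls (prodFn m1 n1 m2 n2 u (fourier l))⟫_ℂ = 0 := by
    intro m1 n1 m2 n2 l
    let Lu : C(UnitAddCircle, ℂ) →ₗ[ℂ] ℂ :=
      { toFun := fun u => ⟪g, cls (prodFn m1 n1 m2 n2 u (fourier l))⟫_ℂ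
        map_add' := by
          intro u u'
          rw [← inner_add_right, ← map_add]
          congr 2
          ext y
          simp only [prodFn, ContinuousMap.coe_mk, ContinuousMap.add_apply]
          ring
        map_smul' := by
          intro c u
          rw [RingHom.id_apply, smul_eq_mul, ← inner_smul_right, ← map_smul]
          congr 2
          ext y
          simp only [prodFn, ContinuousMap.coe_mk, ContinuousMap.smul_apply, smul_eq_mul]
          ring }
    intro u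
    refine functional_zero (E2 ((m1, n1), (m2, n2))) Lu
      (C := ‖g‖ * ‖clc (fourier l)‖) (by positivity) ?_ ?_ u
    · intro w
      refine (norm_inner_le_norm (𝕜 := ℂ) g
        (cls (prodFn m1 n1 m2 n2 w (fourier l)))).trans ?_
      rw [norm_prodFn]
      exact le_of_eq (by ring)
    · intro i
      have := h (⟨((m1, n1), (m2, n2)), i⟩, l)
      have h2 := inner_eq_zero_symm.1 this
      exact h2
  have h2 : UnitAddTorus.mFourierBasis.repr g = 0 := by
    ext k
    rw [HilbertBasis.repr_apply_apply, UnitAddTorus.coe_mFourierBasis]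
    have h3 : ⟪g, cls (expo k)⟫_ℂ = 0 := by rw [expo_eq]; exact h1 _ _ _ _ _ _
    exact inner_eq_zero_symm.1 h3
  exact (LinearIsometryEquiv.map_eq_zero_iff _).1 h2

theorem span_bot1 : (Submodule.span ℂ (Set.range fun q : P1 => cls (prodS q)))ᗮ = ⊥ := by
  rw [Submodule.eq_bot_iff]
  intro g hg
  apply prod_total1 g
  intro q
  rw [Submodule.mem_orthogonal] at hg
  exact hg _ (Submodule.subset_span ⟨q, rfl⟩)

/-- the explicit Hilbert basis -/
def PB : HilbertBasis P1 ℂ (L2T 6) :=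
  HilbertBasis.mkOfOrthogonalEqBot prod_orthonormal1 span_bot1

theorem PB_apply (q : P1) : PB q = cls (prodS q) := by
  unfold PB
  rw [HilbertBasis.coe_mkOfOrthogonalEqBot]

theorem PB_isEigen (q : P1) : IsEigen X1 (nu q) (PB q) ∧
    ∀ (μ : ℝ) (φ : L2T 6), IsEigen X1 μ φ → μ ≠ nu q → ⟪φ, PB q⟫_ℂ = 0 := by
  rw [PB_apply]
  exact prodFn_isEigen1 ((E2 q.1.1).smooth q.1.2) ((E2 q.1.1).eq q.1.2)

/-- copy of `exists_flip`: the symmetry `(m₁, n₁) → (-m₁, -n₁)` -/
theorem exists_flip : ∃ σ : S2 ≃ S2, ∀ α, sev (σ α) = sev α ∧ (σ α).1.1.2 = - α.1.1.2 := by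
  have key : ∀ V W : {V : ℝ → ℝ // Good V}, V = W →
      ∃ τ : (ebW V).ι ≃ (ebW W).ι, ∀ i, (ebW W).ev (τ i) = (ebW V).ev i := by
    rintro V W rfl
    exact ⟨Equiv.refl _, fun i => rfl⟩
  have h : ∀ p : PF, ∃ τ : (E2 p).ι ≃ (E2 (-p.1, p.2)).ι,
      ∀ i, (E2 (-p.1, p.2)).ev (τ i) = (E2 p).ev i := by
    intro p
    apply key
    apply Subtype.ext
    exact (V2_neg p).symm
  choose τ hτ using h
  refine ⟨(Equiv.sigmaCongr ((Equiv.neg (ℤ × ℤ)).prodCongr (Equiv.refl (ℤ × ℤ))) τ),
    fun α => ⟨?_, ?_⟩⟩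
  · exact hτ α.1 α.2
  · rfl

end MP_d22ea4_an.WD
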