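import Pool.Agent.Lib_MP_d22ea4_wd.W02
import Pool.Agent.Lib_MP_d22ea4_an.Geom

open MeasureTheory Filter Topology Complex
open scoped ContDiff ComplexConjugate InnerProductSpace

noncomputable section

namespace MP_d22ea4_an.WD

attribute [local instance] instMeasureSpaceUnitAddCircle

private theorem isVF_X1 (i : Fin 4) : IsVF (X1 i) := by
  constructor
  · rw [contDiff_pi]
    intro j
    have hf : ContDiff ℝ ∞ (fun x : Fin 6 → ℝ => fk 4 (x 0)) :=
      (contDiff_fk 4).comp (contDiff_apply ℝ ℝ (0 : Fin 6))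
    have hg : ContDiff ℝ ∞ (fun x : Fin 6 → ℝ => gk (x 0)) :=
      contDiff_gk.comp (contDiff_apply ℝ ℝ (0 : Fin 6))
    fin_cases i <;> fin_cases j <;> first | exact contDiff_const | exact hf | exact hg
  · intro x k
    fin_cases i
    · rfl
    · simp only [X1, Pi.add_apply, fk, cos_periodic_int]
    · rfl
    · simp only [X1, Pi.add_apply, gk, cos_periodic_int]

theorem isFrame_X1 : IsFrame X1 := by
  refine ⟨isVF_X1, ?_⟩
  intro x
  rw [Fintype.linearIndependent_iff]
  intro g hg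
  have h0 := congrFun hg 0
  have h1 := congrFun hg 1
  have h3 := congrFun hg 3
  have h4 := congrFun hg 4
  simp [Fin.sum_univ_four, X1] at h0 h1 h3 h4
  intro i
  fin_cases i
  · exact h0
  · exact h1
  · exact h3
  · exact h4

/-! ### Functions vanishing to high order at `x_0 = 1/2` -/

/-- `g` is a smooth multiple of `cos (π x_0) ^ k` -/
private def VanC (k : ℕ) (g : (Fin 6 → ℝ) → ℝ) : Prop :=
  ∃ h : (Fin 6 → ℝ) → ℝ, ContDiff ℝ ∞ h ∧ ∀ x, g x = (Real.cos (Real.pi * x 0)) ^ k * h x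

private theorem contDiff_cos0 : ContDiff ℝ ∞ (fun x : Fin 6 → ℝ => Real.cos (Real.pi * x 0)) := by
  fun_prop

private theorem VanC.smooth {k : ℕ} {g : (Fin 6 → ℝ) → ℝ} (hg : VanC k g) : ContDiff ℝ ∞ g := by
  obtain ⟨h, hh, hgh⟩ := hg
  have : g = fun x => (Real.cos (Real.pi * x 0)) ^ k * h x := funext hgh
  rw [this]
  exact (contDiff_cos0.pow k).mul hh

private theorem VanC.add {k : ℕ} {g g' : (Fin 6 → ℝ) → ℝ} (hg : VanC k g) (hg' : VanC k g') :
    VanC k (fun x => g x + g' x) := by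
  obtain ⟨h, hh, hgh⟩ := hg
  obtain ⟨h', hh', hgh'⟩ := hg'
  exact ⟨fun x => h x + h' x, hh.add hh', fun x => by dsimp only; rw [hgh, hgh']; ring⟩

private theorem VanC.sub {k : ℕ} {g g' : (Fin 6 → ℝ) → ℝ} (hg : VanC k g) (hg' : VanC k g') :
    VanC k (fun x => g x - g' x) := by
  obtain ⟨h, hh, hgh⟩ := hg
  obtain ⟨h', hh', hgh'⟩ := hg'
  exact ⟨fun x => h x - h' x, hh.sub hh', fun x => by dsimp only; rw [hgh, hgh']; ring⟩

private theorem VanC.mul {k : ℕ} {g g' : (Fin 6 → ℝ) → ℝ} (hg : VanC k g)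
    (hg' : ContDiff ℝ ∞ g') : VanC k (fun x => g x * g' x) := by
  obtain ⟨h, hh, hgh⟩ := hg
  exact ⟨fun x => h x * g' x, hh.mul hg', fun x => by dsimp only; rw [hgh]; ring⟩

private theorem VanC.mono {k l : ℕ} {g : (Fin 6 → ℝ) → ℝ} (hg : VanC k g) (hl : l ≤ k) :
    VanC l g := by
  obtain ⟨h, hh, hgh⟩ := hg
  refine ⟨fun x => (Real.cos (Real.pi * x 0)) ^ (k - l) * h x,
    (contDiff_cos0.pow _).mul hh, fun x => ?_⟩
  rw [hgh, ← mul_assoc, ← pow_add, Nat.add_sub_cancel' hl]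

private theorem vanC_of_smooth {g : (Fin 6 → ℝ) → ℝ} (hg : ContDiff ℝ ∞ g) : VanC 0 g :=
  ⟨g, hg, fun x => by simp⟩

private theorem VanC.deriv {k : ℕ} {g : (Fin 6 → ℝ) → ℝ} (hg : VanC k g) {V : VF 6}
    (hV : ContDiff ℝ ∞ V) : VanC (k - 1) (fun x => fderiv ℝ g x (V x)) := by
  rcases k with _ | k
  · exact vanC_of_smooth (smooth_deriv hg.smooth hV)
  · obtain ⟨h, hh, hgh⟩ := hg
    have hs := contDiff_cos0
    refine ⟨fun x => ((k : ℝ) + 1) * fderiv ℝ (fun x : Fin 6 → ℝ => Real.cos (Real.pi * x 0)) x (V x)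
        * h x + Real.cos (Real.pi * x 0) * fderiv ℝ h x (V x), ?_, fun x => ?_⟩
    · exact ((contDiff_const.mul (smooth_deriv hs hV)).mul hh).add (hs.mul (smooth_deriv hh hV))
    · have e : g = fun x => (Real.cos (Real.pi * x 0)) ^ (k + 1) * h x := funext hgh
      have hd1 : DifferentiableAt ℝ (fun x : Fin 6 → ℝ => Real.cos (Real.pi * x 0)) x :=
        hs.differentiable (by simp) x
      have hd2 : DifferentiableAt ℝ h x := hh.differentiable (by simp) x
      have h3 : HasFDerivAt (fun x : Fin 6 → ℝ => (Real.cos (Real.pi * x 0)) ^ (k + 1) * h x) _ x :=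
        (hd1.hasFDerivAt.pow (k + 1)).mul hd2.hasFDerivAt
      dsimp only
      rw [e, h3.fderiv]
      simp only [Nat.add_sub_cancel, add_apply, smul_apply,
        smul_eq_mul, nsmul_eq_mul]
      push_cast
      ring

/-- `g(x_0) - 128` -/
private def g10 (x : Fin 6 → ℝ) : ℝ := gk (x 0) - 128

private theorem vanC_g10 : VanC 10 g10 := by
  refine ⟨fun x => -(32 * (84 - 70 * (1 + Real.cos (2 * Real.pi * x 0)) +
    15 * (1 + Real.cos (2 * Real.pi * x 0)) ^ 2)), by fun_prop, fun x => ?_⟩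
  unfold g10 gk
  have h1 : 2 * Real.pi * x 0 = 2 * (Real.pi * x 0) := by ring
  have h2 : Real.cos (2 * Real.pi * x 0) = 2 * Real.cos (Real.pi * x 0) ^ 2 - 1 := by
    rw [h1, Real.cos_two_mul]
  simp only [h2]
  ring

/-- `θ = dx_5 - g(x_0) dx_4` -/
private def thetaC (V : VF 6) (x : Fin 6 → ℝ) : ℝ := V x 5 - gk (x 0) * V x 4

private theorem thetaC_section {V : VF 6} (hV : IsSection X1 V) (x : Fin 6 → ℝ) :
    thetaC V x = 0 := by
  have h := hV.2 x
  unfold thetaC
  refine Submodule.span_induction (p := fun v _ => v 5 - gk (x 0) * v 4 = 0) ?_ ?_ ?_ ?_ h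
  · rintro v ⟨i, rfl⟩
    fin_cases i <;> simp [X1]
  · simp
  · intro a b _ _ ha hb
    simp only [Pi.add_apply]
    linarith
  · intro c a _ ha
    simp only [Pi.smul_apply, smul_eq_mul]
    have : c * a 5 - gk (x 0) * (c * a 4) = c * (a 5 - gk (x 0) * a 4) := by ring
    rw [this, ha, mul_zero]

private theorem thetaC_bracket {V W : VF 6} (hV : ContDiff ℝ ∞ V) (hW : ContDiff ℝ ∞ W) :
    thetaC (VectorField.lieBracket ℝ V W) = fun x =>
      (fderiv ℝ (thetaC W) x (V x) - fderiv ℝ (thetaC V) x (W x)) +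
      (fderiv ℝ g10 x (V x) * W x 4 - fderiv ℝ g10 x (W x) * V x 4) := by
  funext x
  have hf : DifferentiableAt ℝ g10 x := vanC_g10.smooth.differentiable (by simp) x
  have key : ∀ U : VF 6, ContDiff ℝ ∞ U → ∀ v : Fin 6 → ℝ, fderiv ℝ (thetaC U) x v =
      fderiv ℝ (fun y => U y 5) x v - (gk (x 0) * fderiv ℝ (fun y => U y 4) x v +
        fderiv ℝ g10 x v * U x 4) := by
    intro U hU v
    have h1 : DifferentiableAt ℝ (fun y => U y 4) x :=
      (contDiff_comp hU 4).differentiable (by simp) x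
    have h2 : DifferentiableAt ℝ (fun y => U y 5) x :=
      (contDiff_comp hU 5).differentiable (by simp) x
    have hg : HasFDerivAt (fun y : Fin 6 → ℝ => g10 y + 128) (fderiv ℝ g10 x) x :=
      hf.hasFDerivAt.add_const 128
    have h3 : HasFDerivAt (fun y => U y 5 - (g10 y + 128) * U y 4) _ x :=
      h2.hasFDerivAt.sub (hg.mul h1.hasFDerivAt)
    have h4 : thetaC U = fun y => U y 5 - (g10 y + 128) * U y 4 := by
      funext y
      unfold thetaC g10
      ring
    rw [h4, h3.fderiv]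
    simp only [sub_apply, add_apply, smul_apply, smul_eq_mul]
    unfold g10
    ring
  rw [key V hV, key W hW]
  unfold thetaC
  rw [lieBracket_apply hV hW, lieBracket_apply hV hW]
  ring

private theorem bracketC_facts {j : ℕ} {V : VF 6} (h : IsBracket X1 j V) :
    1 ≤ j ∧ ContDiff ℝ ∞ V ∧ VanC (11 - j) (thetaC V) := by
  induction h with
  | sec h =>
    refine ⟨le_rfl, h.1.smooth, fun _ => 0, contDiff_const, fun x => ?_⟩
    rw [thetaC_section h x, mul_zero]
  | @bracket i j V W _ _ ihV ihW =>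
    obtain ⟨hi, hV, hvV⟩ := ihV
    obtain ⟨hj, hW, hvW⟩ := ihW
    refine ⟨by omega, contDiff_lieBracket hV hW, ?_⟩
    rw [thetaC_bracket hV hW]
    refine (((hvW.deriv hV).mono (by omega)).sub ((hvV.deriv hW).mono (by omega))).add ?_
    exact (((vanC_g10.deriv hV).mul (contDiff_comp hW 4)).mono (by omega)).sub
      (((vanC_g10.deriv hW).mul (contDiff_comp hV 4)).mono (by omega))

/-- compare `flag_X0` (with `Van` for `cos (π x_0)` instead of `sin (π x_0)`; `g - 128` vanishes to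
order `10` at `x_0 = 1/2`, and `g(1/2) = 128`) -/
theorem flag10_half (x : Fin 6 → ℝ) (hx : ∃ n : ℤ, x 0 = n + 1 / 2) :
    ∀ v ∈ flag X1 10 x, v 5 = 128 * v 4 := by
  intro v hv
  have hcos : Real.cos (Real.pi * x 0) = 0 := by
    obtain ⟨n, hn⟩ := hx
    rw [hn, Real.cos_eq_zero_iff]
    exact ⟨n, by ring⟩
  have hg : gk (x 0) = 128 := by
    obtain ⟨h, -, hh⟩ := vanC_g10
    have h1 := hh x
    rw [hcos] at h1
    unfold g10 at h1
    have h2 : (0 : ℝ) ^ 10 * h x = 0 := by simp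
    linarith
  unfold flag at hv
  refine Submodule.span_induction (p := fun v _ => v 5 = 128 * v 4) ?_ (by simp) ?_ ?_ hv
  · rintro v ⟨j, hj, V, hV, rfl⟩
    obtain ⟨hj1, hVs, hvan⟩ := bracketC_facts hV
    obtain ⟨h, -, hh⟩ := hvan.mono (l := 1) (by omega)
    have h1 := hh x
    unfold thetaC at h1
    rw [hg, hcos] at h1
    simp only [pow_one, zero_mul] at h1
    linarith
  · intro a b _ _ ha hb
    rw [Pi.add_apply, Pi.add_apply, ha, hb]
    ring
  · intro c a _ ha
    rw [Pi.smul_apply, Pi.smul_apply, ha, smul_eq_mul, smul_eq_mul]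
    ring

end MP_d22ea4_an.WD
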