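import Pool.Agent.Lib_MP_d22ea4_wd.W10

open MeasureTheory Filter Topology Complex
open scoped ContDiff ComplexConjugate InnerProductSpace

noncomputable section

namespace MP_d22ea4_an.WD

attribute [local instance] instMeasureSpaceUnitAddCircle

private theorem w11_iter {w : ℝ → ℝ} (hw : ContDiff ℝ ∞ w) {c : ℝ} (h0 : w c = 0)
    (h1 : deriv w c ≠ 0) : ∀ (n : ℕ) (φ ψ : ℝ → ℝ), ContDiff ℝ ∞ ψ →
      (∀ x, φ x = w x ^ n * ψ x) → ψ c ≠ 0 → iteratedDeriv n φ c ≠ 0 := by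
  intro n
  induction n with
  | zero =>
    intro φ ψ _ h hc
    rw [iteratedDeriv_zero, h, pow_zero, one_mul]
    exact hc
  | succ n ih =>
    intro φ ψ hψ h hc
    rw [iteratedDeriv_succ']
    have hw' : ContDiff ℝ ∞ (deriv w) := contDiff_infty_iff_deriv.1 hw |>.2
    have hψ' : ContDiff ℝ ∞ (deriv ψ) := contDiff_infty_iff_deriv.1 hψ |>.2
    refine ih (deriv φ) (fun x => ((n : ℝ) + 1) * deriv w x * ψ x + w x * deriv ψ x)
      ((contDiff_const.mul hw').mul hψ |>.add (hw.mul hψ')) (fun x => ?_) ?_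
    · have e : φ = fun x => w x ^ (n + 1) * ψ x := funext h
      have d1 : HasDerivAt w (deriv w x) x := (hw.differentiable (by simp) x).hasDerivAt
      have d2 : HasDerivAt ψ (deriv ψ x) x := (hψ.differentiable (by simp) x).hasDerivAt
      have d3 := (d1.pow (n + 1)).mul d2
      rw [e]
      have d4 : HasDerivAt (fun x => w x ^ (n + 1) * ψ x) _ x := d3
      rw [d4.deriv]
      push_cast
      simp only [Pi.pow_apply]
      ring
    · show ((n : ℝ) + 1) * deriv w c * ψ c + w c * deriv ψ c ≠ 0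
      rw [h0, zero_mul, add_zero]
      have : (n : ℝ) + 1 ≠ 0 := by positivity
      exact mul_ne_zero (mul_ne_zero this h1) hc

private theorem w11_bracket_iter {X : Fin 4 → VF 6} {j : ℕ} (c k : Fin 6) {g : ℝ → ℝ}
    (hg : ContDiff ℝ ∞ g) (hc : IsSection X (Ef c)) (hb : IsBracket X j (Gf c k g)) (n : ℕ) :
    IsBracket X (n + j) (Gf c k (iteratedDeriv n g)) := by
  induction n with
  | zero => simpa using hb
  | succ n ih =>
    have hs : ContDiff ℝ ∞ (iteratedDeriv n g) := by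
      have := hg.iterate_deriv n
      rwa [← iteratedDeriv_eq_iterate] at this
    have hd : ∀ t, HasDerivAt (iteratedDeriv n g) (iteratedDeriv (n + 1) g t) t := by
      intro t
      rw [iteratedDeriv_succ]
      exact (hs.differentiable (by simp) t).hasDerivAt
    rw [← bracket_Gf c k hd]
    have := IsBracket.bracket (IsBracket.sec hc) ih
    rwa [show 1 + (n + j) = n + 1 + j by ring] at this

private theorem w11_sec0 : IsSection X1 (Ef 0) := by
  have h : Ef 0 = X1 0 := by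
    funext x i
    fin_cases i <;> simp [Ef, X1]
  rw [h]
  exact ⟨isFrame_X1.vf 0, fun _ => Submodule.subset_span ⟨0, rfl⟩⟩

private theorem w11_sec1 : IsSection X1 (fun x => Ef 1 x + Gf 0 2 (fk 4) x) := by
  have h : X1 1 = fun x => Ef 1 x + Gf 0 2 (fk 4) x := by
    funext x i
    fin_cases i <;> simp [Ef, X1, Gf]
  rw [← h]
  exact ⟨isFrame_X1.vf 1, fun _ => Submodule.subset_span ⟨1, rfl⟩⟩

private theorem w11_sec3 : IsSection X1 (fun x => Ef 4 x + Gf 0 5 gk x) := by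
  have h : X1 3 = fun x => Ef 4 x + Gf 0 5 gk x := by
    funext x i
    fin_cases i <;> simp [Ef, X1, Gf]
  rw [← h]
  exact ⟨isFrame_X1.vf 3, fun _ => Submodule.subset_span ⟨3, rfl⟩⟩

private theorem w11_mono {i j : ℕ} (h : i ≤ j) (x : Fin 6 → ℝ) : flag X1 i x ≤ flag X1 j x := by
  apply Submodule.span_mono
  rintro v ⟨l, hl, V, hV, hv⟩
  exact ⟨l, hl.trans h, V, hV, hv⟩

private theorem w11_one {k : Fin 6} {y : ℝ} (hy : y ≠ 0) {S : Submodule ℝ (Fin 6 → ℝ)}
    (h : (Pi.single k y : Fin 6 → ℝ) ∈ S) : (Pi.single k 1 : Fin 6 → ℝ) ∈ S := by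
  have : (Pi.single k 1 : Fin 6 → ℝ) = y⁻¹ • Pi.single k y := by
    rw [← Pi.single_smul, smul_eq_mul, inv_mul_cancel₀ hy]
  rw [this]
  exact Submodule.smul_mem _ _ h

private theorem w11_deriv {H : ℝ → ℝ} (e k : Fin 6) (hH : ContDiff ℝ ∞ H)
    (hs : IsSection X1 (fun x => Ef e x + Gf 0 k H x)) (n N : ℕ) (hN : n + 2 ≤ N)
    (x : Fin 6 → ℝ) (hne : iteratedDeriv n (deriv H) (x 0) ≠ 0) :
    (Pi.single k 1 : Fin 6 → ℝ) ∈ flag X1 N x := by
  have hd : ∀ t, HasDerivAt H (deriv H t) t := fun t =>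
    (hH.differentiable (by simp) t).hasDerivAt
  have b2 : IsBracket X1 (1 + 1) (Gf 0 k (deriv H)) := by
    rw [← bracket_first 0 e k hd]
    exact IsBracket.bracket (IsBracket.sec w11_sec0) (IsBracket.sec hs)
  have hH' : ContDiff ℝ ∞ (deriv H) := contDiff_infty_iff_deriv.1 hH |>.2
  have b3 := w11_bracket_iter 0 k hH' w11_sec0 b2 n
  have h1 : (Pi.single k (iteratedDeriv n (deriv H) (x 0)) : Fin 6 → ℝ) ∈ flag X1 N x :=
    Submodule.subset_span ⟨n + (1 + 1), by omega, _, b3, rfl⟩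
  exact w11_one hne h1

/-- if `φ(x_0) ∂_c` is a bracket of length `j` and `φ = u^n ψ` with `u(t) = 0`, `u'(t) ≠ 0`,
`ψ(t) ≠ 0`, then `∂_c` is in `D_{j+n}` at the points with `x_0 = t` (induction on `n`, with
`[∂_0, φ ∂_c] = φ' ∂_c`) -/
theorem single_mem_of_order (c : Fin 6) {t : ℝ} {u : ℝ → ℝ} (hu : ContDiff ℝ ∞ u) (hut : u t = 0)
    (hu' : deriv u t ≠ 0) (n : ℕ) :
    ∀ (j : ℕ) (φ ψ : ℝ → ℝ), ContDiff ℝ ∞ ψ → ψ t ≠ 0 → (∀ y, φ y = u y ^ n * ψ y) →
      IsBracket X1 j (fun x => Pi.single c (φ (x 0))) → ∀ x : Fin 6 → ℝ, x 0 = t →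
        (Pi.single c 1 : Fin 6 → ℝ) ∈ flag X1 (j + n) x := by
  intro j φ ψ hψ hψt hφ hb x hx
  have hφs : ContDiff ℝ ∞ φ := by
    have : φ = fun y => u y ^ n * ψ y := funext hφ
    rw [this]
    exact (hu.pow n).mul hψ
  have hb' : IsBracket X1 j (Gf 0 c φ) := hb
  have b3 := w11_bracket_iter 0 c hφs w11_sec0 hb' n
  have hne := w11_iter hu hut hu' n φ ψ hψ hφ hψt
  have h1 : (Pi.single c (iteratedDeriv n φ (x 0)) : Fin 6 → ℝ) ∈ flag X1 (j + n) x :=
    Submodule.subset_span ⟨n + j, by omega, _, b3, rfl⟩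
  rw [hx] at h1
  exact w11_one hne h1

private def w11_c (x : ℝ) : ℝ := Real.cos (Real.pi * x)
private def w11_s (x : ℝ) : ℝ := Real.sin (Real.pi * x)

private theorem w11_cs : ContDiff ℝ ∞ w11_c := by unfold w11_c; fun_prop
private theorem w11_ss : ContDiff ℝ ∞ w11_s := by unfold w11_s; fun_prop

private theorem w11_dc (x : ℝ) : deriv w11_c x = -(Real.pi * w11_s x) := by
  have h0 : HasDerivAt (fun x : ℝ => Real.pi * x) Real.pi x := by
    simpa using (hasDerivAt_id x).const_mul Real.pi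
  have h1 : HasDerivAt w11_c _ x := h0.cos
  rw [h1.deriv]
  unfold w11_s; ring

private theorem w11_ds (x : ℝ) : deriv w11_s x = Real.pi * w11_c x := by
  have h0 : HasDerivAt (fun x : ℝ => Real.pi * x) Real.pi x := by
    simpa using (hasDerivAt_id x).const_mul Real.pi
  have h1 : HasDerivAt w11_s _ x := h0.sin
  rw [h1.deriv]
  unfold w11_c; ring

private theorem w11_sq (x : ℝ) : w11_s x ^ 2 + w11_c x ^ 2 = 1 := Real.sin_sq_add_cos_sq _

private theorem w11_c_ne {x : ℝ} (h : w11_s x = 0) : w11_c x ≠ 0 := by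
  intro h'
  have := w11_sq x
  rw [h, h'] at this
  norm_num at this

private theorem w11_s_ne {x : ℝ} (h : w11_c x = 0) : w11_s x ≠ 0 := by
  intro h'
  have := w11_sq x
  rw [h, h'] at this
  norm_num at this

private theorem w11_df : deriv (fk 4) = fun x => 128 * Real.pi * w11_s x ^ 7 * w11_c x :=
  funext fun x => (hasDerivAt_fk4 x).deriv

private theorem w11_dg : deriv gk = fun x => 26880 * Real.pi * w11_s x ^ 5 * w11_c x ^ 9 :=
  funext fun x => (hasDerivAt_gk x).deriv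

private theorem w11_pi : Real.pi ≠ 0 := Real.pi_ne_zero

private theorem w11_fs {x : ℝ} (h : w11_s x = 0) : iteratedDeriv 7 (deriv (fk 4)) x ≠ 0 := by
  have hc := w11_c_ne h
  refine w11_iter w11_ss h ?_ 7 (deriv (fk 4)) (fun x => 128 * Real.pi * w11_c x)
    (contDiff_const.mul w11_cs) (fun y => ?_) ?_
  · rw [w11_ds]
    exact mul_ne_zero w11_pi hc
  · rw [w11_df]; ring
  · exact mul_ne_zero (mul_ne_zero (by norm_num) w11_pi) hc

private theorem w11_gs {x : ℝ} (h : w11_s x = 0) : iteratedDeriv 5 (deriv gk) x ≠ 0 := by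
  have hc := w11_c_ne h
  refine w11_iter w11_ss h ?_ 5 (deriv gk) (fun x => 26880 * Real.pi * w11_c x ^ 9)
    (contDiff_const.mul (w11_cs.pow 9)) (fun y => ?_) ?_
  · rw [w11_ds]
    exact mul_ne_zero w11_pi hc
  · rw [w11_dg]; ring
  · exact mul_ne_zero (mul_ne_zero (by norm_num) w11_pi) (pow_ne_zero _ hc)

private theorem w11_fc {x : ℝ} (h : w11_c x = 0) : iteratedDeriv 1 (deriv (fk 4)) x ≠ 0 := by
  have hs := w11_s_ne h
  refine w11_iter w11_cs h ?_ 1 (deriv (fk 4)) (fun x => 128 * Real.pi * w11_s x ^ 7)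
    (contDiff_const.mul (w11_ss.pow 7)) (fun y => ?_) ?_
  · rw [w11_dc]
    exact neg_ne_zero.2 (mul_ne_zero w11_pi hs)
  · rw [w11_df]; ring
  · exact mul_ne_zero (mul_ne_zero (by norm_num) w11_pi) (pow_ne_zero _ hs)

private theorem w11_gc {x : ℝ} (h : w11_c x = 0) : iteratedDeriv 9 (deriv gk) x ≠ 0 := by
  have hs := w11_s_ne h
  refine w11_iter w11_cs h ?_ 9 (deriv gk) (fun x => 26880 * Real.pi * w11_s x ^ 5)
    (contDiff_const.mul (w11_ss.pow 5)) (fun y => ?_) ?_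
  · rw [w11_dc]
    exact neg_ne_zero.2 (mul_ne_zero w11_pi hs)
  · rw [w11_dg]; ring
  · exact mul_ne_zero (mul_ne_zero (by norm_num) w11_pi) (pow_ne_zero _ hs)

/-- `∂_2 ∈ D_9` everywhere (in `D_2` where `f' ≠ 0`, `D_3` at `x_0 = 1/2`, `D_9` at `x_0 = 0`) -/
theorem single_two_mem (x : Fin 6 → ℝ) : (Pi.single 2 1 : Fin 6 → ℝ) ∈ flag X1 9 x := by
  by_cases hs : w11_s (x 0) = 0
  · exact w11_deriv 1 2 (contDiff_fk 4) w11_sec1 7 9 (by norm_num) x (w11_fs hs)
  by_cases hc : w11_c (x 0) = 0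
  · exact w11_deriv 1 2 (contDiff_fk 4) w11_sec1 1 9 (by norm_num) x (w11_fc hc)
  refine w11_deriv 1 2 (contDiff_fk 4) w11_sec1 0 9 (by norm_num) x ?_
  rw [iteratedDeriv_zero, w11_df]
  exact mul_ne_zero (mul_ne_zero (mul_ne_zero (by norm_num) w11_pi) (pow_ne_zero _ hs)) hc

private theorem w11_five (x : Fin 6 → ℝ) (hc : w11_c (x 0) ≠ 0) :
    (Pi.single 5 1 : Fin 6 → ℝ) ∈ flag X1 7 x := by
  by_cases hs : w11_s (x 0) = 0
  · exact w11_deriv 4 5 contDiff_gk w11_sec3 5 7 (by norm_num) x (w11_gs hs)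
  refine w11_deriv 4 5 contDiff_gk w11_sec3 0 7 (by norm_num) x ?_
  rw [iteratedDeriv_zero, w11_dg]
  exact mul_ne_zero (mul_ne_zero (mul_ne_zero (by norm_num) w11_pi) (pow_ne_zero _ hs))
    (pow_ne_zero _ hc)

/-- `∂_5 ∈ D_7` if `x_0 ≠ 1/2` -/
theorem single_five_mem (x : Fin 6 → ℝ) (hx : ∀ n : ℤ, x 0 ≠ n + 1 / 2) :
    (Pi.single 5 1 : Fin 6 → ℝ) ∈ flag X1 7 x := by
  apply w11_five x
  intro hc
  unfold w11_c at hc
  rw [Real.cos_eq_zero_iff] at hc
  obtain ⟨n, hn⟩ := hc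
  apply hx n
  have : Real.pi * x 0 = Real.pi * (n + 1 / 2) := by linarith
  exact mul_left_cancel₀ w11_pi this

theorem single_five_mem11 (x : Fin 6 → ℝ) : (Pi.single 5 1 : Fin 6 → ℝ) ∈ flag X1 11 x := by
  by_cases hc : w11_c (x 0) = 0
  · exact w11_deriv 4 5 contDiff_gk w11_sec3 9 11 (by norm_num) x (w11_gc hc)
  · exact w11_mono (by norm_num) x (w11_five x hc)

end MP_d22ea4_an.WD
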