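import Pool.Agent.Lib_MP_d22ea4_wd.W11
import Pool.Agent.Lib_MP_d22ea4_an.Asm6

open MeasureTheory Filter Topology Complex
open scoped ContDiff ComplexConjugate InnerProductSpace

noncomputable section

namespace MP_d22ea4_an.WD

attribute [local instance] instMeasureSpaceUnitAddCircle

theorem w12_flag_mono1 {i j : ℕ} (h : i ≤ j) (x : Fin 6 → ℝ) : flag X1 i x ≤ flag X1 j x := by
  refine Submodule.span_mono ?_
  rintro v ⟨l, hl, V, hV, rfl⟩
  exact ⟨l, hl.trans h, V, hV, rfl⟩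

theorem w12_isSection1 (i : Fin 4) : IsSection X1 (X1 i) :=
  ⟨isFrame_X1.vf i, fun _ => Submodule.subset_span ⟨i, rfl⟩⟩

theorem w12_X1_mem {j : ℕ} (hj : 1 ≤ j) (i : Fin 4) (x : Fin 6 → ℝ) : X1 i x ∈ flag X1 j x :=
  Submodule.subset_span ⟨1, hj, _, IsBracket.sec (w12_isSection1 i), rfl⟩

theorem w12_X1_zero' (x : Fin 6 → ℝ) : X1 0 x = Pi.single 0 1 := by
  funext i
  fin_cases i <;> simp [X1]

theorem w12_X1_two' (x : Fin 6 → ℝ) : X1 2 x = Pi.single 3 1 := by
  funext i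
  fin_cases i <;> simp [X1]

theorem w12_X1_one' (x : Fin 6 → ℝ) : X1 1 x = Pi.single 1 1 + Pi.single 2 (fk 4 (x 0)) := by
  funext i
  fin_cases i <;> simp [X1]

theorem w12_X1_three' (x : Fin 6 → ℝ) : X1 3 x = Pi.single 4 1 + Pi.single 5 (gk (x 0)) := by
  funext i
  fin_cases i <;> simp [X1]

theorem w12_single_mul_mem {j : ℕ} {x : Fin 6 → ℝ} (k : Fin 6) (y : ℝ)
    (hk : (Pi.single k 1 : Fin 6 → ℝ) ∈ flag X1 j x) :
    (Pi.single k y : Fin 6 → ℝ) ∈ flag X1 j x := by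
  have : (Pi.single k y : Fin 6 → ℝ) = y • Pi.single k 1 := by
    rw [← Pi.single_smul, smul_eq_mul, mul_one]
  rw [this]
  exact Submodule.smul_mem _ _ hk

theorem w12_flag_top1 (x : Fin 6 → ℝ) : flag X1 11 x = ⊤ := by
  have h2 := w12_flag_mono1 (show 9 ≤ 11 by norm_num) x (single_two_mem x)
  have h5 := single_five_mem11 x
  have h0 : (Pi.single 0 1 : Fin 6 → ℝ) ∈ flag X1 11 x := by
    rw [← w12_X1_zero' x]
    exact w12_X1_mem (by norm_num) 0 x
  have h3 : (Pi.single 3 1 : Fin 6 → ℝ) ∈ flag X1 11 x := by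
    rw [← w12_X1_two' x]
    exact w12_X1_mem (by norm_num) 2 x
  have h1 : (Pi.single 1 1 : Fin 6 → ℝ) ∈ flag X1 11 x := by
    have h := w12_X1_mem (j := 11) (by norm_num) 1 x
    rw [w12_X1_one'] at h
    have h' := Submodule.sub_mem _ h (w12_single_mul_mem 2 (fk 4 (x 0)) h2)
    rwa [add_sub_cancel_right] at h'
  have h4 : (Pi.single 4 1 : Fin 6 → ℝ) ∈ flag X1 11 x := by
    have h := w12_X1_mem (j := 11) (by norm_num) 3 x
    rw [w12_X1_three'] at h
    have h' := Submodule.sub_mem _ h (w12_single_mul_mem 5 (gk (x 0)) h5)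
    rwa [add_sub_cancel_right] at h'
  rw [eq_top_iff]
  intro v _
  have hv : v = ∑ i, (Pi.single i (v i) : Fin 6 → ℝ) := (Finset.univ_sum_single v).symm
  rw [hv]
  refine Submodule.sum_mem _ (fun i _ => w12_single_mul_mem i (v i) ?_)
  fin_cases i
  · exact h0
  · exact h1
  · exact h2
  · exact h3
  · exact h4
  · exact h5

theorem isStep_X1 : IsStep X1 11 := by
  refine ⟨w12_flag_top1, fun i hi => ⟨fun _ => 1 / 2, fun htop => ?_⟩⟩
  have h1 : (Pi.single 5 1 : Fin 6 → ℝ) ∈ flag X1 10 (fun _ => 1 / 2) := by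
    refine w12_flag_mono1 (show i ≤ 10 by omega) _ ?_
    rw [htop]
    trivial
  have h2 := flag10_half (fun _ => 1 / 2) ⟨0, by simp⟩ _ h1
  simp at h2

theorem w12_gk_half {x : ℝ} (hx : ∃ n : ℤ, x = n + 1 / 2) : gk x = 128 := by
  obtain ⟨n, rfl⟩ := hx
  have hc : Real.cos (2 * Real.pi * ((n : ℝ) + 1 / 2)) = -1 := by
    have : 2 * Real.pi * ((n : ℝ) + 1 / 2) = Real.pi + n * (2 * Real.pi) := by ring
    rw [this, Real.cos_add_int_mul_two_pi, Real.cos_pi]
  unfold gk
  rw [hc]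
  norm_num

theorem SSigma_X1 : SSigma X1 10 = {p : CoS 6 | p.1 0 = ((1 / 2 : ℝ) : UnitAddCircle) ∧
    (p.2 : EuclideanSpace ℝ (Fin 6)) 0 = 0 ∧ (p.2 : EuclideanSpace ℝ (Fin 6)) 1 = 0 ∧
    (p.2 : EuclideanSpace ℝ (Fin 6)) 2 = 0 ∧ (p.2 : EuclideanSpace ℝ (Fin 6)) 3 = 0 ∧
    (p.2 : EuclideanSpace ℝ (Fin 6)) 4 + 128 * (p.2 : EuclideanSpace ℝ (Fin 6)) 5 = 0} := by
  ext p
  constructor
  · rintro ⟨x, hx, hv⟩
    have h0 : (p.2 : EuclideanSpace ℝ (Fin 6)) 0 = 0 := by
      have := hv _ (w12_X1_mem (by norm_num) 0 x)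
      rw [w12_X1_zero'] at this
      simpa [Pi.single_apply] using this
    have h3 : (p.2 : EuclideanSpace ℝ (Fin 6)) 3 = 0 := by
      have := hv _ (w12_X1_mem (by norm_num) 2 x)
      rw [w12_X1_two'] at this
      simpa [Pi.single_apply] using this
    have h2 : (p.2 : EuclideanSpace ℝ (Fin 6)) 2 = 0 := by
      have := hv _ (w12_flag_mono1 (show 9 ≤ 10 by norm_num) x (single_two_mem x))
      simpa [Pi.single_apply] using this
    have h1 : (p.2 : EuclideanSpace ℝ (Fin 6)) 1 = 0 := by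
      have := hv _ (w12_X1_mem (by norm_num) 1 x)
      rw [w12_X1_one'] at this
      simpa [Pi.single_apply, mul_add, Finset.sum_add_distrib, h2] using this
    have h4 : (p.2 : EuclideanSpace ℝ (Fin 6)) 4 +
        (p.2 : EuclideanSpace ℝ (Fin 6)) 5 * gk (x 0) = 0 := by
      have := hv _ (w12_X1_mem (by norm_num) 3 x)
      rw [w12_X1_three'] at this
      simpa [Pi.single_apply, mul_add, Finset.sum_add_distrib] using this
    have hx0 : ∃ n : ℤ, x 0 = n + 1 / 2 := by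
      by_contra hne
      push Not at hne
      have h5 : (p.2 : EuclideanSpace ℝ (Fin 6)) 5 = 0 := by
        have := hv _ (w12_flag_mono1 (show 7 ≤ 10 by norm_num) x (single_five_mem x hne))
        simpa [Pi.single_apply] using this
      rw [h5, zero_mul, add_zero] at h4
      have hn : ‖(p.2 : EuclideanSpace ℝ (Fin 6))‖ = 1 := by simpa using p.2.2
      have hz : (p.2 : EuclideanSpace ℝ (Fin 6)) = 0 := by
        ext i
        fin_cases i
        · exact h0
        · exact h1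
        · exact h2
        · exact h3
        · exact h4
        · exact h5
      rw [hz] at hn
      simp at hn
    rw [w12_gk_half hx0] at h4
    refine ⟨?_, h0, h1, h2, h3, by linarith⟩
    obtain ⟨n, hn⟩ := hx0
    rw [← hx]
    show ((x 0 : ℝ) : UnitAddCircle) = _
    rw [hn, QuotientAddGroup.mk_add]
    have : (((n : ℤ) : ℝ) : UnitAddCircle) = 0 := by
      rw [AddCircle.coe_eq_zero_iff]
      exact ⟨n, by simp⟩
    rw [this, zero_add]
  · rintro ⟨hp, h0, h1, h2, h3, h4⟩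
    have hsurj : ∀ i, ∃ t : ℝ, ((t : ℝ) : UnitAddCircle) = p.1 i := fun i =>
      QuotientAddGroup.mk_surjective (p.1 i)
    choose y hy using hsurj
    refine ⟨fun i => if i = 0 then 1 / 2 else y i, ?_, ?_⟩
    · funext i
      by_cases hi : i = 0
      · subst hi
        simp only [pr, if_true]
        exact hp.symm
      · simp [pr, hi, hy]
    · intro v hv
      have hv2 := flag10_half _ ⟨0, by simp⟩ v hv
      rw [Fin.sum_univ_six, h0, h1, h2, h3, hv2]
      linear_combination (v 4) * h4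

theorem SSigma_nonempty : (SSigma X1 10).Nonempty := by
  rw [SSigma_X1]
  set w : EuclideanSpace ℝ (Fin 6) := WithLp.toLp 2 ![0, 0, 0, 0, -128, 1] with hw
  have hw0 : w ≠ 0 := by
    intro h
    have := congrArg (fun z : EuclideanSpace ℝ (Fin 6) => z 5) h
    simp [hw] at this
  have hn : ‖w‖ ≠ 0 := norm_ne_zero_iff.2 hw0
  refine ⟨(fun _ => ((1 / 2 : ℝ) : UnitAddCircle), ⟨‖w‖⁻¹ • w, ?_⟩), ?_⟩
  · rw [mem_sphere_zero_iff_norm, norm_smul, norm_inv, norm_norm, inv_mul_cancel₀ hn]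
  · refine ⟨rfl, ?_, ?_, ?_, ?_, ?_⟩
    · simp [hw]
    · simp [hw]
    · simp [hw]
    · simp [hw]
    · simp only [PiLp.smul_apply, smul_eq_mul]
      have h4 : w 4 = -128 := by simp [hw]
      have h5 : w 5 = 1 := by simp [hw]
      rw [h4, h5]
      ring

end MP_d22ea4_an.WD
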