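import Pool.Agent.Lib_MP_d22ea4_wd.W06
import Pool.Agent.Lib_MP_d22ea4_wd.W09
import Pool.Agent.Lib_MP_d22ea4_an.Asm2

open MeasureTheory Filter Topology Complex
open scoped ContDiff ComplexConjugate InnerProductSpace

noncomputable section

namespace MP_d22ea4_an.WD

attribute [local instance] instMeasureSpaceUnitAddCircle

/-- the expected value of the matrix element -/
def cc (gp gm : ℂ) (q : P1) : ℂ :=
  if 0 < q.1.1.1.2 then gp else if q.1.1.1.2 < 0 then gm else (gp + gm) / 2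

theorem w13_energy_le (α : S2) :
    ∫ x in (0:ℝ)..1, (‖deriv (lift (sfn α)) x‖ ^ 2 +
      Vk 4 α.1.1.1 α.1.1.2 x * ‖lift (sfn α) x‖ ^ 2) ≤ sev α := by
  rw [← state_energy α]
  have hc : Continuous (lift (sfn α)) := continuous_lift _
  have hd : Continuous (deriv (lift (sfn α))) := (state_smooth α).continuous_deriv (by simp)
  have hV : Continuous (Vk 4 α.1.1.1 α.1.1.2) := (good_Vk 4 α.1.1.1 α.1.1.2).smooth.continuous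
  have hV2 : Continuous (V2 α.1) := (good_V2 α.1).smooth.continuous
  refine intervalIntegral.integral_mono_on zero_le_one
    (Continuous.intervalIntegrable (by fun_prop) _ _)
    (Continuous.intervalIntegrable (by fun_prop) _ _) fun x _ => ?_
  have h1 : Vk 4 α.1.1.1 α.1.1.2 x ≤ V2 α.1 x := by
    unfold Vk V2
    rw [ak_eq]
    have := sq_nonneg (af gk α.1.2.1 α.1.2.2 x)
    linarith
  have h2 : Vk 4 α.1.1.1 α.1.1.2 x * ‖lift (sfn α) x‖ ^ 2 ≤ V2 α.1 x * ‖lift (sfn α) x‖ ^ 2 :=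
    mul_le_mul_of_nonneg_right h1 (by positivity)
  linarith

theorem w13_deriv_le (α : S2) :
    ∫ x in (0:ℝ)..1, ‖deriv (lift (sfn α)) x‖ ^ 2 ≤ sev α := by
  refine le_trans ?_ (w13_energy_le α)
  have hc : Continuous (lift (sfn α)) := continuous_lift _
  have hd : Continuous (deriv (lift (sfn α))) := (state_smooth α).continuous_deriv (by simp)
  have hV : Continuous (Vk 4 α.1.1.1 α.1.1.2) := (good_Vk 4 α.1.1.1 α.1.1.2).smooth.continuous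
  refine intervalIntegral.integral_mono_on zero_le_one
    (Continuous.intervalIntegrable (by fun_prop) _ _)
    (Continuous.intervalIntegrable (by fun_prop) _ _) fun x _ => ?_
  have : 0 ≤ Vk 4 α.1.1.1 α.1.1.2 x * ‖lift (sfn α) x‖ ^ 2 :=
    mul_nonneg ((good_Vk 4 α.1.1.1 α.1.1.2).nonneg x) (by positivity)
  linarith

/-- compare `out_le`; uses `loc` with `k = 4` and `(af (fk 4) ..)² ≤ V2` -/
theorem out_le1 {δ : ℝ} (hδ : 0 < δ) (hδ' : δ < 1 / 4) :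
    ∃ C R0 : ℝ, 0 < C ∧ ∀ κ s : ℝ, 1 ≤ κ → R0 ≤ κ → 1 ≤ s → ∀ α : S2, sev α ≤ s ^ 2 →
      κ ^ 3 * s ^ 3 ≤ |(α.1.1.2 : ℝ)| → ∫ x in δ..(1 - δ), ‖lift (sfn α) x‖ ^ 2 ≤ C / κ ^ 2 := by
  obtain ⟨C, R0, hC, h⟩ := loc (k := 4) (by norm_num) hδ hδ'
  refine ⟨C, |R0|, hC, fun κ s hκ hκ' hs α hα hn => ?_⟩
  have hR : R0 ≤ κ * s := by
    have h1 := le_abs_self R0
    have h2 : κ * 1 ≤ κ * s := mul_le_mul_of_nonneg_left hs (by linarith)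
    linarith
  have h1 := h (κ * s) hR α.1.1.1 α.1.1.2 (by rw [mul_pow]; exact hn) (lift (sfn α))
    ((state_smooth α).of_le (by simp)) (lift_periodic _)
  have h2 : ∫ x in (0:ℝ)..1, (‖deriv (lift (sfn α)) x‖ ^ 2 +
      (ak 4 α.1.1.1 α.1.1.2 x) ^ 2 * ‖lift (sfn α) x‖ ^ 2) ≤ s ^ 2 := (w13_energy_le α).trans hα
  have hs0 : 0 < s := by linarith
  have hκ0 : 0 < κ := by linarith
  refine h1.trans ?_
  calc C / (κ * s) ^ 2 * _ ≤ C / (κ * s) ^ 2 * s ^ 2 :=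
        mul_le_mul_of_nonneg_left h2 (by positivity)
    _ = C / κ ^ 2 := by field_simp

/-- compare `m_small` -/
theorem m_small1 {α : S2} {s κ η δ C : ℝ} (hκ : 0 < κ) (hη : 0 < η) (hs : 0 < s)
    (hδ : 0 < δ) (hδ' : δ < 1 / 4) (hev : sev α ≤ s ^ 2) (hN : κ * s ≤ |(α.1.1.2 : ℝ)|)
    (o1 : ∫ x in δ..(1 - δ), ‖lift (sfn α) x‖ ^ 2 ≤ C / κ ^ 2)
    (hδ2 : ((20 * δ ^ 2) ^ 4) ^ 2 ≤ η ^ 2 / 16)
    (k5 : 1 / κ ^ 2 ≤ η ^ 2 / 4) (k7 : (2 ^ 4) ^ 2 * (C / κ ^ 2) ≤ η ^ 2 / 16) :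
    |(α.1.1.1 : ℝ)| ≤ η * |(α.1.1.2 : ℝ)| := by
  have h1 := m_sq_le (k := 4) (state_smooth α) (state_norm α) ((w13_energy_le α).trans hev)
  have h2 := fk_sq_le (k := 4) (state_norm α) hδ hδ'
  have h3 : ∫ x in (0:ℝ)..1, (fk 4 x) ^ 2 * ‖lift (sfn α) x‖ ^ 2 ≤ η ^ 2 / 8 := by
    have : (2 ^ 4) ^ 2 * ∫ x in δ..(1 - δ), ‖lift (sfn α) x‖ ^ 2 ≤ (2 ^ 4) ^ 2 * (C / κ ^ 2) :=
      mul_le_mul_of_nonneg_left o1 (by norm_num)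
    linarith
  set N : ℝ := |(α.1.1.2 : ℝ)| with hNdef
  have h5 : (α.1.1.2 : ℝ) ^ 2 = N ^ 2 := by rw [hNdef, sq_abs]
  rw [h5] at h1
  have h4 : s ^ 2 ≤ N ^ 2 * (1 / κ ^ 2) := by
    have : κ ^ 2 * s ^ 2 ≤ N ^ 2 := by
      rw [← mul_pow]; gcongr
    rw [mul_one_div, le_div_iff₀ (by positivity)]
    linarith
  have h7 : N ^ 2 * (1 / κ ^ 2) ≤ N ^ 2 * (η ^ 2 / 4) := by gcongr
  have h8 : 2 * N ^ 2 * ∫ x in (0:ℝ)..1, (fk 4 x) ^ 2 * ‖lift (sfn α) x‖ ^ 2 ≤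
      2 * N ^ 2 * (η ^ 2 / 8) := by gcongr
  have h9 : (α.1.1.1 : ℝ) ^ 2 ≤ N ^ 2 * (η ^ 2 / 4) + 2 * N ^ 2 * (η ^ 2 / 8) := by linarith
  have h10 : N ^ 2 * (η ^ 2 / 4) + 2 * N ^ 2 * (η ^ 2 / 8) = (1 / 2) * (η * N) ^ 2 := by ring
  have h11 : 0 ≤ (η * N) ^ 2 := sq_nonneg _
  have h6 : (α.1.1.1 : ℝ) ^ 2 ≤ (η * N) ^ 2 := by linarith
  exact abs_le_of_sq_le_sq h6 (by positivity)

theorem w13_norm_I_le (α : S2) (l : ℤ) :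
    ‖∫ x in (0:ℝ)..1, Complex.exp (2 * Real.pi * I * l * x) * (‖lift (sfn α) x‖ ^ 2 : ℝ)‖ ≤ 1 := by
  refine (intervalIntegral.norm_integral_le_integral_norm zero_le_one).trans ?_
  have : ∀ x : ℝ, ‖Complex.exp (2 * Real.pi * I * l * x) *
      ((‖lift (sfn α) x‖ ^ 2 : ℝ) : ℂ)‖ = ‖lift (sfn α) x‖ ^ 2 := by
    intro x
    have h : (2 * Real.pi * I * l * x : ℂ) = ((2 * Real.pi * l * x : ℝ) : ℂ) * I := by
      push_cast; ring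
    rw [norm_mul, h, Complex.norm_exp_ofReal_mul_I, Complex.norm_real,
      Real.norm_of_nonneg (by positivity), one_mul]
  simp_rw [this]
  rw [state_norm]

theorem w13_lift_fourier (a : ℤ) :
    lift (fourier a : C(UnitAddCircle, ℂ)) =
      fun x : ℝ => Complex.exp (((2 * Real.pi * a * x : ℝ) : ℂ) * I) := by
  funext x
  unfold lift
  rw [fourier_coe_apply]
  congr 1
  push_cast
  ring

theorem w13_norm_fourier (a : ℤ) (x : ℝ) : ‖lift (fourier a : C(UnitAddCircle, ℂ)) x‖ = 1 := by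
  rw [w13_lift_fourier]
  exact Complex.norm_exp_ofReal_mul_I _

theorem w13_hasDeriv_fourier (a : ℤ) (x : ℝ) :
    HasDerivAt (lift (fourier a : C(UnitAddCircle, ℂ)))
      (lift (fourier a : C(UnitAddCircle, ℂ)) x * (((2 * Real.pi * a : ℝ) : ℂ) * I)) x := by
  rw [w13_lift_fourier]
  have h1 : HasDerivAt (fun x : ℝ => 2 * Real.pi * a * x) (2 * Real.pi * a) x := by
    simpa using (hasDerivAt_id x).const_mul (2 * Real.pi * (a : ℝ))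
  have h2 : HasDerivAt (fun x : ℝ => (((2 * Real.pi * a * x : ℝ) : ℂ) * I))
      (((2 * Real.pi * a : ℝ) : ℂ) * I) x := (h1.ofReal_comp).mul_const I
  exact h2.cexp

theorem w13_smooth_fourier (a : ℤ) : ContDiff ℝ 1 (lift (fourier a : C(UnitAddCircle, ℂ))) := by
  rw [w13_lift_fourier]
  have h0 : ContDiff ℝ 1 (fun x : ℝ => 2 * Real.pi * a * x) := by fun_prop
  have h : ContDiff ℝ 1 (fun x : ℝ => ((2 * Real.pi * a * x : ℝ) : ℂ)) :=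
    Complex.ofRealCLM.contDiff.comp h0
  exact (h.mul contDiff_const).cexp

theorem w13_deriv_fourier (a : ℤ) :
    ∫ x in (0:ℝ)..1, ‖deriv (lift (fourier a : C(UnitAddCircle, ℂ))) x‖ ^ 2 =
      4 * Real.pi ^ 2 * (a : ℝ) ^ 2 := by
  have : ∀ x : ℝ, ‖deriv (lift (fourier a : C(UnitAddCircle, ℂ))) x‖ ^ 2 =
      4 * Real.pi ^ 2 * (a : ℝ) ^ 2 := by
    intro x
    rw [(w13_hasDeriv_fourier a x).deriv, norm_mul, w13_norm_fourier, one_mul, norm_mul,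
      Complex.norm_I, mul_one, Complex.norm_real, Real.norm_eq_abs, sq_abs]
    ring
  simp_rw [this]
  simp

theorem w13_matrix_close {l : Fin 6 → ℤ} {g : (Fin 6 → ℤ) → ℂ} {T : L2T 6 →L[ℂ] L2T 6}
    (hT : IsMD l g T) (hl : l 1 = 0 ∧ l 2 = 0 ∧ l 3 = 0 ∧ l 4 = 0 ∧ l 5 = 0) {G : ℝ}
    (hG : ∀ k, ‖g k‖ ≤ G) {ε η κ s δ C : ℝ} (hε : 0 < ε) (hη : 0 < η) (hκ : 0 < κ)
    (hs : 0 < s) (hδ : 0 < δ) (hδ' : δ < 1 / 4) (q : P1) (hp : nu q ≤ s ^ 2)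
    (hn0 : q.1.1.1.2 ≠ 0) (hN : κ * s ≤ |(q.1.1.1.2 : ℝ)|)
    (o1 : ∫ x in δ..(1 - δ), ‖lift (sfn q.1) x‖ ^ 2 ≤ C / κ ^ 2)
    (k4 : 2 * G / (η * κ) ≤ ε / 4)
    (k5 : G * (2 * Real.pi * |(l 0 : ℝ)| * δ) ≤ ε / 8)
    (k6 : G * (2 * (C / κ ^ 2)) ≤ ε / 8) (c0 : ℂ) (hc0 : ‖c0‖ ≤ G)
    (hgk : ∀ k : Fin 6 → ℤ, k 1 = q.1.1.1.1 → k 2 = q.1.1.1.2 → k 4 = q.1.1.2.1 →
      k 5 = q.1.1.2.2 → |(k 0 : ℝ)| ≤ η * |(q.1.1.1.2 : ℝ)| →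
      |(k 3 : ℝ)| ≤ η * |(q.1.1.1.2 : ℝ)| → ‖g k - c0‖ ≤ ε / 4) :
    ‖⟪PB q, T (PB q)⟫_ℂ - c0‖ ≤ ε := by
  have hG0 : 0 ≤ G := (norm_nonneg _).trans hc0
  have hp' : sev q.1 + 4 * Real.pi ^ 2 * (q.2 : ℝ) ^ 2 ≤ s ^ 2 := hp
  have hv1 : ∫ x in (0:ℝ)..1, ‖lift (fourier q.2 : C(UnitAddCircle, ℂ)) x‖ ^ 2 = 1 := by
    simp_rw [w13_norm_fourier]
    simp
  have h1 := prod_matrix_est hT ⟨hl.1, hl.2.1, hl.2.2.2.1, hl.2.2.2.2⟩ q.1.1.1.1 q.1.1.1.2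
    q.1.1.2.1 q.1.1.2.2 hn0 (u := sfn q.1) (v := fourier q.2)
    ((state_smooth q.1).of_le (by simp)) (w13_smooth_fourier q.2) (state_norm q.1)
    hv1 (by positivity : 0 ≤ ε / 4) hη hG hc0 hgk
  have i1 := (osc_le (state_norm q.1) (l 0) hδ hδ')
  have hsq := sqrt_aux (D := (∫ x in (0:ℝ)..1, ‖deriv (lift (sfn q.1)) x‖ ^ 2) +
          (∫ x in (0:ℝ)..1, ‖deriv (lift (fourier q.2 : C(UnitAddCircle, ℂ))) x‖ ^ 2))
          (s := s) (η := η) (N := |(q.1.1.1.2 : ℝ)|) (κ := κ)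
          ((add_le_add (w13_deriv_le q.1) (w13_deriv_fourier q.2).le).trans hp') hη hκ hs hN
  rw [PB_apply]
  have hI2 : (∫ x in (0:ℝ)..1, Complex.exp (2 * Real.pi * I * (l 3) * x) *
      (‖lift (fourier q.2 : C(UnitAddCircle, ℂ)) x‖ ^ 2 : ℝ)) = 1 := by
    simp_rw [w13_norm_fourier]
    rw [hl.2.2.1]
    simp
  rw [hI2, mul_one] at h1
  change ‖⟪cls (prodS q), T (cls (prodS q))⟫_ℂ - _‖ ≤ _ at h1
  set x := ⟪cls (prodS q), T (cls (prodS q))⟫_ℂ with hx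
  set I1 : ℂ := ∫ x in (0:ℝ)..1, Complex.exp (2 * Real.pi * I * (l 0) * x) *
    (‖lift (sfn q.1) x‖ ^ 2 : ℝ) with hI1
  have h2 : ‖x - c0 * I1‖ ≤ ε / 4 + ε / 4 := by
    refine h1.trans ?_
    have h7 : 2 * G * Real.sqrt (((∫ x in (0:ℝ)..1, ‖deriv (lift (sfn q.1)) x‖ ^ 2) +
        (∫ x in (0:ℝ)..1, ‖deriv (lift (fourier q.2 : C(UnitAddCircle, ℂ))) x‖ ^ 2)) /
          (η * |(q.1.1.1.2 : ℝ)|) ^ 2) ≤
        2 * G * (1 / (η * κ)) := mul_le_mul_of_nonneg_left hsq (by positivity)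
    have h8 : 2 * G * (1 / (η * κ)) = 2 * G / (η * κ) := by ring
    rw [h8] at h7
    exact add_le_add le_rfl (h7.trans k4)
  have h9 : ‖c0 * I1 - c0‖ ≤ ε / 8 + ε / 8 := by
    have e1 : c0 * I1 - c0 = c0 * (I1 - 1) := by ring
    rw [e1, norm_mul]
    have i1' : ‖I1 - 1‖ ≤ 2 * Real.pi * |(l 0 : ℝ)| * δ + 2 * (C / κ ^ 2) := by linarith
    calc ‖c0‖ * ‖I1 - 1‖ ≤ G * (2 * Real.pi * |(l 0 : ℝ)| * δ + 2 * (C / κ ^ 2)) :=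
          mul_le_mul hc0 i1' (norm_nonneg _) hG0
      _ = G * (2 * Real.pi * |(l 0 : ℝ)| * δ) + G * (2 * (C / κ ^ 2)) := by ring
      _ ≤ ε / 8 + ε / 8 := add_le_add k5 k6
  have h10 : x - c0 = (x - c0 * I1) + (c0 * I1 - c0) := by ring
  rw [h10]
  refine (norm_add_le _ _).trans ?_
  linarith

/-- the choice of `δ` -/
theorem w13_choose_delta {G L η ε : ℝ} (hG0 : 0 ≤ G) (hL0 : 0 ≤ L) (hη : 0 < η) (hε : 0 < ε) :
    ∃ δ : ℝ, 0 < δ ∧ δ < 1 / 4 ∧ G * (2 * Real.pi * L * δ) ≤ ε / 8 ∧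
      ((20 * δ ^ 2) ^ 4) ^ 2 ≤ η ^ 2 / 16 := by
  have hπ := Real.pi_pos
  set δ : ℝ := min (1 / 8) (min (η ^ 2 / 40) (ε / (8 * ((G + 1) * (2 * Real.pi * (L + 1))))))
    with hδdef
  have hδ : 0 < δ := lt_min (by norm_num) (lt_min (by positivity) (by positivity))
  have hδ8 : δ ≤ 1 / 8 := min_le_left _ _
  have hδη : δ ≤ η ^ 2 / 40 := (min_le_right _ _).trans (min_le_left _ _)
  have hδε : δ ≤ ε / (8 * ((G + 1) * (2 * Real.pi * (L + 1)))) :=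
    (min_le_right _ _).trans (min_le_right _ _)
  refine ⟨δ, hδ, by linarith, ?_, ?_⟩
  · calc G * (2 * Real.pi * L * δ) ≤ (G + 1) * (2 * Real.pi * (L + 1) *
          (ε / (8 * ((G + 1) * (2 * Real.pi * (L + 1)))))) := by
          gcongr <;> linarith
      _ = ε / 8 := by field_simp
  · have h1 : 20 * δ ^ 2 ≤ 1 := by nlinarith
    have h0 : 0 ≤ 20 * δ ^ 2 := by positivity
    have h2 : ((20 * δ ^ 2) ^ 4) ^ 2 ≤ 20 * δ ^ 2 := by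
      rw [← pow_mul]
      exact pow_le_of_le_one h0 h1 (by norm_num)
    refine h2.trans ?_
    nlinarith

/-- compare `good_pair` -/
theorem good_pair1 {l : Fin 6 → ℤ} {g : (Fin 6 → ℤ) → ℂ} {T : L2T 6 →L[ℂ] L2T 6}
    (hT : IsMD l g T) (hl : l 1 = 0 ∧ l 2 = 0 ∧ l 3 = 0 ∧ l 4 = 0 ∧ l 5 = 0) {G : ℝ} {gp gm : ℂ}
    (hG : ∀ k, ‖g k‖ ≤ G) (hgp : ‖gp‖ ≤ G) (hgm : ‖gm‖ ≤ G) (hN : NearLim g gp gm) {ε : ℝ}
    (hε : 0 < ε) : ∃ κ : ℝ, 1 ≤ κ ∧ ∀ s : ℝ, 1 ≤ s → ∀ q : P1, nu q ≤ s ^ 2 → q ∉ Bad κ s →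
      ‖⟪PB q, T (PB q)⟫_ℂ - cc gp gm q‖ ≤ ε := by
  have hG0 : 0 ≤ G := (norm_nonneg _).trans hgp
  obtain ⟨η1, hη1, hpos⟩ := hN.pos (ε / 4) (by positivity)
  obtain ⟨η2, hη2, hneg⟩ := hN.neg (ε / 4) (by positivity)
  obtain ⟨η, hη, hηle1, hηle2⟩ : ∃ η : ℝ, 0 < η ∧ η ≤ η1 ∧ η ≤ η2 :=
    ⟨min η1 η2, lt_min hη1 hη2, min_le_left _ _, min_le_right _ _⟩
  obtain ⟨δ, hδ, hδ', hδ1, hδ2⟩ := w13_choose_delta (L := |(l 0 : ℝ)|) hG0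
    (by positivity) hη hε
  obtain ⟨C, R0, hC, hout⟩ := out_le1 hδ hδ'
  obtain ⟨C3, hC3, hfar⟩ := far_or_near
  obtain ⟨κ, hκ1, kR, kR', k3, k4, k5, k6, k7⟩ :=
    choose_kappa (C3 := C3) (R0 := R0) (R0' := C3) (C := 4 * C) (C' := 1) hG0 hη hε
      (by positivity) one_pos
  refine ⟨κ, hκ1, fun s hs q hp hbad => ?_⟩
  have hκ0 : 0 < κ := by linarith
  have hs0 : 0 < s := by linarith
  have e1 : sev q.1 ≤ s ^ 2 := by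
    have h1 : sev q.1 + 4 * Real.pi ^ 2 * (q.2 : ℝ) ^ 2 ≤ s ^ 2 := hp
    have h2 : 0 ≤ 4 * Real.pi ^ 2 * (q.2 : ℝ) ^ 2 := by positivity
    linarith
  have hb1 : κ ^ 3 * s ^ 8 < |(q.1.1.1.2 : ℝ)| := by
    unfold Bad at hbad
    simp only [Set.mem_ofPred_eq, not_and, not_le] at hbad
    exact hbad hp
  have hκ3 : κ ≤ κ ^ 3 := le_self_pow₀ hκ1 (by norm_num)
  have hN8 : κ * s ^ 8 ≤ |(q.1.1.1.2 : ℝ)| := by
    have h2 : κ * s ^ 8 ≤ κ ^ 3 * s ^ 8 := mul_le_mul_of_nonneg_right hκ3 (by positivity)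
    linarith
  have hN1 : κ * s ≤ |(q.1.1.1.2 : ℝ)| := by
    have h1 : s ≤ s ^ 8 := le_self_pow₀ hs (by norm_num)
    have h2 : κ * s ≤ κ * s ^ 8 := mul_le_mul_of_nonneg_left h1 hκ0.le
    linarith
  have hN0 : 0 < |(q.1.1.1.2 : ℝ)| := lt_of_lt_of_le (by positivity) hN1
  have hn0 : q.1.1.1.2 ≠ 0 := by
    intro h
    rw [h] at hN0
    simp at hN0
  -- localisation
  have o1 : ∫ x in δ..(1 - δ), ‖lift (sfn q.1) x‖ ^ 2 ≤ C / κ ^ 2 := by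
    refine hout κ s hκ1 kR hs q.1 e1 ?_
    have h1 : s ^ 3 ≤ s ^ 8 := pow_le_pow_right₀ hs (by norm_num)
    have h2 : κ ^ 3 * s ^ 3 ≤ κ ^ 3 * s ^ 8 := mul_le_mul_of_nonneg_left h1 (by positivity)
    linarith
  -- the other frequencies
  obtain ⟨z2, z1⟩ : |(q.1.1.2.2 : ℝ)| ≤ C3 * s ^ 7 ∧ |(q.1.1.2.1 : ℝ)| ≤ C3 * s ^ 7 := by
    rcases hfar s hs q.1 e1 with h | h
    · exfalso
      have h1 : s ^ 3 ≤ s ^ 8 := pow_le_pow_right₀ hs (by norm_num)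
      have h2 : C3 * s ^ 3 ≤ κ ^ 3 * s ^ 8 :=
        mul_le_mul (kR'.trans hκ3) h1 (by positivity) (by positivity)
      linarith
    · exact h
  have z3 : ∀ y : ℝ, y ≤ C3 * s ^ 7 → y ≤ η * |(q.1.1.1.2 : ℝ)| := by
    intro y hy
    have h5 : 0 ≤ s ^ 8 := by positivity
    have h6 : s ^ 7 ≤ s ^ 8 := pow_le_pow_right₀ hs (by norm_num)
    calc y ≤ C3 * s ^ 7 := hy
      _ ≤ |C3| * s ^ 8 := mul_le_mul (le_abs_self C3) h6 (by positivity) (abs_nonneg _)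
      _ ≤ (η * κ) * s ^ 8 := mul_le_mul_of_nonneg_right k3 h5
      _ = η * (κ * s ^ 8) := by ring
      _ ≤ η * |(q.1.1.1.2 : ℝ)| := mul_le_mul_of_nonneg_left hN8 hη.le
  have z1' := z3 _ z1
  have z2' := z3 _ z2
  have k7' : (2 ^ 4) ^ 2 * (C / κ ^ 2) ≤ η ^ 2 / 16 := by
    have : (2 ^ 4) ^ 2 * (C / κ ^ 2) = (2 ^ 3) ^ 2 * (4 * C / κ ^ 2) := by ring
    rw [this]; exact k7
  have k6' : G * (2 * (C / κ ^ 2)) ≤ ε / 8 := by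
    refine le_trans ?_ k6
    have h1 : C / κ ^ 2 ≤ 4 * C / κ ^ 2 := by
      apply div_le_div_of_nonneg_right _ (by positivity)
      linarith
    have h2 : 0 ≤ 1 / κ ^ 2 := by positivity
    apply mul_le_mul_of_nonneg_left _ hG0
    linarith
  have z4 : |(q.1.1.1.1 : ℝ)| ≤ η * |(q.1.1.1.2 : ℝ)| :=
    m_small1 hκ0 hη hs0 hδ hδ' e1 hN1 o1 hδ2 k5 k7'
  have key := w13_matrix_close hT hl hG hε hη hκ0 hs0 hδ hδ' q hp hn0 hN1 o1 k4 hδ1 k6'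
  have hall : ∀ k : Fin 6 → ℤ, k 1 = q.1.1.1.1 → k 2 = q.1.1.1.2 → k 4 = q.1.1.2.1 →
      k 5 = q.1.1.2.2 →
      |(k 0 : ℝ)| ≤ η * |(q.1.1.1.2 : ℝ)| → |(k 3 : ℝ)| ≤ η * |(q.1.1.1.2 : ℝ)| →
      ∀ i, i ≠ 2 → |(k i : ℝ)| ≤ η * |(k 2 : ℝ)| := by
    intro k q1 q2 q4 q5 q0 q3 i hi
    rw [q2]
    fin_cases i
    · exact q0
    · show |(k 1 : ℝ)| ≤ _
      rw [q1]; exact z4
    · exact absurd rfl hi
    · exact q3
    · show |(k 4 : ℝ)| ≤ _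
      rw [q4]; exact z1'
    · show |(k 5 : ℝ)| ≤ _
      rw [q5]; exact z2'
  have hle : ∀ {y z η' : ℝ}, η ≤ η' → 0 ≤ z → y ≤ η * z → y ≤ η' * z := by
    intro y z η' h1 h2 h3
    exact h3.trans (mul_le_mul_of_nonneg_right h1 h2)
  rcases lt_or_gt_of_ne hn0 with hlt | hgt
  · have hc : cc gp gm q = gm := by
      unfold cc
      rw [if_neg (by omega), if_pos hlt]
    rw [hc]
    refine key gm hgm fun k q1 q2 q4 q5 q0 q3 => hneg k (by rw [q2]; exact hlt) fun i hi => ?_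
    exact hle hηle2 (abs_nonneg _) (hall k q1 q2 q4 q5 q0 q3 i hi)
  · have hc : cc gp gm q = gp := by
      unfold cc
      rw [if_pos hgt]
    rw [hc]
    refine key gp hgp fun k q1 q2 q4 q5 q0 q3 => hpos k (by rw [q2]; exact hgt) fun i hi => ?_
    exact hle hηle1 (abs_nonneg _) (hall k q1 q2 q4 q5 q0 q3 i hi)

end MP_d22ea4_an.WD
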