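import Pool.Agent.Lib_MP_d22ea4_wd.W07
import Pool.Agent.Lib_MP_d22ea4_wd.W13

open MeasureTheory Filter Topology Complex
open scoped ContDiff ComplexConjugate InnerProductSpace

noncomputable section

namespace MP_d22ea4_an.WD

attribute [local instance] instMeasureSpaceUnitAddCircle

/-- the indices with eigenvalue at most `t` -/
def FF (t : ℝ) : Finset P1 := (nu_finite t).toFinset

theorem mem_FF {t : ℝ} {p : P1} : p ∈ FF t ↔ nu p ≤ t := by
  unfold FF
  rw [Set.Finite.mem_toFinset]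
  rfl

theorem card_FF (t : ℝ) : (FF t).card = NN t := by
  unfold FF NN
  rw [Set.ncard_eq_toFinset_card _ (nu_finite t)]

theorem average_eq (A : L2T 6 →L[ℂ] L2T 6) (t : ℝ) :
    average PB nu A t = (∑ p ∈ FF t, ⟪PB p, A (PB p)⟫_ℂ) / ((FF t).card : ℂ) := by
  unfold average
  rw [card_FF, NN]
  congr 1
  exact finsum_mem_eq_finite_toFinset_sum _ (nu_finite t)

/-- compare `sum_cc` -/
theorem sum_cc (gp gm : ℂ) (t : ℝ) :
    ∑ p ∈ FF t, cc gp gm p = ((FF t).card : ℂ) * ((gp + gm) / 2) := by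
  obtain ⟨σ, hσ⟩ := exists_flip
  set τ : P1 ≃ P1 := Equiv.prodCongr σ (Equiv.refl _) with hτ
  have h1 : ∑ p ∈ FF t, cc gp gm p = ∑ p ∈ FF t, cc gp gm (τ p) := by
    symm
    refine Finset.sum_equiv τ (fun p => ?_) (fun p _ => rfl)
    rw [mem_FF, mem_FF]
    have : nu (τ p) = nu p := by
      show sev (σ p.1) + 4 * Real.pi ^ 2 * (p.2 : ℝ) ^ 2 =
        sev p.1 + 4 * Real.pi ^ 2 * (p.2 : ℝ) ^ 2
      rw [(hσ p.1).1]
    rw [this]
  have h2 : ∀ p : P1, cc gp gm p + cc gp gm (τ p) = gp + gm := by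
    intro p
    have h3 : (τ p).1.1.1.2 = - p.1.1.1.2 := (hσ p.1).2
    unfold cc
    rw [h3]
    rcases lt_trichotomy p.1.1.1.2 0 with h | h | h
    · rw [if_neg (by omega), if_pos h, if_pos (by omega)]; ring
    · rw [h]; norm_num
    · rw [if_pos h, if_neg (by omega), if_pos (by omega)]
  have h4 : 2 * ∑ p ∈ FF t, cc gp gm p = ((FF t).card : ℂ) * (gp + gm) := by
    rw [two_mul]
    nth_rewrite 2 [h1]
    rw [← Finset.sum_add_distrib, Finset.sum_congr rfl fun p _ => h2 p]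
    rw [Finset.sum_const, nsmul_eq_mul]
  linear_combination (1 / 2 : ℂ) * h4

theorem norm_cc_le {gp gm : ℂ} {G : ℝ} (hgp : ‖gp‖ ≤ G) (hgm : ‖gm‖ ≤ G) (p : P1) :
    ‖cc gp gm p‖ ≤ G := by
  unfold cc
  split_ifs
  · exact hgp
  · exact hgm
  · rw [norm_div]
    have := norm_add_le gp gm
    have h2 : ‖(2:ℂ)‖ = 2 := by norm_num
    rw [h2]
    linarith

theorem NN_tendsto : Tendsto (fun t : ℝ => NN t) atTop atTop := by
  obtain ⟨c, hc, h⟩ := NN_lower
  rw [tendsto_atTop]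
  intro b
  filter_upwards [eventually_ge_atTop (max 4 ((b : ℝ) / c))] with t ht
  have ht4 : (4:ℝ) ≤ t := (le_max_left _ _).trans ht
  have htb : (b : ℝ) / c ≤ t := (le_max_right _ _).trans ht
  have ht0 : 0 ≤ t := by linarith
  have hs : (2:ℝ) ≤ Real.sqrt t := by
    rw [show (2:ℝ) = Real.sqrt 4 by
      rw [show (4:ℝ) = 2 ^ 2 by norm_num, Real.sqrt_sq (by norm_num)]]
    exact Real.sqrt_le_sqrt ht4
  have h1 := h _ hs
  rw [Real.sq_sqrt ht0] at h1
  have h2 : Real.sqrt t ^ 19 = t ^ 9 * Real.sqrt t := by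
    rw [show 19 = 2 * 9 + 1 by norm_num, pow_succ, pow_mul, Real.sq_sqrt ht0]
  rw [h2] at h1
  have h3 : t ≤ t ^ 9 * Real.sqrt t := by
    have h31 : t ≤ t ^ 9 := le_self_pow₀ (by linarith) (by norm_num)
    have h32 : t ^ 9 * 1 ≤ t ^ 9 * Real.sqrt t :=
      mul_le_mul_of_nonneg_left (by linarith) (by positivity)
    linarith
  have h4 : (b : ℝ) ≤ c * t := by
    rw [div_le_iff₀ hc] at htb
    linarith
  have h5 : (b : ℝ) ≤ (NN t : ℝ) := by
    calc (b : ℝ) ≤ c * t := h4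
      _ ≤ c * (t ^ 9 * Real.sqrt t) := mul_le_mul_of_nonneg_left h3 hc.le
      _ ≤ _ := h1
  exact_mod_cast h5

theorem avg_MD_good {l : Fin 6 → ℤ} {g : (Fin 6 → ℤ) → ℂ} {T : L2T 6 →L[ℂ] L2T 6}
    (hT : IsMD l g T) (hl : l 1 = 0 ∧ l 2 = 0 ∧ l 3 = 0 ∧ l 4 = 0 ∧ l 5 = 0) {G : ℝ} {gp gm : ℂ}
    (hG : ∀ k, ‖g k‖ ≤ G) (hgp : ‖gp‖ ≤ G) (hgm : ‖gm‖ ≤ G) (hN : NearLim g gp gm) :
    Tendsto (average PB nu T) atTop (𝓝 ((gp + gm) / 2)) := by
  rw [Metric.tendsto_atTop]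
  intro ε hε
  obtain ⟨κ, hκ, hgood⟩ := good_pair1 hT hl hG hgp hgm hN (half_pos hε)
  obtain ⟨C, hC⟩ := bad_upper κ hκ
  obtain ⟨c, hc, hlow⟩ := NN_lower
  have hG0 : 0 ≤ G := (norm_nonneg _).trans hgp
  set B : ℝ := ‖T‖ + G with hB
  have hB0 : 0 ≤ B := by positivity
  -- threshold
  refine ⟨(max 2 (4 * B * |C| / (c * ε))) ^ 2, fun t ht => ?_⟩
  set s := Real.sqrt t with hs
  have ht0 : 0 ≤ t := le_trans (sq_nonneg _) ht
  have hs1 : max 2 (4 * B * |C| / (c * ε)) ≤ s := by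
    rw [hs]
    apply Real.le_sqrt_of_sq_le ht
  have hs2 : 2 ≤ s := (le_max_left _ _).trans hs1
  have hs3 : 4 * B * |C| / (c * ε) ≤ s := (le_max_right _ _).trans hs1
  have hst : s ^ 2 = t := Real.sq_sqrt ht0
  have hs0 : 0 < s := by linarith
  rw [← hst, average_eq]
  have hlow' := hlow s hs2
  rw [← card_FF] at hlow'
  set n : ℝ := ((FF (s ^ 2)).card : ℝ) with hn
  have hn0 : 0 < n := lt_of_lt_of_le (by positivity) hlow'
  have hn0' : ((FF (s ^ 2)).card : ℂ) ≠ 0 := by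
    have : (n : ℂ) ≠ 0 := by exact_mod_cast hn0.ne'
    rw [hn] at this
    exact_mod_cast this
  set x : P1 → ℂ := fun p => ⟪PB p, T (PB p)⟫_ℂ with hx
  have hxB : ∀ p, ‖x p - cc gp gm p‖ ≤ B := by
    intro p
    refine (norm_sub_le _ _).trans (add_le_add ?_ (norm_cc_le hgp hgm p))
    refine (norm_inner_le_norm _ _).trans ?_
    have h1 : ‖PB p‖ = 1 := PB.orthonormal.norm_eq_one p
    have h2 := T.le_opNorm (PB p)
    rw [h1] at h2 ⊢
    linarith
  have e1 : (∑ p ∈ FF (s ^ 2), x p) / ((FF (s ^ 2)).card : ℂ) - (gp + gm) / 2 =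
      (∑ p ∈ FF (s ^ 2), (x p - cc gp gm p)) / ((FF (s ^ 2)).card : ℂ) := by
    rw [Finset.sum_sub_distrib, sum_cc]
    field_simp
  rw [dist_eq_norm]
  have e2 : (∑ p ∈ FF (s ^ 2), ⟪PB p, T (PB p)⟫_ℂ) = ∑ p ∈ FF (s ^ 2), x p := rfl
  rw [e2, e1, norm_div, Complex.norm_natCast, ← hn]
  rw [div_lt_iff₀ hn0]
  classical
  have hsplit : ‖∑ p ∈ FF (s ^ 2), (x p - cc gp gm p)‖ ≤ ε / 2 * n + B * (Bad κ s).ncard := by
    rw [← Finset.sum_filter_add_sum_filter_not (FF (s ^ 2)) (fun p => p ∈ Bad κ s)]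
    refine (norm_add_le _ _).trans ?_
    have b1 : ‖∑ p ∈ (FF (s ^ 2)).filter (fun p => p ∈ Bad κ s), (x p - cc gp gm p)‖ ≤
        B * (Bad κ s).ncard := by
      refine (norm_sum_le _ _).trans ?_
      refine (Finset.sum_le_card_nsmul _ _ B fun p _ => hxB p).trans ?_
      rw [nsmul_eq_mul, mul_comm]
      apply mul_le_mul_of_nonneg_left _ hB0
      have : ((FF (s ^ 2)).filter (fun p => p ∈ Bad κ s)).card ≤ (Bad κ s).ncard := by
        rw [Set.ncard_eq_toFinset_card _ (bad_finite κ s)]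
        apply Finset.card_le_card
        intro p hp
        rw [Finset.mem_filter] at hp
        rw [Set.Finite.mem_toFinset]
        exact hp.2
      exact_mod_cast this
    have b2 : ‖∑ p ∈ (FF (s ^ 2)).filter (fun p => ¬ p ∈ Bad κ s), (x p - cc gp gm p)‖ ≤
        ε / 2 * n := by
      refine (norm_sum_le _ _).trans ?_
      refine (Finset.sum_le_card_nsmul _ _ (ε / 2) fun p hp => ?_).trans ?_
      · rw [Finset.mem_filter, mem_FF] at hp
        exact hgood s (by linarith) p hp.1 hp.2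
      · rw [nsmul_eq_mul, mul_comm]
        apply mul_le_mul_of_nonneg_left _ (by positivity)
        rw [hn]
        exact_mod_cast Finset.card_filter_le _ _
    linarith
  have hbad := hC s (by linarith)
  have h7 : B * (Bad κ s).ncard ≤ ε / 4 * n := by
    calc B * (Bad κ s).ncard ≤ B * (|C| * s ^ 18) := by
          apply mul_le_mul_of_nonneg_left _ hB0
          exact hbad.trans (mul_le_mul_of_nonneg_right (le_abs_self C) (by positivity))
      _ = (B * |C|) * s ^ 18 := by ring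
      _ ≤ (ε / 4 * c * s) * s ^ 18 := by
          apply mul_le_mul_of_nonneg_right _ (by positivity)
          rw [div_le_iff₀ (by positivity)] at hs3
          linarith
      _ = ε / 4 * (c * s ^ 19) := by ring
      _ ≤ ε / 4 * n := mul_le_mul_of_nonneg_left hlow' (by positivity)
  have h8 : 0 < ε * n := by positivity
  linarith

theorem fc_fourier (a n : ℤ) : fourierCoeff (fourier a : UnitAddCircle → ℂ) n =
    if n = a then 1 else 0 := by
  rw [fourierCoeff_fourier]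
  by_cases h : n = a
  · subst h
    simp
  · rw [if_neg h, Pi.single_apply, if_neg h]

theorem matrix_zero1 {l : Fin 6 → ℤ} {g : (Fin 6 → ℤ) → ℂ} {T : L2T 6 →L[ℂ] L2T 6}
    (hT : IsMD l g T) (hl : l 1 ≠ 0 ∨ l 2 ≠ 0 ∨ l 3 ≠ 0 ∨ l 4 ≠ 0 ∨ l 5 ≠ 0)
    (m1 n1 m2 n2 : ℤ) (u : C(UnitAddCircle, ℂ)) (a : ℤ) :
    ⟪cls (prodFn m1 n1 m2 n2 u (fourier a)),
      T (cls (prodFn m1 n1 m2 n2 u (fourier a)))⟫_ℂ = 0 := by
  set Φ : L2T 6 := cls (prodFn m1 n1 m2 n2 u (fourier a)) with hΦ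
  have h := (mxB 6).hasSum_inner_mul_inner Φ (T Φ)
  simp only [mx_fB_apply] at h
  have h0 : ∀ k : Fin 6 → ℤ, ⟪Φ, cls (expo k)⟫_ℂ * ⟪cls (expo k), T Φ⟫_ℂ = 0 := fun k => by
    rw [mx_md_coeff hT, ← inner_conj_symm Φ (cls (expo k)), hΦ, prod_coeff, prod_coeff,
      fc_fourier, fc_fourier]
    by_cases h3 : k 3 = a
    · by_cases h3' : (k - l) 3 = a
      · split_ifs with h1 h2
        · exfalso
          simp only [Pi.sub_apply] at h2 h3'
          omega
        · simp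
        · simp
        · simp
      · rw [if_neg h3']
        simp
    · rw [if_neg h3]
      simp
  simp only [h0] at h
  exact h.unique hasSum_zero

/-- compare `avg_MD_zero` and `prod_matrix_zero`; new: the case `l 3 ≠ 0` -/
theorem avg_MD_zero {l : Fin 6 → ℤ} {g : (Fin 6 → ℤ) → ℂ} {T : L2T 6 →L[ℂ] L2T 6}
    (hT : IsMD l g T) (hl : l 1 ≠ 0 ∨ l 2 ≠ 0 ∨ l 3 ≠ 0 ∨ l 4 ≠ 0 ∨ l 5 ≠ 0) :
    Tendsto (average PB nu T) atTop (𝓝 0) := by
  have : average PB nu T = fun _ => 0 := by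
    funext t
    rw [average_eq]
    have h : ∀ p ∈ FF t, ⟪PB p, T (PB p)⟫_ℂ = 0 := by
      intro p _
      rw [PB_apply]
      exact matrix_zero1 hT hl _ _ _ _ _ _
    rw [Finset.sum_eq_zero h, zero_div]
  rw [this]
  exact tendsto_const_nhds

theorem norm_average_le (A : L2T 6 →L[ℂ] L2T 6) (t : ℝ) : ‖average PB nu A t‖ ≤ ‖A‖ := by
  rw [average_eq, norm_div, Complex.norm_natCast]
  rcases Nat.eq_zero_or_pos (FF t).card with h | h
  · rw [h]; simp
  · rw [div_le_iff₀ (by exact_mod_cast h)]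
    refine (norm_sum_le _ _).trans ?_
    refine (Finset.sum_le_card_nsmul _ _ ‖A‖ fun p _ => ?_).trans ?_
    · refine (norm_inner_le_norm _ _).trans ?_
      have h1 : ‖PB p‖ = 1 := PB.orthonormal.norm_eq_one p
      have h2 := A.le_opNorm (PB p)
      rw [h1] at h2 ⊢
      linarith
    · rw [nsmul_eq_mul, mul_comm]

theorem average_add (A B : L2T 6 →L[ℂ] L2T 6) (t : ℝ) :
    average PB nu (A + B) t = average PB nu A t + average PB nu B t := by
  rw [average_eq, average_eq, average_eq, ← add_div, ← Finset.sum_add_distrib]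
  congr 1
  refine Finset.sum_congr rfl fun p _ => ?_
  rw [add_apply, inner_add_right]

theorem hasSum_average {L : Type*} {T : L → (L2T 6 →L[ℂ] L2T 6)} {A : L2T 6 →L[ℂ] L2T 6}
    (h : HasSum T A) (t : ℝ) : HasSum (fun l => average PB nu (T l) t) (average PB nu A t) := by
  simp_rw [average_eq]
  apply HasSum.div_const
  apply hasSum_sum
  intro p _
  have h1 : HasSum (fun l => T l (PB p)) (A (PB p)) :=
    h.mapL (ContinuousLinearMap.apply ℂ (L2T 6) (PB p))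
  exact h1.mapL (innerSL ℂ (PB p))

end MP_d22ea4_an.WD
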