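import Pool.Agent.Lib_MP_d22ea4_wd.W14
import Pool.Agent.Lib_MP_d22ea4_an.Asm6

open MeasureTheory Filter Topology Complex
open scoped ContDiff ComplexConjugate InnerProductSpace

noncomputable section

namespace MP_d22ea4_an.WD

attribute [local instance] instMeasureSpaceUnitAddCircle

/-- set the coordinate `0` to zero -/
def proj1 (y : Torus 6) : Torus 6 := fun i => if i = 0 then 0 else y i

/-- one half of the sum over the two signs of the Haar measure of the torus `x_0 = 0`, placed at
the covector direction `± dx_2` -/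
def W1 : Measure (CoS 6) :=
  (1 / 2 : ENNReal) • (haarT 6).map (fun y => ((proj1 y, ePlus) : CoS 6)) +
    (1 / 2 : ENNReal) • (haarT 6).map (fun y => ((proj1 y, eMinus) : CoS 6))

private theorem continuous_proj1' : Continuous proj1 := by
  apply continuous_pi
  intro i
  unfold proj1
  by_cases h : i = 0
  · simp only [if_pos h]; exact continuous_const
  · simp only [if_neg h]; exact continuous_apply i

private theorem measurable_emb1' (e : Metric.sphere (0 : EuclideanSpace ℝ (Fin 6)) 1) :
    Measurable (fun y => ((proj1 y, e) : CoS 6)) :=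
  continuous_proj1'.measurable.prodMk measurable_const

private theorem prob_W1' : IsProbabilityMeasure W1 := by
  constructor
  unfold W1
  rw [Measure.add_apply, Measure.smul_apply, Measure.smul_apply,
    Measure.map_apply (measurable_emb1' _) MeasurableSet.univ,
    Measure.map_apply (measurable_emb1' _) MeasurableSet.univ, Set.preimage_univ,
    Set.preimage_univ, measure_univ]
  simp only [smul_eq_mul, mul_one]
  exact ENNReal.add_halves 1

private theorem integral_W1 {F : CoS 6 → ℂ} (hF : Continuous F) {C : ℝ} (hC : ∀ p, ‖F p‖ ≤ C) :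
    ∫ p, F p ∂W1 = (1 / 2 : ℂ) * (∫ y, F (proj1 y, ePlus) ∂(haarT 6)) +
      (1 / 2 : ℂ) * (∫ y, F (proj1 y, eMinus) ∂(haarT 6)) := by
  have hm : Measurable F := hF.measurable
  have hint : ∀ (μ : Measure (CoS 6)) [IsFiniteMeasure μ], Integrable F μ := fun μ _ =>
    Integrable.of_bound hm.aestronglyMeasurable C (Eventually.of_forall hC)
  have f1 : IsProbabilityMeasure ((haarT 6).map (fun y => ((proj1 y, ePlus) : CoS 6))) :=
    Measure.isProbabilityMeasure_map (measurable_emb1' _).aemeasurable
  have f2 : IsProbabilityMeasure ((haarT 6).map (fun y => ((proj1 y, eMinus) : CoS 6))) :=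
    Measure.isProbabilityMeasure_map (measurable_emb1' _).aemeasurable
  have htop : (1 / 2 : ENNReal) ≠ ⊤ := by simp
  unfold W1
  rw [integral_add_measure ((hint _).smul_measure htop) ((hint _).smul_measure htop),
    integral_smul_measure, integral_smul_measure,
    integral_map (measurable_emb1' _).aemeasurable hm.aestronglyMeasurable,
    integral_map (measurable_emb1' _).aemeasurable hm.aestronglyMeasurable]
  have : (1 / 2 : ENNReal).toReal = 1 / 2 := by simp
  rw [this]
  simp only [Complex.real_smul]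
  push_cast
  ring

/-- the indicator of the frequencies which survive -/
private def dl1 (l : Fin 6 → ℤ) : ℂ :=
  if l 1 = 0 ∧ l 2 = 0 ∧ l 3 = 0 ∧ l 4 = 0 ∧ l 5 = 0 then 1 else 0

private theorem expo_proj1 (l : Fin 6 → ℤ) (y : Torus 6) :
    expo l (proj1 y) = expo (fun i => if i = 0 then 0 else l i) y := by
  show ∏ i, fourier (l i) (proj1 y i) = ∏ i, fourier (if i = 0 then 0 else l i) (y i)
  refine Finset.prod_congr rfl fun i _ => ?_
  unfold proj1
  by_cases h : i = 0
  · rw [if_pos h, if_pos h, fourier_eval_zero, fourier_zero]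
  · rw [if_neg h, if_neg h]

private theorem integral_expo_proj1 (l : Fin 6 → ℤ) :
    ∫ y, expo l (proj1 y) ∂(haarT 6) = dl1 l := by
  simp_rw [expo_proj1]
  rw [integral_expo]
  unfold dl1
  congr 1
  apply propext
  constructor
  · intro h
    have := fun i => congrFun h i
    exact ⟨by simpa using this 1, by simpa using this 2, by simpa using this 3,
      by simpa using this 4, by simpa using this 5⟩
  · rintro ⟨h1, h2, h3, h4, h5⟩
    funext i
    fin_cases i <;> simp_all

variable {a : Torus 6 → (Fin 6 → ℝ) → ℂ} {c : (Fin 6 → ℤ) → ℝ}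
  {ah : (Fin 6 → ℤ) → (Fin 6 → ℝ) → ℂ}

private theorem hasSum_proj1 (h : Ser a c ah) {ξ : Fin 6 → ℝ} (hξ : ξ ≠ 0) :
    HasSum (fun l => ah l ξ * dl1 l) (∫ y, a (proj1 y) ξ ∂(haarT 6)) := by
  have h1 : ∀ y, a (proj1 y) ξ = ∑' l, ah l ξ * expo l (proj1 y) := fun y =>
    (h.sum (proj1 y) ξ hξ).tsum_eq.symm
  simp_rw [h1]
  have h2 : ∀ l, ∫ y, ah l ξ * expo l (proj1 y) ∂(haarT 6) = ah l ξ * dl1 l := by
    intro l
    rw [integral_const_mul, integral_expo_proj1]
  simp_rw [← h2]
  have hci : ∀ l, Integrable (fun y => ah l ξ * expo l (proj1 y)) (haarT 6) := by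
    intro l
    refine Integrable.of_bound ?_ (c l) (Eventually.of_forall fun y => h.term_le l (proj1 y) hξ)
    exact (continuous_const.mul ((expo l).continuous.comp continuous_proj1')).aestronglyMeasurable
  apply hasSum_integral_of_summable_integral_norm hci
  refine Summable.of_nonneg_of_le (fun l => integral_nonneg fun y => norm_nonneg _) (fun l => ?_)
    h.summ
  calc ∫ y, ‖ah l ξ * expo l (proj1 y)‖ ∂(haarT 6) ≤ ∫ _y, c l ∂(haarT 6) :=
        integral_mono (hci l).norm (integrable_const _) fun y => h.term_le l (proj1 y) hξ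
    _ = c l := by simp

private theorem ser_integral1 (h : Ser a c ah) :
    HasSum (fun l => dl1 l * ((ah l ep + ah l em) / 2))
      (∫ p, a p.1 (fun i => (p.2 : EuclideanSpace ℝ (Fin 6)) i) ∂W1) := by
  rw [integral_W1 h.continuous h.norm_le]
  simp only [ePlus_coe, eMinus_coe]
  have h1 := (hasSum_proj1 h ep_ne).mul_left (1 / 2)
  have h2 := (hasSum_proj1 h em_ne).mul_left (1 / 2)
  refine (h1.add h2).congr_fun ?_
  intro l
  ring

/-- the limit of the averages for the toroidal quantization -/
private theorem ser_tendsto_average1 (h : Ser a c ah)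
    {T : (Fin 6 → ℤ) → (L2T 6 →L[ℂ] L2T 6)} {A : L2T 6 →L[ℂ] L2T 6}
    (hT : ∀ l, IsMD l (gg ah l) (T l)) (hT' : ∀ l, ‖T l‖ ≤ c l) (hA : HasSum T A) :
    Tendsto (average PB nu A) atTop
      (𝓝 (∫ p, a p.1 (fun i => (p.2 : EuclideanSpace ℝ (Fin 6)) i) ∂W1)) := by
  rw [← (ser_integral1 h).tsum_eq]
  have e1 : average PB nu A = fun t => ∑' l, average PB nu (T l) t := by
    funext t
    exact (hasSum_average hA t).tsum_eq.symm
  rw [e1]
  refine tendsto_tsum_of_dominated_convergence (bound := c) h.summ (fun l => ?_)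
    (Eventually.of_forall fun t l => (norm_average_le (T l) t).trans (hT' l))
  by_cases hl : l 1 = 0 ∧ l 2 = 0 ∧ l 3 = 0 ∧ l 4 = 0 ∧ l 5 = 0
  · unfold dl1
    rw [if_pos hl, one_mul]
    exact avg_MD_good (hT l) hl (h.gg_le l) (h.bound l ep ep_ne) (h.bound l em em_ne) (h.nearLim l)
  · unfold dl1
    rw [if_neg hl, zero_mul]
    refine avg_MD_zero (hT l) ?_
    by_contra hcon
    push Not at hcon
    exact hl hcon

/-- the limit for every quantization, along the explicit basis -/
private theorem tendsto_average_PB1 (ha : IsSymbol a)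
    {A : L2T 6 →L[ℂ] L2T 6} (hA : IsQuant a A) :
    Tendsto (average PB nu A) atTop
      (𝓝 (∫ p, a p.1 (fun i => (p.2 : EuclideanSpace ℝ (Fin 6)) i) ∂W1)) := by
  obtain ⟨c, ah, h⟩ := exists_ser ha
  obtain ⟨T, A0, hT, hT', hA0⟩ := h.exists_op
  obtain ⟨K, hK, hAK⟩ := hA
  have hR : IsCompactOperator (A - K - A0 : L2T 6 →L[ℂ] L2T 6) := by
    apply compact_of_vanish
    intro k hk
    obtain ⟨b, hb⟩ := h.exists_b hk
    rw [sub_apply, hAK k hk b hb, h.op_apply hT hA0 hk hb, sub_self]
  have e1 : A = A0 + (K + (A - K - A0)) := by abel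
  have hcomp : IsCompactOperator (K + (A - K - A0) : L2T 6 →L[ℂ] L2T 6) := hK.add hR
  have h1 := compact_average PB nu nu_finite NN_tendsto hcomp
  have h2 : Tendsto (average PB nu (K + (A - K - A0))) atTop (𝓝 0) := h1
  have h3 := (ser_tendsto_average1 h hT hT' hA0).add h2
  rw [add_zero] at h3
  refine h3.congr fun t => ?_
  rw [← average_add, ← e1]

private theorem average_indep1 {ι : Type} {φ : HilbertBasis ι ℂ (L2T 6)} {μ : ι → ℝ}
    (h : IsEigenbasis X1 φ μ) (t : ℝ) : {i | μ i ≤ t}.Finite ∧
      ∀ A : L2T 6 →L[ℂ] L2T 6, average φ μ A t = average PB nu A t := by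
  have h1 := trace_eq φ PB μ nu (fun i p hip => (PB_isEigen p).2 (μ i) (φ i) (h i) hip)
    nu_finite t
  refine ⟨h1.1, fun A => ?_⟩
  unfold average
  rw [h1.2.1, h1.2.2 A]

/-- compare `Asm4`, `Asm5` -/
theorem isWeyl_W1 : IsWeyl X1 W1 where
  prob := prob_W1'
  basis := ⟨P1, PB, nu, fun p => (PB_isEigen p).1⟩
  quant := fun _ ha => exists_quant ha
  discrete := fun _ _ _ h t => (average_indep1 h t).1
  limit := by
    intro a ha A hA ι φ μ h
    refine (tendsto_average_PB1 ha hA).congr fun t => ?_
    exact ((average_indep1 h t).2 A).symm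

end MP_d22ea4_an.WD
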