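import Pool.Agent.Lib_MP_d22ea4_wd.W15
import Pool.Agent.Lib_MP_d22ea4_wd.W12

open MeasureTheory Filter Topology Complex
open scoped ContDiff ComplexConjugate InnerProductSpace

noncomputable section

namespace MP_d22ea4_an.WD

attribute [local instance] instMeasureSpaceUnitAddCircle

theorem continuous_proj1 : Continuous proj1 := by
  refine continuous_pi fun i => ?_
  unfold proj1
  by_cases h : i = 0
  · simp [h, continuous_const]
  · simp only [h, if_false]
    exact continuous_apply i

theorem measurable_emb1 (e : Metric.sphere (0 : EuclideanSpace ℝ (Fin 6)) 1) :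
    Measurable (fun y => ((proj1 y, e) : CoS 6)) :=
  continuous_proj1.measurable.prodMk measurable_const

theorem null_open1 {U : Set (CoS 6)} (hU : MeasurableSet U) (h1 : ∀ y, (proj1 y, ePlus) ∉ U)
    (h2 : ∀ y, (proj1 y, eMinus) ∉ U) : W1 U = 0 := by
  have e1 : (fun y => ((proj1 y, ePlus) : CoS 6)) ⁻¹' U = ∅ := by
    ext y; simpa using h1 y
  have e2 : (fun y => ((proj1 y, eMinus) : CoS 6)) ⁻¹' U = ∅ := by
    ext y; simpa using h2 y
  unfold W1
  rw [Measure.add_apply, Measure.smul_apply, Measure.smul_apply,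
    Measure.map_apply (measurable_emb1 _) hU,
    Measure.map_apply (measurable_emb1 _) hU, e1, e2]
  simp

theorem notMem_open1 {U : Set (CoS 6)} (hU : IsOpen U) (h1 : ∀ y, (proj1 y, ePlus) ∉ U)
    (h2 : ∀ y, (proj1 y, eMinus) ∉ U) : ∀ p ∈ U, p ∉ W1.support := by
  intro p hp
  rw [Measure.notMem_support_iff_exists]
  exact ⟨U, hU.mem_nhds hp, null_open1 hU.measurableSet h1 h2⟩

theorem pos_open1 {U : Set (CoS 6)} (hU : IsOpen U) {y : Torus 6} {e}
    (he : e = ePlus ∨ e = eMinus) (hy : (proj1 y, e) ∈ U) : 0 < W1 U := by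
  have := isOpenPos_haarT 6
  have hopen : IsOpen ((fun y => ((proj1 y, e) : CoS 6)) ⁻¹' U) :=
    hU.preimage (continuous_proj1.prodMk continuous_const)
  have hpos : 0 < haarT 6 ((fun y => ((proj1 y, e) : CoS 6)) ⁻¹' U) :=
    hopen.measure_pos _ ⟨y, hy⟩
  have hhalf : (0 : ENNReal) < 1 / 2 := by simp
  unfold W1
  rw [Measure.add_apply, Measure.smul_apply, Measure.smul_apply,
    Measure.map_apply (measurable_emb1 _) hU.measurableSet,
    Measure.map_apply (measurable_emb1 _) hU.measurableSet]
  rcases he with rfl | rfl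
  · exact lt_of_lt_of_le (ENNReal.mul_pos hhalf.ne' hpos.ne') le_self_add
  · exact lt_of_lt_of_le (ENNReal.mul_pos hhalf.ne' hpos.ne') le_add_self

/-- compare `support_W0` -/
theorem support_W1 : W1.support = {p : CoS 6 | p.1 0 = 0 ∧
    ∀ i, i ≠ 2 → (p.2 : EuclideanSpace ℝ (Fin 6)) i = 0} := by
  ext p
  constructor
  · intro hp
    refine ⟨?_, ?_⟩
    · by_contra h
      refine notMem_open1 (U := {p : CoS 6 | p.1 0 ≠ 0})
        (isOpen_ne.preimage ((continuous_apply 0).comp continuous_fst)) ?_ ?_ p h hp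
      · intro y hy; exact hy (by simp [proj1])
      · intro y hy; exact hy (by simp [proj1])
    · intro i hi
      by_contra h
      refine notMem_open1 (U := {p : CoS 6 | (p.2 : EuclideanSpace ℝ (Fin 6)) i ≠ 0})
        (isOpen_ne.preimage ?_) ?_ ?_ p h hp
      · have : Continuous fun q : CoS 6 => (q.2 : EuclideanSpace ℝ (Fin 6)) :=
          continuous_subtype_val.comp continuous_snd
        exact (EuclideanSpace.proj i).continuous.comp this
      · intro y hy; exact hy (by simp [coe_ePlus, hi])
      · intro y hy; exact hy (by simp [coe_eMinus, hi])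
  · rintro ⟨h0, hξ⟩
    have hn : ‖(p.2 : EuclideanSpace ℝ (Fin 6))‖ = 1 := by simpa using p.2.2
    have he : p.2 = ePlus ∨ p.2 = eMinus := by
      rcases eq_two_of hξ hn with h | h
      · left
        apply Subtype.ext
        ext i
        rw [coe_ePlus]
        by_cases hi : i = 2
        · rw [if_pos hi, hi, h]
        · rw [if_neg hi, hξ i hi]
      · right
        apply Subtype.ext
        ext i
        rw [coe_eMinus]
        by_cases hi : i = 2
        · rw [if_pos hi, hi, h]
        · rw [if_neg hi, hξ i hi]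
    have hproj : proj1 p.1 = p.1 := by
      funext i
      unfold proj1
      by_cases hi : i = 0
      · rw [if_pos hi, hi]
        exact h0.symm
      · rw [if_neg hi]
    by_contra hns
    rw [Measure.notMem_support_iff_exists] at hns
    obtain ⟨U, hU, hU0⟩ := hns
    obtain ⟨V, hVU, hV, hpV⟩ := mem_nhds_iff.1 hU
    have : 0 < W1 V := pos_open1 (y := p.1) hV he (by rw [hproj]; exact hpV)
    exact absurd (measure_mono_null hVU hU0) this.ne'

theorem W1_SSigma : W1 {p : CoS 6 | p.1 0 = ((1 / 2 : ℝ) : UnitAddCircle)} = 0 := by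
  have hcl : IsClosed {p : CoS 6 | p.1 0 = ((1 / 2 : ℝ) : UnitAddCircle)} :=
    isClosed_singleton.preimage ((continuous_apply 0).comp continuous_fst)
  refine null_open1 hcl.measurableSet ?_ ?_
  · intro y hy
    have h : proj1 y 0 = ((1 / 2 : ℝ) : UnitAddCircle) := hy
    exact half_ne (by rw [← h]; simp [proj1])
  · intro y hy
    have h : proj1 y 0 = ((1 / 2 : ℝ) : UnitAddCircle) := hy
    exact half_ne (by rw [← h]; simp [proj1])

end MP_d22ea4_an.WD
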