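import Pool.Agent.Lib_MP_d22ea4_wd.W16
import Pool.Agent.Lib_MP_d22ea4_wd.Frame
import Pool.Agent.Lib_MP_d22ea4_an.Bridge

open MeasureTheory Filter Topology Complex
open scoped ContDiff ComplexConjugate InnerProductSpace

noncomputable section

namespace MP_d22ea4_an.WD

attribute [local instance] instMeasureSpaceUnitAddCircle

theorem X1_eq (i : Fin 4) : cj (SRTorus.X1 i) = X1 i := by
  funext x
  fin_cases i <;> rfl

theorem X1_fun : (fun i => cj (SRTorus.X1 i)) = X1 := funext X1_eq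

theorem sIsFrame : SRTorus.IsFrame SRTorus.pr SRTorus.X1 := by
  refine ⟨fun i => ?_, fun x => ?_⟩
  · rw [isVF_iff, X1_eq]
    exact isFrame_X1.vf i
  · have h1 := isFrame_X1.indep (LL x)
    have h2 : (fun i => X1 i (LL x)) =
        (LL.toLinearEquiv : E6 →ₗ[ℝ] (Fin 6 → ℝ)) ∘ fun i => SRTorus.X1 i x := by
      funext i
      rw [← X1_eq]
      simp [cj]
    rw [h2] at h1
    exact h1.of_comp _

theorem sIsStep : SRTorus.IsStep SRTorus.pr SRTorus.X1 11 := by
  refine ⟨fun x => ?_, fun i hi => ?_⟩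
  · rw [eq_top_iff]
    intro v _
    rw [mem_flag_iff, X1_fun, isStep_X1.1]
    trivial
  · obtain ⟨x, hx⟩ := isStep_X1.2 i hi
    refine ⟨LL.symm x, fun h => hx ?_⟩
    rw [eq_top_iff]
    intro v _
    have h1 : LL.symm v ∈ SRTorus.flag SRTorus.pr SRTorus.X1 i (LL.symm x) := by
      rw [h]
      trivial
    rw [mem_flag_iff, X1_fun] at h1
    simpa using h1

theorem sSSigma : SRTorus.SSigma SRTorus.pr SRTorus.X1 10 =
    {p | p.1 0 = ((1 / 2 : ℝ) : UnitAddCircle) ∧ ‖p.2‖ = 1 ∧ p.2 0 = 0 ∧ p.2 1 = 0 ∧ p.2 2 = 0 ∧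
      p.2 3 = 0 ∧ p.2 4 + 128 * p.2 5 = 0} := by
  ext p
  constructor
  · rintro ⟨h1, x, hx, hv⟩
    have h2 : ((p.1, ⟨p.2, by simpa using h1⟩) : CoS 6) ∈ SSigma X1 10 := by
      refine ⟨LL x, hx, fun v hv' => ?_⟩
      have h3 := hv (LL.symm v) (by rw [mem_flag_iff, X1_fun]; simpa using hv')
      rw [inner_E6] at h3
      exact h3
    rw [SSigma_X1] at h2
    exact ⟨h2.1, h1, h2.2⟩
  · rintro ⟨h0, h1, hξ⟩
    have h2 : ((p.1, ⟨p.2, by simpa using h1⟩) : CoS 6) ∈ SSigma X1 10 := by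
      rw [SSigma_X1]
      exact ⟨h0, hξ⟩
    obtain ⟨x, hx, hv⟩ := h2
    refine ⟨h1, LL.symm x, hx, fun v hv' => ?_⟩
    rw [inner_E6]
    rw [mem_flag_iff, X1_fun, LL.apply_symm_apply] at hv'
    exact hv (LL v) hv'

theorem sSSigma_nonempty : (SRTorus.SSigma SRTorus.pr SRTorus.X1 10).Nonempty := by
  obtain ⟨q, hq⟩ := SSigma_nonempty
  rw [SSigma_X1] at hq
  refine ⟨inc q, ?_⟩
  rw [sSSigma]
  exact ⟨hq.1, by simp [inc], hq.2⟩

/-- the measure -/
def WW1 : Measure (Torus 6 × E6) := W1.map inc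

theorem support_WW1 : WW1.support =
    {p | p.1 0 = 0 ∧ ‖p.2‖ = 1 ∧ ∀ i, i ≠ 2 → p.2 i = 0} := by
  ext p
  constructor
  · intro hp
    have hsph : ‖p.2‖ = 1 := by
      by_contra hne
      have hopen : IsOpen {q : Torus 6 × E6 | ‖q.2‖ ≠ 1} :=
        isOpen_ne.preimage (continuous_norm.comp continuous_snd)
      refine absurd hp ?_
      rw [Measure.notMem_support_iff_exists]
      refine ⟨_, hopen.mem_nhds hne, ?_⟩
      unfold WW1
      rw [measurableEmbedding_inc.map_apply]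
      have : inc ⁻¹' {q : Torus 6 × E6 | ‖q.2‖ ≠ 1} = ∅ := by
        ext q
        simp [inc]
      rw [this, measure_empty]
    have h2 : ((p.1, ⟨p.2, by simpa using hsph⟩) : CoS 6) ∈ W1.support := by
      by_contra hns
      rw [Measure.notMem_support_iff_exists] at hns
      obtain ⟨U, hU, hU0⟩ := hns
      have h3 := isClosedEmbedding_inc.isInducing.nhds_eq_comap
        ((p.1, ⟨p.2, by simpa using hsph⟩) : CoS 6)
      rw [h3] at hU
      obtain ⟨V, hV, hVU⟩ := hU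
      refine absurd hp ?_
      rw [Measure.notMem_support_iff_exists]
      refine ⟨V, hV, ?_⟩
      unfold WW1
      rw [measurableEmbedding_inc.map_apply]
      exact measure_mono_null hVU hU0
    rw [support_W1] at h2
    exact ⟨h2.1, hsph, h2.2⟩
  · rintro ⟨h0, hsph, hξ⟩
    by_contra hns
    rw [Measure.notMem_support_iff_exists] at hns
    obtain ⟨U, hU, hU0⟩ := hns
    have h2 : ((p.1, ⟨p.2, by simpa using hsph⟩) : CoS 6) ∈ W1.support := by
      rw [support_W1]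
      exact ⟨h0, hξ⟩
    refine absurd h2 ?_
    rw [Measure.notMem_support_iff_exists]
    refine ⟨inc ⁻¹' U, isClosedEmbedding_inc.continuous.continuousAt.preimage_mem_nhds hU, ?_⟩
    unfold WW1 at hU0
    rwa [measurableEmbedding_inc.map_apply] at hU0

theorem sIsWeyl : SRTorus.IsWeyl SRTorus.pr SRTorus.haar SRTorus.X1 WW1 := by
  have hE : ∀ (t : ℝ) (φ : L2T 6), SRTorus.IsEigen SRTorus.pr SRTorus.haar SRTorus.X1 t φ ↔
      IsEigen X1 t φ := by
    intro t φ
    rw [isEigen_iff, X1_fun]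
  have hprob := isWeyl_W1.prob
  refine ⟨?_, ?_, ?_, ?_, ?_, ?_⟩
  · exact Measure.isProbabilityMeasure_map measurableEmbedding_inc.measurable.aemeasurable
  · unfold WW1
    rw [measurableEmbedding_inc.ae_map_iff]
    exact Eventually.of_forall fun p => by simp [inc]
  · obtain ⟨ι, φ, μ, h⟩ := isWeyl_W1.basis
    exact ⟨ι, φ, μ, fun i => (hE _ _).2 (h i)⟩
  · intro a ha
    obtain ⟨A, hA⟩ := isWeyl_W1.quant (cs a) (isSymbol_cs ha)
    exact ⟨A, (isQuant_iff a A).2 hA⟩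
  · intro ι φ μ h t
    exact isWeyl_W1.discrete ι φ μ (fun i => (hE _ _).1 (h i)) t
  · intro a ha A hA ι φ μ h
    have h1 := isWeyl_W1.limit (cs a) (isSymbol_cs ha) A ((isQuant_iff a A).1 hA) ι φ μ
      (fun i => (hE _ _).1 (h i))
    have h2 : ∫ p, a p.1 p.2 ∂WW1 =
        ∫ p : CoS 6, cs a p.1 (fun i => (p.2 : EuclideanSpace ℝ (Fin 6)) i) ∂W1 := by
      unfold WW1
      rw [measurableEmbedding_inc.integral_map]
      rfl
    rw [h2]
    exact h1

theorem WW1_null : WW1 (SRTorus.SSigma SRTorus.pr SRTorus.X1 10) = 0 := by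
  unfold WW1
  rw [measurableEmbedding_inc.map_apply]
  refine measure_mono_null ?_ W1_SSigma
  intro p hp
  rw [sSSigma] at hp
  exact hp.1

theorem sDisj : Disjoint WW1.support (SRTorus.SSigma SRTorus.pr SRTorus.X1 10) := by
  rw [Set.disjoint_left]
  intro p hp hq
  rw [support_WW1] at hp
  rw [sSSigma] at hq
  obtain ⟨_, h1, h2⟩ := hp
  obtain ⟨_, _, _, _, h3, _⟩ := hq
  have h4 : p.2 = 0 := by
    ext i
    by_cases hi : i = 2
    · subst hi
      exact h3
    · exact h2 i hi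
  rw [h4, norm_zero] at h1
  exact zero_ne_one h1

end MP_d22ea4_an.WD
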